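import Mathlib
import Pool.Agent.NH3.XD.Stm
import Pool.Agent.NH4.PJ.Stm

/-!
# Project XJ (helper4): the JOINT law of the Redei matrices of `N m_1, …, N m_M`

`N` runs over the squarefree numbers congruent to `r` modulo `m`, `4 ∣ m`, `r` prime to `m`; the masks
`mk 0, …, mk (M - 1)` are different sets of odd primes dividing `m`, and all the products `N ∏ (mk a)` are
`3` modulo `4`. The kernels of the Redei matrices of the `N ∏ (mk a)` (project XD, `Pool.Agent.NH3.XD`)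
have `2 ^ (r_a + 1)` elements with the probability `∏ law 0 (r_a)`: they are asymptotically independent.
The linear algebra is reduced to the one of project PJ (`Pool.Agent.NH4.PJ`). Templates: XD and PJ.
-/

set_option autoImplicit false
set_option linter.unusedVariables false

open scoped Classical

namespace Pool.Agent.NH4.XJ

open Finset
open Pool.Agent.Y703.CX (sm la jj XX eL zz kk S_SIE)
open Pool.Agent.Y703.CQ (nr sg prs HB S_EQ S_MER)
open Pool.Agent.NH5.PR (eta S_BIL S_ETA ex2)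
open Pool.Agent.NH4.PJ (inj law LawP S_ABS Wm nkM Lrg Sml rs Dep S_M1 S_M2 S_M3 S_POW)
open Pool.Agent.NH3.XD (Cl SS AA Sol Nd CntP S_XHAL S_XBAD)

/-! ### the class and the event -/

/-- the parameters -/
def OkJ (m r : ℕ) : Prop := 0 < m ∧ 4 ∣ m ∧ r < m ∧ Nat.Coprime r m

/-- the masks: different sets of odd primes dividing `m`, all products are `3` modulo `4` -/
def OkM {M : ℕ} (m r : ℕ) (mk : Fin M → Finset ℕ) : Prop :=
  Function.Injective mk ∧ (∀ a, ∀ u ∈ mk a, u.Prime ∧ u ≠ 2 ∧ u ∣ m) ∧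
    ∀ a, (r * ∏ u ∈ mk a, u) % 4 = 3

/-- the number of the elements of the kernel of the Redei matrix -/
noncomputable def nx (S : Finset ℕ) : ℕ :=
  (S.powerset.filter fun T => Sol S fun p => if p ∈ T then 1 else 0).card

/-- the event -/
def Ev {M : ℕ} (mk : Fin M → Finset ℕ) (rr : Fin M → ℕ) (S : Finset ℕ) : Prop :=
  ∀ a, nx (S ∪ mk a) = 2 ^ (rr a + 1)

/-- FINAL, for sets of primes -/
def S_XJQ : Prop := ∀ (M m r : ℕ) (mk : Fin M → Finset ℕ) (rr : Fin M → ℕ), OkJ m r → OkM m r mk →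
  Filter.Tendsto (fun X : ℕ => (((SS m r X).filter (Ev mk rr)).card : ℝ) / ((SS m r X).card : ℝ))
  Filter.atTop (nhds (∏ a, law 0 (rr a)))

/-- FINAL, for numbers -/
def S_XJDEN : Prop := ∀ (M m r : ℕ) (mk : Fin M → Finset ℕ) (rr : Fin M → ℕ), OkJ m r → OkM m r mk →
  Filter.Tendsto
  (fun X : ℕ => (((Icc 1 X).filter fun N => Squarefree N ∧ N % m = r ∧
      Ev mk rr N.primeFactors).card : ℝ) /
    (((Icc 1 X).filter fun N => Squarefree N ∧ N % m = r).card : ℝ))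
  Filter.atTop (nhds (∏ a, law 0 (rr a)))

/-! ### the linear algebra -/

section dat

variable {U J : Type} [Fintype U] [Fintype J] [LinearOrder J]

/-- the reciprocity law, the products are `3` modulo `4`, the labels are not degenerate -/
structure GoodJ {M : ℕ} (d : NH3.XD.Dat U J) (mm : Fin M → Finset U) : Prop where
  rA : ∀ u v, u ≠ v → d.A u v + d.A v u = d.bU u * d.bU v
  rB : ∀ u l, d.B u l + d.C l u = d.bU u * d.bJ l
  par : ∀ a, ∑ u ∈ mm a, d.bU u + ∑ l, d.bJ l = 1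
  nd : ∀ w : U → ZMod 2, (∃ u, w u ≠ 0) → ∃ k, d.bJ k = 0 ∧ ∑ u, w u * d.C k u ≠ 0

/-- the correction of the reciprocity law -/
def tt (d : NH3.XD.Dat U J) : J → J → ZMod 2 := fun k l => d.bJ k * d.bJ l

/-- the data of project PJ: all rows and columns, except the index `i` -/
noncomputable def toP (d : NH3.XD.Dat U J) (i : J) : Pool.Agent.NH4.PJ.Dat U J where
  UR := univ
  UC := univ
  JR := univ.erase i
  JC := univ.erase i
  t := tt d
  A := d.A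
  B := d.B
  C := d.C
  f := fun _ => 0
  g := fun _ => 0

/-- all the rows, for the mask `mm` -/
def All (d : NH3.XD.Dat U J) (mm : Finset U) (α : prs (univ : Finset J) → ZMod 2) (x : U → ZMod 2)
    (y : J → ZMod 2) : Prop :=
  (∀ u, u ∉ mm → x u = 0) ∧
  (∀ u ∈ mm, ∑ v ∈ mm, d.A u v * (x v + x u) + ∑ l, d.B u l * (y l + x u) = 0) ∧
  ∀ k, ∑ u ∈ mm, d.C k u * (x u + y k) + ∑ l, ex2 (tt d) α k l * (y l + y k) = 0

/-- XJ-SYS: the kernel has twice as many elements as the reduced one -/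
def S_XSYS : Prop := ∀ (U J : Type) [Fintype U] [Fintype J] [LinearOrder J] (M : ℕ)
  (d : NH3.XD.Dat U J) (mm : Fin M → Finset U), GoodJ d mm → ∀ (i : J) (a : Fin M)
  (α : prs (univ : Finset J) → ZMod 2),
  (univ.filter fun z : (U → ZMod 2) × (J → ZMod 2) => All d (mm a) α z.1 z.2).card =
    2 * nkM (toP d i) (mm a) α

/-- the solutions of the small rows which vanish at `i` -/
noncomputable def KK (d : NH3.XD.Dat U J) (i : J) (mm : Finset U) :
    Finset ((U → ZMod 2) × (J → ZMod 2)) :=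
  univ.filter fun z => Sml (toP d i) mm z.1 z.2

/-- the pairing of the solutions for two masks -/
def om (d : NH3.XD.Dat U J) (m1 m2 : Finset U) (v w : (U → ZMod 2) × (J → ZMod 2)) : ZMod 2 :=
  (∑ l, d.bJ l * v.2 l) * (∑ l, d.bJ l * w.2 l) + ∑ l, d.bJ l * (v.2 l * w.2 l) +
    ∑ u ∈ m1, v.1 u * ∑ k, d.C k u * w.2 k + ∑ u ∈ m2, w.1 u * ∑ k, d.C k u * v.2 k +
    ∑ k, v.2 k * w.2 k * (∑ u ∈ m1, d.C k u + ∑ u ∈ m2, d.C k u)

end dat

/-- XJ-PRB: the number of the completions for which a generic family satisfies the large rows -/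
def S_XPRB : Prop := ∀ (J S : Type) [Fintype J] [LinearOrder J] [Fintype S] [LinearOrder S] (i : J)
  (b : J → ZMod 2) (y c0 : J → S → ZMod 2), y i = 0 → rs y Set.univ = ⊤ →
  (univ.filter fun α : prs (univ : Finset J) → ZMod 2 => ∀ k ∈ univ.erase i, ∀ s,
      c0 k s + ∑ l, ex2 (fun k l => b k * b l) α k l * (y l s + y k s) = 0).card *
      2 ^ ((Fintype.card J - 1) * Fintype.card S) =
    if ∀ s s' : S, s < s' → (∑ k, (y k s' * c0 k s + y k s * c0 k s') +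
        (∑ k, b k * y k s) * (∑ k, b k * y k s') + ∑ k, b k * (y k s * y k s')) = 0 then
      2 ^ (prs (univ : Finset J)).card *
        2 ^ (univ.filter fun p : S × S => p.1 < p.2).card else 0

/-- XJ-RAD: the radical of the pairing -/
def S_XRAD : Prop := ∀ (U J : Type) [Fintype U] [Fintype J] [LinearOrder J] (d : NH3.XD.Dat U J)
  (i : J) (m1 m2 : Finset U),
  ((KK d i m2).filter fun w => ∀ v ∈ KK d i m1, om d m1 m2 v w = 0).card *
      2 ^ (univ.filter fun k => d.bJ k + (∑ u ∈ m1, d.C k u + ∑ u ∈ m2, d.C k u) = 1).card ≤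
    2 ^ (2 * Fintype.card U + 2 + Fintype.card J)

/-- XJ-ISO: the number of the families orthogonal for pairings with small radicals -/
def S_XISO : Prop := ∀ (S : Type) [Fintype S] [LinearOrder S] (V : S → Type)
  [∀ s, AddCommGroup (V s)] [∀ s, Module (ZMod 2) (V s)] [∀ s, Fintype (V s)]
  (ω : ∀ s t, V s →ₗ[ZMod 2] V t →ₗ[ZMod 2] ZMod 2) (ρ : ℝ), 0 ≤ ρ →
  (∀ s t, s < t → ((univ.filter fun w : V t => ∀ v : V s, ω s t v w = 0).card : ℝ) ≤
    ρ * Fintype.card (V t)) →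
  |((univ.filter fun z : ∀ s, V s => ∀ s t, s < t → ω s t (z s) (z t) = 0).card : ℝ) -
      (∏ s, (Fintype.card (V s) : ℝ)) / 2 ^ (univ.filter fun p : S × S => p.1 < p.2).card| ≤
    ρ * ∏ s, (Fintype.card (V s) : ℝ)

/-- XJ-MOM: the mixed moments -/
def S_XMOMJ : Prop := ∀ (M : ℕ) (k : Fin M → ℕ), ∃ (C : ℝ) (L : ℕ), 0 < C ∧
  ∀ (U J : Type) [Fintype U] [Fintype J] [LinearOrder J] (d : NH3.XD.Dat U J) (mm : Fin M → Finset U)
  (i : J) (V : ℕ), GoodJ d mm → d.bJ i = 1 → V ≤ (univ.filter fun l => d.bJ l = 1).card →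
  (∀ a b, a ≠ b → V ≤ (univ.filter fun k => d.bJ k = 0 ∧
    ∑ u ∈ mm a, d.C k u + ∑ u ∈ mm b, d.C k u ≠ 0).card) →
  |(∑ α : prs (univ : Finset J) → ZMod 2, ∏ a, inj (k a) (nkM (toP d i) (mm a) α)) /
      2 ^ (prs (univ : Finset J)).card - 1| ≤ C * 2 ^ (L * Fintype.card U) / 2 ^ V

/-- XJ-LA: the joint law for a random completion -/
def S_XLAJ : Prop := ∀ (M : ℕ) (rr : Fin M → ℕ) (ε : ℝ), 0 < ε → ∃ L R : ℕ,
  ∀ (U J : Type) [Fintype U] [Fintype J] [LinearOrder J] (d : NH3.XD.Dat U J) (mm : Fin M → Finset U)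
  (i : J), GoodJ d mm → d.bJ i = 1 →
  L * Fintype.card U + R ≤ (univ.filter fun l => d.bJ l = 1).card →
  (∀ a b, a ≠ b → L * Fintype.card U + R ≤ (univ.filter fun k => d.bJ k = 0 ∧
    ∑ u ∈ mm a, d.C k u + ∑ u ∈ mm b, d.C k u ≠ 0).card) →
  |((univ.filter fun α : prs (univ : Finset J) → ZMod 2 =>
      ∀ a, nkM (toP d i) (mm a) α = 2 ^ rr a).card : ℝ) /
      2 ^ (prs (univ : Finset J)).card - ∏ a, law 0 (rr a)| ≤ ε

/-! ### the boxes -/

/-- the labels of the large primes are not degenerate, and they separate the masks -/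
def NdX {M : ℕ} (L R : ℕ) (mk : Fin M → Finset ℕ) (S₀ S₁ : Finset ℕ) : Prop :=
  Nd (S₀ ∪ Wm mk) S₁ ∧ ∀ a b, a ≠ b → L * (S₀ ∪ Wm mk).card + R ≤
    (S₁.filter fun p => p % 4 = 1 ∧ ∑ u ∈ symmDiff (mk a) (mk b), nr p u ≠ 0).card

/-- XJ-BOX: the count in a box -/
def S_XJBOX : Prop := S_EQ → S_XLAJ → S_XSYS → LawP → ∀ (M : ℕ) (rr : Fin M → ℕ) (ε : ℝ), 0 < ε →
  ∃ L R : ℕ, ∀ (ι : Type) [Fintype ι] [LinearOrder ι] (J3 : Finset ι) (C : ι → Finset ℕ)
  (X : ι → ℕ) (κ : ℝ) (S₀ : Finset ℕ) (mk : Fin M → Finset ℕ), 0 ≤ κ →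
  (∀ i, (C i).card ≤ X i) → HB (univ : Finset ι) C X κ →
  (∀ u ∈ S₀ ∪ Wm mk, u.Prime ∧ u ≠ 2) → Disjoint S₀ (Wm mk) →
  (∀ i, ∀ p ∈ C i, p.Prime ∧ p ≠ 2 ∧ p ∉ S₀ ∪ Wm mk ∧ (i ∈ J3 ↔ p % 4 = 3)) →
  (∀ i l, i ≠ l → Disjoint (C i) (C l)) →
  (∀ a, (((S₀ ∪ mk a).filter fun u => u % 4 = 3).card + J3.card) % 2 = 1) →
  L * (S₀ ∪ Wm mk).card + R + 1 ≤ J3.card →
  |(((Fintype.piFinset C).filter fun p => NdX L R mk S₀ (univ.image p) ∧
      Ev mk rr (S₀ ∪ univ.image p)).card : ℝ) -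
      (∏ a, law 0 (rr a)) *
        (((Fintype.piFinset C).filter fun p => NdX L R mk S₀ (univ.image p)).card : ℝ)| ≤
    ε * (((Fintype.piFinset C).filter fun p => NdX L R mk S₀ (univ.image p)).card : ℝ) +
    2 ^ ((2 * (S₀ ∪ Wm mk).card + 1) * Fintype.card ι + (prs (univ : Finset ι)).card) *
      (κ * ∏ j, (X j : ℝ))

/-- the regular sets -/
noncomputable def RR {M : ℕ} (m r : ℕ) (mk : Fin M → Finset ℕ) (X z H k L R : ℕ) :
    Finset (Finset ℕ) :=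
  (SS m r X).filter fun S => Set.InjOn (jj H) (la z S : Set ℕ) ∧ S.card ≤ k ∧
    (∏ p ∈ sm z S, p) * ∏ p ∈ la z S, XX H (jj H p) ≤ X ∧
    L * (sm z S ∪ Wm mk).card + R + 1 ≤ ((la z S).filter fun p => p % 4 = 3).card

/-- XJ-KEY: the sum over the boxes -/
def S_XJKEY : Prop := S_BIL → S_EQ → S_XLAJ → S_XSYS → LawP → S_XJBOX →
  ∀ (M : ℕ) (rr : Fin M → ℕ) (ε : ℝ), 0 < ε → ∃ (L R : ℕ) (C : ℝ), 1 ≤ C ∧
  ∀ (m r : ℕ) (mk : Fin M → Finset ℕ) (X z H k N : ℕ) (κ : ℝ),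
  OkJ m r → OkM m r mk → (∀ u ∈ Wm mk, u ≤ z) → (Wm mk).card ≤ k →
  1 ≤ X → 1 ≤ H → 2 ≤ z → 0 ≤ κ → C ≤ κ ^ 12 * z → (H : ℝ) * Real.log X < N →
  |(((RR m r mk X z H k L R).filter fun S => NdX L R mk (sm z S) (la z S) ∧
      Ev mk rr S).card : ℝ) - (∏ a, law 0 (rr a)) *
      (((RR m r mk X z H k L R).filter fun S => NdX L R mk (sm z S) (la z S)).card : ℝ)| ≤
    ε * ((RR m r mk X z H k L R).card : ℝ) +
    (m * N + m : ℝ) ^ k * (3 ^ (6 * k ^ 2) * κ) * (X * (1 + Real.log X))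

/-! ### the exceptional sets -/

/-- XJ-FEW: few sets have few large primes `3` modulo `4` -/
def S_XJFEW : Prop := S_SIE → S_MER → ∀ L R : ℕ, ∃ (C : ℝ) (X₀ : ℕ), ∀ X : ℕ, X₀ ≤ X →
  (((AA X).filter fun S => ((la (zz X) S).filter fun p => p % 4 = 3).card <
      L * (sm (zz X) S).card + R).card : ℝ) ≤ C * X * (Real.log X) ^ (-1 / 64 : ℝ)

/-- XJ-MER: Mertens' theorem for the primes `1` modulo `4` on which a product of primes is not a
square -/
def S_XJMER : Prop := ∀ e : Finset ℕ, e.Nonempty → (∀ u ∈ e, u.Prime ∧ u ≠ 2) →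
  ∃ C : ℝ, ∀ y : ℕ, 3 ≤ y →
  |∑ p ∈ (range (y + 1)).filter (fun p => p.Prime ∧ p % 4 = 1 ∧ p ∉ e ∧ ∑ u ∈ e, nr p u ≠ 0),
    (1 : ℝ) / p - 1 / 4 * Real.log (Real.log y)| ≤ C

/-- XJ-SEP: few sets have few large primes `1` modulo `4` on which a product of primes is not a square -/
def S_XJSEP : Prop := S_SIE → S_MER → S_XJMER → ∀ (L R : ℕ) (e : Finset ℕ), e.Nonempty →
  (∀ u ∈ e, u.Prime ∧ u ≠ 2) → ∃ (C : ℝ) (X₀ : ℕ), ∀ X : ℕ, X₀ ≤ X →
  (((AA X).filter fun S => ((la (zz X) S).filter fun p => p % 4 = 1 ∧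
      ∑ u ∈ e, nr p u ≠ 0).card < L * (sm (zz X) S).card + R).card : ℝ) ≤
    C * X * (Real.log X) ^ (-1 / 64 : ℝ)

/-- XJ-LOW: the lower bound for the size of the class -/
def S_XJLOW : Prop := ∀ m r : ℕ, OkJ m r → ∃ (c : ℝ) (X₀ : ℕ), 0 < c ∧ ∀ X : ℕ, X₀ ≤ X →
  c * X ≤ ((SS m r X).card : ℝ)

/-- XJ-ASY: the final asymptotics -/
def S_XJASY : Prop := S_BIL → S_EQ → S_XLAJ → S_XSYS → LawP → S_XJBOX → S_XJKEY → CntP → S_SIE →
  S_XHAL → S_XBAD → S_MER → S_XJFEW → S_XJMER → S_XJSEP → S_XJLOW → S_XJQ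

/-- XJ-NS: the translation -/
def S_XJNS : Prop := S_XJQ → S_XJDEN

end Pool.Agent.NH4.XJ
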