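import Pool.Agent.NH4.XJ.Stm
import Pool.Agent.NH4.PJ.BOX
import Pool.Agent.NH3.XD.BOX

/-! XJ-BOX: the joint count in a box (adapted from `Pool.Agent.NH4.PJ.BOX` and
`Pool.Agent.NH3.XD.BOX`). -/

set_option autoImplicit false

open scoped Classical

namespace Pool.Agent.NH4.XJ.BX

open Finset
open Pool.Agent.Y703.CQ (nr prs HB S_EQ)
open Pool.Agent.NH5.PR (ex2)
open Pool.Agent.NH3.XD (Sol Nd Dat)
open Pool.Agent.NH3.XD.BX (Lb lb LN b4 two_self recip nd_iff dt bJ_eq HB_sub odd_cases)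
open Pool.Agent.NH4.PJ (Wm)
open Pool.Agent.NH4.PJ.BX (pt mem_pt sum_pt add_pt sd_un ind ind_inj z2)

section gen
variable {U J : Type} [Fintype U] [Fintype J] [LinearOrder J]

/-- the number of the elements of the kernel -/
noncomputable def nA (d : Dat U J) (mm : Finset U) (α : prs (univ : Finset J) → ZMod 2) : ℕ :=
  (univ.filter fun z : (U → ZMod 2) × (J → ZMod 2) => All d mm α z.1 z.2).card

theorem nA_bij {A : Type} (s : Finset A) (d : Dat U J) (mm : Finset U)
    (α : prs (univ : Finset J) → ZMod 2) (i : ∀ a ∈ s, (U → ZMod 2) × (J → ZMod 2))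
    (h1 : ∀ a ha, All d mm α (i a ha).1 (i a ha).2)
    (h2 : ∀ a ha b hb, i a ha = i b hb → a = b)
    (h3 : ∀ z : (U → ZMod 2) × (J → ZMod 2), All d mm α z.1 z.2 → ∃ a ha, i a ha = z) :
    s.card = nA d mm α := by
  unfold nA
  refine Finset.card_bij i ?_ ?_ ?_
  · intro a ha
    exact Finset.mem_filter.2 ⟨Finset.mem_univ _, h1 a ha⟩
  · intro a ha b hb
    exact h2 a ha b hb
  · intro z hz
    exact h3 z (Finset.mem_filter.1 hz).2

end gen

section one
variable {ι : Type} [Fintype ι] [LinearOrder ι]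
variable {J3 : Finset ι} {S₁ T : Finset ℕ} {p : ι → ℕ}

theorem ex2_eq (hp : Function.Injective p) (hpr : ∀ i, (p i).Prime ∧ p i ≠ 2)
    (h3 : ∀ i, i ∈ J3 ↔ p i % 4 = 3) {k l : ι} (hkl : k ≠ l) :
    ex2 (tt (dt S₁ J3 (fun i => lb S₁ (p i))))
      (fun e : prs (univ : Finset ι) => nr (p e.1.2) (p e.1.1)) k l = nr (p k) (p l) := by
  unfold ex2
  by_cases h : (l, k) ∈ prs (univ : Finset ι)
  · rw [dif_pos h]
  · rw [dif_neg h]
    have h1 : ¬ l < k := by
      intro hlt
      apply h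
      unfold prs
      exact Finset.mem_filter.2 ⟨Finset.mem_univ _, Finset.mem_univ _, hkl, fun _ => hlt⟩
    have h2 : (k, l) ∈ prs (univ : Finset ι) := by
      unfold prs
      exact Finset.mem_filter.2 ⟨Finset.mem_univ _, Finset.mem_univ _, fun h => hkl h.symm,
        fun _ => lt_of_le_of_ne (not_lt.1 h1) hkl⟩
    rw [dif_pos h2]
    unfold tt
    rw [bJ_eq h3, bJ_eq h3,
      ← recip (hpr k).1 (hpr k).2 (hpr l).1 (hpr l).2 fun h => hkl (hp h)]
    show nr (p l) (p k) + (nr (p k) (p l) + nr (p l) (p k)) = nr (p k) (p l)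
    rw [add_comm (nr (p k) (p l)), ← add_assoc, two_self, zero_add]

omit [LinearOrder ι] in
theorem sum_T (hT : T ⊆ S₁) (hp : Function.Injective p) (hd : ∀ i, p i ∉ S₁) (h : ℕ → ZMod 2) :
    ∑ x ∈ T ∪ univ.image p, h x = ∑ u ∈ pt S₁ T, h u + ∑ l, h (p l) := by
  rw [Finset.sum_union, Finset.sum_image (fun a _ b _ h => hp h), sum_pt hT]
  rw [Finset.disjoint_left]
  intro x hx hx'
  rw [Finset.mem_image] at hx'
  obtain ⟨i, -, rfl⟩ := hx'
  exact hd i (hT hx)

theorem sol_iff (hT : T ⊆ S₁) (hp : Function.Injective p) (hpr : ∀ i, (p i).Prime ∧ p i ≠ 2)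
    (hd : ∀ i, p i ∉ S₁) (h3 : ∀ i, i ∈ J3 ↔ p i % 4 = 3) (x : ℕ → ZMod 2)
    (hx : ∀ u ∈ S₁, u ∉ T → x u = 0) :
    Sol (T ∪ univ.image p) x ↔
      All (dt S₁ J3 fun i => lb S₁ (p i)) (pt S₁ T)
        (fun e : prs (univ : Finset ι) => nr (p e.1.2) (p e.1.1)) (fun u => x u)
        (fun l => x (p l)) := by
  have hs := fun h => sum_T hT hp hd h
  have hsum : ∀ (k : ι) (y : ι → ZMod 2),
      ∑ l, ex2 (tt (dt S₁ J3 (fun i => lb S₁ (p i))))
        (fun e : prs (univ : Finset ι) => nr (p e.1.2) (p e.1.1)) k l * (y l + y k) =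
      ∑ l, nr (p k) (p l) * (y l + y k) := by
    intro k y
    refine Finset.sum_congr rfl fun l _ => ?_
    by_cases hkl : k = l
    · subst hkl
      rw [two_self, mul_zero, mul_zero]
    · rw [ex2_eq hp hpr h3 hkl]
  unfold Sol All
  constructor
  · intro h
    refine ⟨fun u hu => hx u u.2 fun h8 => hu ((mem_pt u).2 h8), fun u hu => ?_, fun k => ?_⟩
    · have := h u (Finset.mem_union_left _ ((mem_pt u).1 hu))
      rw [hs] at this
      exact this
    · have := h (p k) (Finset.mem_union_right _ (Finset.mem_image_of_mem _ (Finset.mem_univ _)))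
      rw [hs] at this
      rw [hsum k (fun l => x (p l))]
      exact this
  · rintro ⟨-, h1, h2⟩ y hy
    rw [hs]
    rw [Finset.mem_union, Finset.mem_image] at hy
    rcases hy with hy | ⟨k, -, rfl⟩
    · exact h1 ⟨y, hT hy⟩ ((mem_pt _).2 hy)
    · have := h2 k
      rw [hsum k (fun l => x (p l))] at this
      exact this

/-- the number of the elements of the kernel -/
theorem nx_eq (hT : T ⊆ S₁) (hp : Function.Injective p) (hpr : ∀ i, (p i).Prime ∧ p i ≠ 2)
    (hd : ∀ i, p i ∉ S₁) (h3 : ∀ i, i ∈ J3 ↔ p i % 4 = 3) :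
    nx (T ∪ univ.image p) = nA (dt S₁ J3 fun i => lb S₁ (p i)) (pt S₁ T)
      (fun e : prs (univ : Finset ι) => nr (p e.1.2) (p e.1.1)) := by
  unfold nx
  have him : ∀ k, p k ∈ T ∪ univ.image p := fun k =>
    Finset.mem_union_right _ (Finset.mem_image_of_mem _ (Finset.mem_univ _))
  refine nA_bij _ _ _ _ (fun Q _ => (fun u : S₁ => ind Q u, fun l => ind Q (p l))) ?_ ?_ ?_
  · intro Q hQ
    rw [Finset.mem_filter, Finset.mem_powerset] at hQ
    have hx : ∀ u ∈ S₁, u ∉ T → ind Q u = 0 := by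
      intro u hu huT
      unfold ind
      rw [if_neg]
      intro huQ
      have := hQ.1 huQ
      rw [Finset.mem_union, Finset.mem_image] at this
      rcases this with h | ⟨k, -, rfl⟩
      · exact huT h
      · exact hd k hu
    exact (sol_iff hT hp hpr hd h3 (ind Q) hx).1 hQ.2
  · intro Q hQ Q' hQ' he
    rw [Finset.mem_filter, Finset.mem_powerset] at hQ hQ'
    rw [Prod.mk.injEq] at he
    obtain ⟨he1, he2⟩ := he
    apply ind_inj
    intro q
    by_cases hq : q ∈ T ∪ univ.image p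
    · rw [Finset.mem_union, Finset.mem_image] at hq
      rcases hq with h | ⟨k, -, rfl⟩
      · exact congrFun he1 ⟨q, hT h⟩
      · exact congrFun he2 k
    · unfold ind
      rw [if_neg fun h => hq (hQ.1 h), if_neg fun h => hq (hQ'.1 h)]
  · rintro ⟨c, d⟩ hS
    simp only at hS
    set c' : ℕ → ZMod 2 := fun n => if h : n ∈ S₁ then c ⟨n, h⟩ else
      if h : ∃ l, p l = n then d h.choose else 0 with hc'
    have e1 : ∀ u : S₁, c' u = c u := by
      intro u
      simp only [hc']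
      rw [dif_pos u.2]
    have e2 : ∀ l, c' (p l) = d l := by
      intro l
      have hex : ∃ l', p l' = p l := ⟨l, rfl⟩
      simp only [hc']
      rw [dif_neg (hd l), dif_pos hex]
      exact congrArg d (hp hex.choose_spec)
    set Q : Finset ℕ := (T ∪ univ.image p).filter fun q => c' q = 1 with hQ
    have hcT : ∀ u : S₁, (u : ℕ) ∉ T → c u = 0 := fun u hu => hS.1 u fun h => hu ((mem_pt u).1 h)
    have f1 : ∀ u : S₁, ind Q u = c u := by
      intro u
      unfold ind
      by_cases huT : (u : ℕ) ∈ T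
      · have : (u : ℕ) ∈ Q ↔ c u = 1 := by
          rw [hQ, Finset.mem_filter, e1]
          exact ⟨fun h => h.2, fun h => ⟨Finset.mem_union_left _ huT, h⟩⟩
        simp only [this]
        exact z2 _
      · rw [if_neg, hcT u huT]
        intro h
        have := (Finset.mem_filter.1 h).1
        rw [Finset.mem_union, Finset.mem_image] at this
        rcases this with h | ⟨k, -, hk⟩
        · exact huT h
        · exact hd k (by rw [hk]; exact u.2)
    have f2 : ∀ l, ind Q (p l) = d l := by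
      intro l
      unfold ind
      have : p l ∈ Q ↔ d l = 1 := by
        rw [hQ, Finset.mem_filter, e2]
        exact ⟨fun h => h.2, fun h => ⟨him l, h⟩⟩
      simp only [this]
      exact z2 _
    have g1 : (fun u : S₁ => ind Q u) = c := funext f1
    have g2 : (fun l => ind Q (p l)) = d := funext f2
    have hx : ∀ u ∈ S₁, u ∉ T → ind Q u = 0 := by
      intro u hu huT
      have := f1 ⟨u, hu⟩
      simp only at this
      rw [this]
      exact hcT ⟨u, hu⟩ huT
    refine ⟨Q, ?_, ?_⟩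
    · rw [Finset.mem_filter, Finset.mem_powerset]
      refine ⟨Finset.filter_subset _ _, ?_⟩
      refine (sol_iff hT hp hpr hd h3 (ind Q) hx).2 ?_
      rw [g1, g2]
      exact hS
    · rw [g1, g2]

/-- the shift of the event -/
noncomputable def sh (J3 : Finset ι) (e : prs (univ : Finset ι)) : ZMod 2 :=
  (if e.1.1 ∈ J3 then 1 else 0) * (if e.1.2 ∈ J3 then 1 else 0)

omit [Fintype ι] in
theorem b4_eq (h3 : ∀ i, i ∈ J3 ↔ p i % 4 = 3) (l : ι) :
    (if l ∈ J3 then (1 : ZMod 2) else 0) = b4 (p l) := by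
  unfold b4
  by_cases h : l ∈ J3
  · rw [if_pos h, if_pos ((h3 l).1 h)]
  · rw [if_neg h, if_neg fun h' => h ((h3 l).2 h')]

theorem sh_eq (hp : Function.Injective p) (hpr : ∀ i, (p i).Prime ∧ p i ≠ 2)
    (h3 : ∀ i, i ∈ J3 ↔ p i % 4 = 3) :
    (fun e : prs (univ : Finset ι) => nr (p e.1.2) (p e.1.1)) =
      (fun e : prs (univ : Finset ι) => nr (p e.1.1) (p e.1.2)) + sh J3 := by
  funext e
  have hne : e.1.1 ≠ e.1.2 := by
    have h := e.2
    unfold prs at h
    exact fun h' => (Finset.mem_filter.1 h).2.2.1 h'.symm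
  show nr (p e.1.2) (p e.1.1) = nr (p e.1.1) (p e.1.2) + sh J3 e
  unfold sh
  rw [b4_eq h3, b4_eq h3, ← recip (hpr _).1 (hpr _).2 (hpr _).1 (hpr _).2 fun h => hne (hp h),
    ← add_assoc, two_self, zero_add]

theorem card_sh (J3 : Finset ι) (Q : (prs (univ : Finset ι) → ZMod 2) → Prop) :
    (univ.filter fun β => Q (β + sh J3)).card = (univ.filter Q).card := by
  have h2 : ∀ β : prs (univ : Finset ι) → ZMod 2, β + sh J3 + sh J3 = β := by
    intro β
    funext e
    show β e + sh J3 e + sh J3 e = β e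
    rw [add_assoc, two_self, add_zero]
  refine Finset.card_bij (fun β _ => β + sh J3) ?_ ?_ ?_
  · intro β hβ
    exact Finset.mem_filter.2 ⟨Finset.mem_univ _, (Finset.mem_filter.1 hβ).2⟩
  · intro β _ γ _ h
    have h3 := congrArg (fun z => z + sh J3) h
    simp only [h2] at h3
    exact h3
  · intro β hβ
    refine ⟨β + sh J3, Finset.mem_filter.2 ⟨Finset.mem_univ _, ?_⟩, h2 β⟩
    rw [h2]
    exact (Finset.mem_filter.1 hβ).2

end one

/-- the good labels -/
def LX {ι : Type} {M : ℕ} (L R : ℕ) (S₁ : Finset ℕ) (m : Fin M → Finset ℕ) (J3 J1 : Finset ι)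
    (β : ι → Lb S₁) : Prop :=
  LN S₁ J3 β ∧ ∀ a b, a ≠ b → L * S₁.card + R ≤
    (J1.filter fun k => ∑ u ∈ pt S₁ (symmDiff (m a) (m b)), (β k).2 u ≠ 0).card

theorem ndX_iff {ι : Type} [Fintype ι] {M : ℕ} {J3 J1 : Finset ι} {S₀ : Finset ℕ}
    {m : Fin M → Finset ℕ} {p : ι → ℕ} (L R : ℕ)
    (hp : Function.Injective p) (hJ : ∀ i, p i % 4 = 1 ↔ i ∉ J3) (hJ1 : ∀ i, i ∈ J1 ↔ i ∉ J3) :
    NdX L R m S₀ (univ.image p) ↔ LX L R (S₀ ∪ Wm m) m J3 J1 (fun i => lb (S₀ ∪ Wm m) (p i)) := by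
  unfold NdX LX
  have hmW : ∀ i, m i ⊆ Wm m := fun i => Finset.subset_biUnion_of_mem m (Finset.mem_univ i)
  have h3 : ∀ i j,
      ((univ.image p).filter fun q => q % 4 = 1 ∧
        ∑ u ∈ symmDiff (m i) (m j), nr q u ≠ 0).card =
      (J1.filter fun k => ∑ u ∈ pt (S₀ ∪ Wm m) (symmDiff (m i) (m j)),
        (lb (S₀ ∪ Wm m) (p k)).2 u ≠ 0).card := by
    intro i j
    have hs : symmDiff (m i) (m j) ⊆ S₀ ∪ Wm m := by
      intro x hx
      rw [Finset.mem_symmDiff] at hx
      rw [Finset.mem_union]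
      rcases hx with hx | hx
      · exact Or.inr (hmW i hx.1)
      · exact Or.inr (hmW j hx.1)
    have h4 : (univ.image p).filter (fun q => q % 4 = 1 ∧
        ∑ u ∈ symmDiff (m i) (m j), nr q u ≠ 0) =
        (J1.filter fun k => ∑ u ∈ pt (S₀ ∪ Wm m) (symmDiff (m i) (m j)),
        (lb (S₀ ∪ Wm m) (p k)).2 u ≠ 0).image p := by
      ext q
      simp only [Finset.mem_filter, Finset.mem_image, Finset.mem_univ, true_and]
      constructor
      · rintro ⟨⟨k, rfl⟩, h5, h6⟩
        refine ⟨k, ⟨(hJ1 k).2 ((hJ k).1 h5), ?_⟩, rfl⟩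
        rw [sum_pt hs] at h6
        exact h6
      · rintro ⟨k, ⟨hk, h6⟩, rfl⟩
        refine ⟨⟨k, rfl⟩, (hJ k).2 ((hJ1 k).1 hk), ?_⟩
        rw [sum_pt hs]
        exact h6
    rw [h4, Finset.card_image_of_injective _ hp]
  rw [nd_iff hJ]
  refine and_congr_right fun _ => ?_
  constructor
  · intro h i j hij
    rw [← h3 i j]
    exact h i j hij
  · intro h i j hij
    rw [h3 i j]
    exact h i j hij

/-- the parity -/
theorem par_eq {S₁ T : Finset ℕ} (hT : T ⊆ S₁) :
    ∑ u ∈ pt S₁ T, b4 (u : ℕ) = (((T.filter fun u => u % 4 = 3).card : ℕ) : ZMod 2) := by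
  rw [← sum_pt hT b4, Finset.card_filter]
  push_cast
  rfl

end Pool.Agent.NH4.XJ.BX

namespace Pool.Agent.NH4.XJ

open Finset
open Pool.Agent.Y703.CQ (nr sg prs HB S_EQ S_MER)
open Pool.Agent.NH5.PR (eta ex2)
open Pool.Agent.NH4.PJ (law LawP Wm nkM)
open Pool.Agent.NH3.XD (Nd)
open Pool.Agent.NH3.XD.BX (Lb lb LN b4 two_self recip nd_iff dt bJ_eq HB_sub odd_cases)
open Pool.Agent.NH4.PJ.BX (pt mem_pt sum_pt add_pt sd_un)
open BX

/-- **The joint count in a box.** -/
theorem t_XJBOX : S_XJBOX := by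
  intro hEQ hLAJ hSYS _ M rr ε hε
  obtain ⟨L, R₀, hLA⟩ := hLAJ M rr ε hε
  refine ⟨L, R₀, ?_⟩
  intro ι _ _ J3 C X κ S₀ mk hκ hCX hHB hS₁ hdW hC hdis hpar hLR
  have hJ3pos : 0 < J3.card := by omega
  obtain ⟨i₀, hi₀⟩ := Finset.card_pos.1 hJ3pos
  set S₁ := S₀ ∪ Wm mk with hS₁d
  set ℓ : ℝ := ∏ a, law 0 (rr a) with hℓ
  set R : ℝ := 2 ^ (prs (univ : Finset ι)).card * (κ * ∏ j, (X j : ℝ)) with hR
  have hR0 : 0 ≤ R := mul_nonneg (by positivity)
    (mul_nonneg hκ (Finset.prod_nonneg fun j _ => by positivity))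
  set J1 : Finset ι := univ.filter fun i => i ∉ J3 with hJ1
  have hJ1' : ∀ i, i ∈ J1 ↔ i ∉ J3 := fun i => by rw [hJ1, Finset.mem_filter]; simp
  have hmW : ∀ a, mk a ⊆ Wm mk := fun a => Finset.subset_biUnion_of_mem mk (Finset.mem_univ a)
  have hmS : ∀ a, S₀ ∪ mk a ⊆ S₁ := fun a => Finset.union_subset_union_right (hmW a)
  -- facts on tuples
  have hinj : ∀ p ∈ Fintype.piFinset C, Function.Injective p := by
    intro p hp i j hij
    rw [Fintype.mem_piFinset] at hp
    by_contra hne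
    have h1 := Finset.disjoint_left.1 (hdis i j hne) (hp i)
    rw [hij] at h1
    exact h1 (hp j)
  have hJ3 : ∀ p ∈ Fintype.piFinset C, ∀ i, i ∈ J3 ↔ p i % 4 = 3 := by
    intro p hp i
    rw [Fintype.mem_piFinset] at hp
    exact (hC i _ (hp i)).2.2.2
  have hd : ∀ p ∈ Fintype.piFinset C, ∀ i, p i ∉ S₁ := by
    intro p hp i
    rw [Fintype.mem_piFinset] at hp
    exact (hC i _ (hp i)).2.2.1
  have hpr : ∀ p ∈ Fintype.piFinset C, ∀ i, (p i).Prime ∧ p i ≠ 2 := by
    intro p hp i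
    rw [Fintype.mem_piFinset] at hp
    exact ⟨(hC i _ (hp i)).1, (hC i _ (hp i)).2.1⟩
  have hJ : ∀ p ∈ Fintype.piFinset C, ∀ i, p i % 4 = 1 ↔ i ∉ J3 := by
    intro p hp i
    rw [hJ3 p hp i]
    have := odd_cases (hpr p hp i).1 (hpr p hp i).2
    omega
  -- the part with given labels
  have h1 : ∀ β : ι → Lb S₁, LX L R₀ S₁ mk J3 J1 β →
      |(((Fintype.piFinset C).filter fun p => (fun i => lb S₁ (p i)) = β ∧
          Ev mk rr (S₀ ∪ univ.image p)).card : ℝ) -
        ℓ * (((Fintype.piFinset C).filter fun p => (fun i => lb S₁ (p i)) = β).card : ℝ)| ≤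
      ε * (((Fintype.piFinset C).filter fun p => (fun i => lb S₁ (p i)) = β).card : ℝ) + R := by
    intro β hβ
    by_cases hemp : ((Fintype.piFinset C).filter fun p => (fun i => lb S₁ (p i)) = β) = ∅
    · have he2 : ((Fintype.piFinset C).filter fun p => (fun i => lb S₁ (p i)) = β ∧
          Ev mk rr (S₀ ∪ univ.image p)) = ∅ := by
        rw [← Finset.filter_filter, hemp, Finset.filter_empty]
      rw [he2, hemp]
      simpa using hR0
    obtain ⟨p₀, hp₀⟩ := Finset.nonempty_iff_ne_empty.2 hemp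
    rw [Finset.mem_filter] at hp₀
    obtain ⟨hp₀, hp₀β⟩ := hp₀
    set C' : ι → Finset ℕ := fun i => (C i).filter fun q => lb S₁ q = β i with hC'
    have hpi : (Fintype.piFinset C).filter (fun p => (fun i => lb S₁ (p i)) = β) =
        Fintype.piFinset C' := by
      ext p
      simp only [Finset.mem_filter, Fintype.mem_piFinset, hC']
      constructor
      · rintro ⟨h2, h3⟩ i
        exact ⟨h2 i, congrFun h3 i⟩
      · intro h2
        exact ⟨fun i => (h2 i).1, funext fun i => (h2 i).2⟩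
    have hgood : GoodJ (dt S₁ J3 β) (fun a => pt S₁ (S₀ ∪ mk a)) := by
      refine ⟨?_, ?_, ?_, ?_⟩
      · intro u v huv
        exact recip (hS₁ u u.2).1 (hS₁ u u.2).2 (hS₁ v v.2).1 (hS₁ v v.2).2
          fun h => huv (Subtype.ext h)
      · intro u l
        rw [← hp₀β, bJ_eq (hJ3 p₀ hp₀)]
        show nr u (p₀ l) + nr (p₀ l) u = b4 u * b4 (p₀ l)
        exact recip (hS₁ u u.2).1 (hS₁ u u.2).2 (hpr p₀ hp₀ l).1 (hpr p₀ hp₀ l).2
          fun h => hd p₀ hp₀ l (by rw [← h]; exact u.2)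
      · intro a
        show ∑ u ∈ pt S₁ (S₀ ∪ mk a), b4 u + ∑ l : ι, (if l ∈ J3 then (1 : ZMod 2) else 0) = 1
        rw [par_eq (hmS a), Finset.sum_ite_mem, Finset.univ_inter, Finset.sum_const,
          nsmul_eq_mul, mul_one, ← Nat.cast_add]
        rw [ZMod.natCast_eq_one_iff_odd]
        exact Nat.odd_iff.2 (hpar a)
      · intro w hw
        obtain ⟨k, hk, hk2⟩ := hβ.1 w hw
        exact ⟨k, if_neg hk, hk2⟩
    have hc3 : (univ.filter fun l => (dt S₁ J3 β).bJ l = 1).card = J3.card := by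
      have : (univ.filter fun l => (dt S₁ J3 β).bJ l = 1) = J3 := by
        ext l
        rw [Finset.mem_filter]
        show l ∈ univ ∧ (if l ∈ J3 then (1 : ZMod 2) else 0) = 1 ↔ l ∈ J3
        by_cases h : l ∈ J3
        · simp [h]
        · simp [h]
      rw [this]
    have h2 := hLA S₁ ι (dt S₁ J3 β) (fun a => pt S₁ (S₀ ∪ mk a)) i₀ hgood (if_pos hi₀)
      (by
        rw [hc3, Fintype.card_coe]
        omega)
      (by
        intro a b hab
        rw [Fintype.card_coe]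
        refine (hβ.2 a b hab).trans (Finset.card_le_card ?_)
        intro k hk
        rw [Finset.mem_filter] at hk
        rw [Finset.mem_filter]
        refine ⟨Finset.mem_univ _, if_neg ((hJ1' k).1 hk.1), ?_⟩
        show ∑ u ∈ pt S₁ (S₀ ∪ mk a), (β k).2 u + ∑ u ∈ pt S₁ (S₀ ∪ mk b), (β k).2 u ≠ 0
        rw [add_pt (fun u => (β k).2 u), sd_un hdW (hmW a) (hmW b)]
        exact hk.2)
    obtain ⟨Q, hQ⟩ : ∃ Q : (prs (univ : Finset ι) → ZMod 2) → Prop, ∀ α, Q α ↔ ∀ a,
      nkM (toP (dt S₁ J3 β) i₀) (pt S₁ (S₀ ∪ mk a)) α = 2 ^ rr a := ⟨_, fun _ => Iff.rfl⟩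
    have h3 := hEQ ι univ C' X κ hκ
      (fun i => (Finset.card_le_card (Finset.filter_subset _ _)).trans (hCX i))
      (HB_sub hHB fun i q => lb S₁ q = β i) (fun α => Q (α + sh J3))
    rw [card_sh] at h3
    have h4 : ((Fintype.piFinset C).filter fun p => (fun i => lb S₁ (p i)) = β ∧
        Ev mk rr (S₀ ∪ univ.image p)) = ((Fintype.piFinset C').filter fun p =>
          Q ((fun e => nr (p e.1.1) (p e.1.2)) + sh J3)) := by
      rw [← hpi, Finset.filter_filter]
      refine Finset.filter_congr fun p hp => ?_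
      refine and_congr_right fun hl => ?_
      rw [hQ, ← sh_eq (hinj p hp) (hpr p hp) (hJ3 p hp)]
      unfold Ev
      refine forall_congr' fun a => ?_
      have h1 : S₀ ∪ univ.image p ∪ mk a = (S₀ ∪ mk a) ∪ univ.image p := by
        rw [Finset.union_assoc, Finset.union_comm (univ.image p), ← Finset.union_assoc]
      rw [h1, nx_eq (hmS a) (hinj p hp) (hpr p hp) (hd p hp) (hJ3 p hp)]
      have h5 : nA (dt S₁ J3 fun i => lb S₁ (p i)) (pt S₁ (S₀ ∪ mk a))
          (fun e : prs (univ : Finset ι) => nr (p e.1.2) (p e.1.1)) =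
          2 * nkM (toP (dt S₁ J3 β) i₀) (pt S₁ (S₀ ∪ mk a))
            (fun e : prs (univ : Finset ι) => nr (p e.1.2) (p e.1.1)) := by
        rw [hl]
        exact hSYS S₁ ι M (dt S₁ J3 β) (fun a => pt S₁ (S₀ ∪ mk a)) hgood i₀ a _
      rw [h5, pow_succ]
      constructor
      · intro h6
        omega
      · intro h6
        omega
    have h5 : (((Fintype.piFinset C').card : ℕ) : ℝ) = ∏ j, ((C' j).card : ℝ) := by
      rw [Fintype.card_piFinset]
      push_cast
      rfl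
    rw [h4, hpi, h5]
    have h2' : |((univ.filter Q).card : ℝ) / 2 ^ (prs (univ : Finset ι)).card - ℓ| ≤ ε := by
      rw [Finset.filter_congr fun α _ => hQ α]
      exact h2
    set n : ℝ := (((Fintype.piFinset C').filter fun p =>
          Q ((fun e => nr (p e.1.1) (p e.1.2)) + sh J3)).card : ℝ) with hn
    set q : ℝ := ((univ.filter Q).card : ℝ) / 2 ^ (prs (univ : Finset ι)).card with hq
    set P : ℝ := ∏ j, ((C' j).card : ℝ) with hP
    have hP0 : 0 ≤ P := Finset.prod_nonneg fun j _ => by positivity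
    have h6 : |n - ℓ * P| ≤ |n - q * P| + |q - ℓ| * P := by
      have h7 : n - ℓ * P = (n - q * P) + (q - ℓ) * P := by ring
      have h8 : |(q - ℓ) * P| = |q - ℓ| * P := by rw [abs_mul, abs_of_nonneg hP0]
      rw [h7, ← h8]
      exact abs_add_le _ _
    have h7 : |q - ℓ| * P ≤ ε * P := mul_le_mul_of_nonneg_right h2' hP0
    have h8 : |n - q * P| ≤ R := h3
    linarith
  -- sum over the labels
  set LL := univ.filter (fun β : ι → Lb S₁ => LX L R₀ S₁ mk J3 J1 β) with hLL
  have hfib : ∀ T : (ι → ℕ) → Prop,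
      (((Fintype.piFinset C).filter fun p => NdX L R₀ mk S₀ (univ.image p) ∧ T p).card : ℝ) =
      ∑ β ∈ LL, (((Fintype.piFinset C).filter fun p =>
        (fun i => lb S₁ (p i)) = β ∧ T p).card : ℝ) := by
    intro T
    rw [Finset.card_eq_sum_card_fiberwise (f := fun (p : ι → ℕ) (i : ι) => lb S₁ (p i))
      (t := LL) (by
        intro p hp
        rw [Finset.mem_coe, Finset.mem_filter] at hp
        rw [Finset.mem_coe, hLL, Finset.mem_filter]
        exact ⟨Finset.mem_univ _, (ndX_iff L R₀ (hinj p hp.1) (hJ p hp.1) hJ1').1 hp.2.1⟩)]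
    push_cast
    refine Finset.sum_congr rfl fun β hβ => ?_
    rw [hLL, Finset.mem_filter] at hβ
    congr 2
    ext p
    simp only [Finset.mem_filter]
    constructor
    · rintro ⟨⟨h3, h4, h4'⟩, h5⟩
      exact ⟨h3, h5, h4'⟩
    · rintro ⟨h3, h4, h5⟩
      refine ⟨⟨h3, ?_, h5⟩, h4⟩
      refine (ndX_iff L R₀ (hinj p h3) (hJ p h3) hJ1').2 ?_
      rw [← hS₁d, h4]
      exact hβ.2
  have hf1 := hfib fun p => Ev mk rr (S₀ ∪ univ.image p)
  have hf2 := hfib fun _ => True
  simp only [and_true] at hf2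
  rw [hf1, hf2, Finset.mul_sum, ← Finset.sum_sub_distrib]
  refine (Finset.abs_sum_le_sum_abs _ _).trans ?_
  refine (Finset.sum_le_sum fun β hβ => h1 β (Finset.mem_filter.1 hβ).2).trans ?_
  rw [Finset.sum_add_distrib, ← Finset.mul_sum, Finset.sum_const, nsmul_eq_mul]
  have h5 : ((LL.card : ℕ) : ℝ) ≤ 2 ^ ((2 * S₁.card + 1) * Fintype.card ι) := by
    have h6 : LL.card ≤ Fintype.card (ι → Lb S₁) := Finset.card_le_univ _
    rw [Fintype.card_fun, Fintype.card_prod, Fintype.card_fun, ZMod.card,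
      Fintype.card_coe, ← pow_add, ← pow_mul] at h6
    have h7 : 2 ^ ((S₁.card + S₁.card) * Fintype.card ι) ≤
        2 ^ ((2 * S₁.card + 1) * Fintype.card ι) := by
      refine Nat.pow_le_pow_right (by norm_num) (Nat.mul_le_mul_right _ (by omega))
    exact_mod_cast h6.trans h7
  have h6 := mul_le_mul_of_nonneg_right h5 hR0
  rw [pow_add, mul_assoc]
  linarith

end Pool.Agent.NH4.XJ
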