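import Pool.Agent.NH4.XJ.Stm
import Pool.Agent.NH3.XD.LOW

/-!
# Project XJ: the lower bound for the size of the class, and the translation to numbers

`t_XJNS`: `N` and the set of the prime factors of `N`; `t_XJLOW`: the class has at least `X / (2 m)` members,
by removing the multiples of the squares of the odd numbers. The lemmas are those of
`Pool/Agent/NH3/XD/LOW.lean`; the residue `r` modulo `4` plays no role.
-/

set_option autoImplicit false

open scoped Classical

namespace Pool.Agent.NH4.XJ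

open Finset
open Pool.Agent.NH3.XD (SS LowX.not_dvd LowX.card_eq LowX.card_class LowX.card_sq LowX.sum_odd)

namespace LowJ

/-- the numbers of the class which are not squarefree -/
theorem card_bad {m r : ℕ} (h4m : 4 ∣ m) (hc : Nat.Coprime r m) (X : ℕ) :
    (((Icc 1 X).filter fun N => N % m = r ∧ ¬ Squarefree N).card : ℝ) ≤
      (X : ℝ) / m * (1 / 4) + Nat.sqrt X := by
  have hsub : ((Icc 1 X).filter fun N => N % m = r ∧ ¬ Squarefree N) ⊆
      ((range (Nat.sqrt X)).filter fun j => Nat.Coprime (2 * j + 3) m).biUnion fun j =>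
        (Icc 1 X).filter fun N => N % m = r ∧ (2 * j + 3) * (2 * j + 3) ∣ N := by
    intro N hN
    obtain ⟨h1, h2, h3⟩ := Finset.mem_filter.1 hN
    rw [Nat.squarefree_iff_prime_squarefree] at h3
    push Not at h3
    obtain ⟨p, hp, hpp⟩ := h3
    have h4 : ¬ p ∣ m := LowX.not_dvd hc h2 hp (dvd_trans (Dvd.intro _ rfl) hpp)
    have h5 : p ≠ 2 := by
      rintro rfl
      exact h4 (dvd_trans (by norm_num) h4m)
    have h6 : p % 2 = 1 := (hp.eq_two_or_odd).resolve_left h5
    have h7 := hp.two_le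
    have h8 : p * p ≤ X := by
      have := Nat.le_of_dvd (by have := (Finset.mem_Icc.1 h1).1; omega) hpp
      exact this.trans (Finset.mem_Icc.1 h1).2
    have h9 : p ≤ Nat.sqrt X := Nat.le_sqrt.2 h8
    obtain ⟨j, hj⟩ : ∃ j, p = 2 * j + 3 := ⟨(p - 3) / 2, by omega⟩
    refine Finset.mem_biUnion.2 ⟨j, Finset.mem_filter.2 ⟨Finset.mem_range.2 (by omega), ?_⟩,
      Finset.mem_filter.2 ⟨h1, h2, ?_⟩⟩
    · rw [← hj]
      exact (Nat.Prime.coprime_iff_not_dvd hp).2 h4
    · rw [← hj]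
      exact hpp
  have h1 := (Finset.card_le_card hsub).trans Finset.card_biUnion_le
  have h2 : ∑ j ∈ (range (Nat.sqrt X)).filter (fun j => Nat.Coprime (2 * j + 3) m),
      ((Icc 1 X).filter fun N => N % m = r ∧ (2 * j + 3) * (2 * j + 3) ∣ N).card ≤
      ∑ j ∈ range (Nat.sqrt X), (X / (m * ((2 * j + 3) * (2 * j + 3))) + 1) := by
    refine (Finset.sum_le_sum fun j hj => LowX.card_sq (Finset.mem_filter.1 hj).2 X).trans ?_
    exact Finset.sum_le_sum_of_subset (Finset.filter_subset _ _)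
  have h3 : (((Icc 1 X).filter fun N => N % m = r ∧ ¬ Squarefree N).card : ℝ) ≤
      ∑ j ∈ range (Nat.sqrt X), (((X / (m * ((2 * j + 3) * (2 * j + 3))) : ℕ) : ℝ) + 1) := by
    have := h1.trans h2
    exact_mod_cast this
  refine h3.trans ?_
  rw [Finset.sum_add_distrib, Finset.sum_const, Finset.card_range, nsmul_eq_mul, mul_one]
  have h4 : ∑ j ∈ range (Nat.sqrt X), ((X / (m * ((2 * j + 3) * (2 * j + 3))) : ℕ) : ℝ) ≤
      ∑ j ∈ range (Nat.sqrt X), (X : ℝ) / m * ((1 : ℝ) / (((2 * j + 3) * (2 * j + 3) : ℕ) : ℝ)) := by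
    refine Finset.sum_le_sum fun j _ => ?_
    refine Nat.cast_div_le.trans (le_of_eq ?_)
    rw [Nat.cast_mul, ← div_div]
    ring
  rw [← Finset.mul_sum] at h4
  have h5 := LowX.sum_odd (Nat.sqrt X)
  have h6 : (X : ℝ) / m * ∑ j ∈ range (Nat.sqrt X), ((1 : ℝ) / (((2 * j + 3) * (2 * j + 3) : ℕ) : ℝ)) ≤
      (X : ℝ) / m * (1 / 4) := by
    refine mul_le_mul_of_nonneg_left (h5.trans ?_) (by positivity)
    have : 0 < 1 / ((Nat.sqrt X : ℝ) + 1) := by positivity
    linarith
  linarith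

end LowJ

theorem t_XJNS : S_XJNS := by
  intro hdq M m r mk rr hOk hM
  refine (hdq M m r mk rr hOk hM).congr fun X => ?_
  have e1 := LowX.card_eq m r hOk.2.2.2 X (Ev mk rr)
  have e2 := LowX.card_eq m r hOk.2.2.2 X (fun _ => True)
  rw [Finset.filter_true] at e2
  simp only [and_true] at e2
  rw [← e1, ← e2]

theorem t_XJLOW : S_XJLOW := by
  intro m r hOk
  obtain ⟨hm, h4m, hr, hc⟩ := hOk
  have hr0 : 0 < r := by
    rcases Nat.eq_zero_or_pos r with h | h
    · exfalso
      rw [h, Nat.coprime_zero_left] at hc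
      rw [hc] at h4m
      omega
    · exact h
  have hm' : (0 : ℝ) < m := by exact_mod_cast hm
  refine ⟨1 / (2 * m), (8 * m) * (8 * m), by positivity, fun X hX => ?_⟩
  have e2 := LowX.card_eq m r hc X (fun _ => True)
  rw [Finset.filter_true] at e2
  simp only [and_true] at e2
  rw [← e2]
  have h1 := LowX.card_class hm hr0 hr X
  have h2 := LowJ.card_bad h4m hc X
  have h3 : ((Icc 1 X).filter fun N => N % m = r) ⊆
      ((Icc 1 X).filter fun N => Squarefree N ∧ N % m = r) ∪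
        ((Icc 1 X).filter fun N => N % m = r ∧ ¬ Squarefree N) := by
    intro N hN
    obtain ⟨h4, h5⟩ := Finset.mem_filter.1 hN
    by_cases h6 : Squarefree N
    · exact Finset.mem_union_left _ (Finset.mem_filter.2 ⟨h4, h6, h5⟩)
    · exact Finset.mem_union_right _ (Finset.mem_filter.2 ⟨h4, h5, h6⟩)
  have h4 := (Finset.card_le_card h3).trans (Finset.card_union_le _ _)
  have h5 : ((X / m : ℕ) : ℝ) ≤
      (((Icc 1 X).filter fun N => Squarefree N ∧ N % m = r).card : ℝ) +
        (((Icc 1 X).filter fun N => N % m = r ∧ ¬ Squarefree N).card : ℝ) := by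
    exact_mod_cast h1.trans h4
  have h6 : (X : ℝ) / m - 1 ≤ ((X / m : ℕ) : ℝ) := by
    have h7 : (X : ℝ) / m < ((X / m : ℕ) : ℝ) + 1 := by
      rw [div_lt_iff₀ hm']
      have h8 : X < (X / m + 1) * m := by
        exact Nat.lt_mul_of_div_lt (Nat.lt_succ_self _) hm
      exact_mod_cast h8
    linarith
  have h8 : 8 * m ≤ Nat.sqrt X := Nat.le_sqrt.2 hX
  have h9 : Nat.sqrt X * Nat.sqrt X ≤ X := Nat.sqrt_le X
  have h10 : (8 * m : ℝ) ≤ (Nat.sqrt X : ℝ) := by exact_mod_cast h8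
  have h11 : (Nat.sqrt X : ℝ) * (Nat.sqrt X : ℝ) ≤ (X : ℝ) := by exact_mod_cast h9
  have hm1 : (1 : ℝ) ≤ m := by exact_mod_cast hm
  have h12 : 2 * (Nat.sqrt X : ℝ) ≤ (X : ℝ) / m * (1 / 4) := by
    have : 2 * (Nat.sqrt X : ℝ) * (4 * m) ≤ X := by nlinarith
    rw [div_mul_eq_mul_div, le_div_iff₀ hm']
    linarith
  have h13 : 1 / (2 * m) * (X : ℝ) = (X : ℝ) / m * (1 / 2) := by
    field_simp
  rw [h13]
  nlinarith

end Pool.Agent.NH4.XJ
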