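import Pool.Agent.NH4.XJ.Stm
import Pool.Agent.NH4.PJ.M1

/-!
# Project XJ, job XV-J2: `S_XPRB`
-/

set_option autoImplicit false
set_option linter.unusedSectionVars false

open scoped Classical

namespace Pool.Agent.NH4.XJ

open Finset
open Pool.Agent.Y703.CQ (prs)
open Pool.Agent.NH5.PR (ex2)
open Pool.Agent.NH4.PJ (Dep rs)
open Pool.Agent.NH4.PJ.M1

namespace PRB

section alt

variable {S : Type} [Fintype S] [LinearOrder S]

/-- the pairs -/
abbrev Pr (S : Type) [Fintype S] [LinearOrder S] : Type := {p : S × S // p.1 < p.2}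

/-- the alternating matrix with the given entries above the diagonal -/
noncomputable def Be (e : Pr S → ZMod 2) (s t : S) : ZMod 2 :=
  ∑ p : Pr S, e p * ((if (p : S × S) = (s, t) then 1 else 0) +
    (if (p : S × S) = (t, s) then 1 else 0))

theorem Be_symm (e : Pr S → ZMod 2) (s t : S) : Be e s t = Be e t s := by
  unfold Be
  exact sum_congr rfl fun p _ => by rw [add_comm]

theorem Be_diag (e : Pr S → ZMod 2) (s : S) : Be e s s = 0 := by
  unfold Be
  refine sum_eq_zero fun p _ => ?_
  have h : ∀ a : ZMod 2, a + a = 0 := by decide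
  rw [h, mul_zero]

theorem Be_lt (e : Pr S → ZMod 2) (p : Pr S) : Be e p.1.1 p.1.2 = e p := by
  unfold Be
  rw [Finset.sum_eq_single p]
  · have h : ¬ (p : S × S) = (p.1.2, p.1.1) := by
      intro h
      have h1 := congrArg Prod.fst h
      have h2 := p.2
      simp only at h1
      rw [h1] at h2
      exact absurd h2 (lt_irrefl _)
    rw [if_pos rfl, if_neg h, add_zero, mul_one]
  · intro q _ hq
    have h1 : ¬ (q : S × S) = (p.1.1, p.1.2) := fun h => hq (Subtype.ext h)
    have h2 : ¬ (q : S × S) = (p.1.2, p.1.1) := by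
      intro h
      have h3 := q.2
      rw [h] at h3
      exact absurd (lt_trans h3 p.2) (lt_irrefl _)
    rw [if_neg h1, if_neg h2, add_zero, mul_zero]
  · intro h
    exact absurd (mem_univ _) h

theorem Be_of (B : S → S → ZMod 2) (hs : ∀ s t, B s t = B t s) (hd : ∀ s, B s s = 0) (s t : S) :
    Be (fun p => B p.1.1 p.1.2) s t = B s t := by
  rcases lt_trichotomy s t with h | h | h
  · exact Be_lt (fun p : Pr S => B p.1.1 p.1.2) ⟨(s, t), h⟩
  · rw [h, Be_diag, hd]
  · rw [Be_symm, hs]
    exact Be_lt (fun p : Pr S => B p.1.1 p.1.2) ⟨(t, s), h⟩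

theorem sum_one (q : S × S) (Q : S → S → ZMod 2) :
    ∑ s, ∑ t, (if q = (s, t) then 1 else 0) * Q s t = Q q.1 q.2 := by
  rw [← Fintype.sum_prod_type' (f := fun s t => (if q = (s, t) then 1 else 0) * Q s t)]
  rw [Finset.sum_eq_single q]
  · rw [if_pos rfl, one_mul]
  · intro x _ hx
    rw [if_neg (fun h => hx h.symm), zero_mul]
  · intro h
    exact absurd (mem_univ _) h

theorem sum_Be (e : Pr S → ZMod 2) (Q : S → S → ZMod 2) :
    ∑ s, ∑ t, Be e s t * Q s t = ∑ p : Pr S, e p * (Q p.1.1 p.1.2 + Q p.1.2 p.1.1) := by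
  unfold Be
  have h1 : ∀ s t : S, (∑ p : Pr S, e p * ((if (p : S × S) = (s, t) then 1 else 0) +
      (if (p : S × S) = (t, s) then 1 else 0))) * Q s t =
      ∑ p : Pr S, e p * (((if (p : S × S) = (s, t) then 1 else 0) * Q s t) +
      ((if (p : S × S) = (t, s) then 1 else 0) * Q s t)) := by
    intro s t
    rw [Finset.sum_mul]
    exact sum_congr rfl fun p _ => by ring
  simp_rw [h1]
  have h2 : ∀ s : S, ∑ t, ∑ p : Pr S, e p * (((if (p : S × S) = (s, t) then 1 else 0) * Q s t) +
      ((if (p : S × S) = (t, s) then 1 else 0) * Q s t)) =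
      ∑ p : Pr S, ∑ t, e p * (((if (p : S × S) = (s, t) then 1 else 0) * Q s t) +
      ((if (p : S × S) = (t, s) then 1 else 0) * Q s t)) := fun s => Finset.sum_comm
  simp_rw [h2]
  rw [Finset.sum_comm]
  refine sum_congr rfl fun p _ => ?_
  simp_rw [← Finset.mul_sum, Finset.sum_add_distrib]
  rw [sum_one]
  congr 2
  rw [Finset.sum_comm]
  exact sum_one (p : S × S) (fun s t => Q t s)

/-- alternating forms vanish on the diagonal -/
theorem quad_zero (e : Pr S → ZMod 2) (w : S → ZMod 2) :
    ∑ s, ∑ t, Be e s t * (w s * w t) = 0 := by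
  rw [sum_Be]
  refine sum_eq_zero fun p _ => ?_
  have h : ∀ a b c : ZMod 2, a * (b * c + c * b) = 0 := by decide
  exact h _ _ _

end alt

section main

variable {J S : Type} [Fintype J] [LinearOrder J] [Fintype S] [LinearOrder S]

/-- a vector orthogonal to a spanning family is zero -/
theorem orth {y : J → S → ZMod 2} (hy : rs y Set.univ = ⊤) (w : S → ZMod 2)
    (h : ∀ k, ∑ s, w s * y k s = 0) : w = 0 := by
  have h1 : ∀ z : S → ZMod 2, ∑ s, w s * z s = 0 := by
    intro z
    have hz : z ∈ rs y Set.univ := by rw [hy]; trivial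
    unfold rs at hz
    refine Submodule.span_induction ?_ ?_ ?_ ?_ hz
    · rintro _ ⟨k, -, rfl⟩
      exact h k
    · simp
    · intro a b _ _ ha hb
      simp only [Pi.add_apply, mul_add, Finset.sum_add_distrib, ha, hb, add_zero]
    · intro c a _ ha
      simp only [Pi.smul_apply, smul_eq_mul]
      rw [show ∑ s, w s * (c * a s) = c * ∑ s, w s * a s by
        rw [Finset.mul_sum]; exact sum_congr rfl fun s _ => by ring, ha, mul_zero]
  funext s
  have h2 := h1 (Pi.single s 1)
  simpa [Pi.single_apply] using h2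

/-- the coefficients of the standard basis -/
theorem coef {y : J → S → ZMod 2} (hy : rs y Set.univ = ⊤) :
    ∃ a : S → J → ZMod 2, ∀ t s, ∑ k, a t k * y k s = if s = t then 1 else 0 := by
  have h1 : ∀ t : S, ∃ a : J → ZMod 2, ∑ k, a k • y k = Pi.single t 1 := by
    intro t
    have hz : (Pi.single t 1 : S → ZMod 2) ∈ rs y Set.univ := by rw [hy]; trivial
    unfold rs at hz
    rw [Set.image_univ] at hz
    exact (Submodule.mem_span_range_iff_exists_fun (ZMod 2)).mp hz
  choose a ha using h1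
  refine ⟨a, fun t s => ?_⟩
  have h2 := congrFun (ha t) s
  rw [Finset.sum_apply] at h2
  simp only [Pi.smul_apply, smul_eq_mul] at h2
  rw [h2, Pi.single_apply]

/-- the dependency of an alternating matrix -/
noncomputable def ce (y : J → S → ZMod 2) (e : Pr S → ZMod 2) (k : J) (s : S) : ZMod 2 :=
  ∑ t, Be e s t * y k t

theorem ce_dep (i : J) {y : J → S → ZMod 2} (hi : y i = 0) (e : Pr S → ZMod 2) :
    Dep (univ.erase i) y (ce y e) := by
  refine ⟨?_, ?_, ?_⟩
  · intro k hk
    have hki : k = i := by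
      by_contra h
      exact hk (mem_erase.mpr ⟨h, mem_univ _⟩)
    funext s
    unfold ce
    rw [hki, hi]
    simp
  · intro k
    unfold ce
    rw [← quad_zero e (y k)]
    refine sum_congr rfl fun s _ => ?_
    rw [Finset.sum_mul]
    exact sum_congr rfl fun t _ => by ring
  · intro k l
    unfold ce
    simp_rw [Finset.sum_mul]
    rw [Finset.sum_comm]
    refine sum_congr rfl fun s _ => sum_congr rfl fun t _ => ?_
    rw [Be_symm]
    ring

theorem ce_inj {y : J → S → ZMod 2} (hy : rs y Set.univ = ⊤) :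
    Function.Injective (ce y) := by
  intro e e' h
  have h1 : ∀ s, (fun t => Be e s t + Be e' s t) = 0 := by
    intro s
    refine orth hy _ fun k => ?_
    have h2 := congrFun (congrFun h k) s
    unfold ce at h2
    simp_rw [add_mul, Finset.sum_add_distrib]
    rw [h2]
    exact (by decide : ∀ a : ZMod 2, a + a = 0) _
  funext p
  have h3 := congrFun (h1 p.1.1) p.1.2
  simp only [Pi.zero_apply] at h3
  rw [Be_lt, Be_lt] at h3
  exact (by decide : ∀ a b : ZMod 2, a + b = 0 → a = b) _ _ h3

theorem ce_surj (i : J) {y : J → S → ZMod 2} (hy : rs y Set.univ = ⊤) (c : J → S → ZMod 2)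
    (hc : Dep (univ.erase i) y c) : ∃ e, ce y e = c := by
  obtain ⟨a, ha⟩ := coef hy
  obtain ⟨-, hd, hs⟩ := hc
  -- the matrix
  have hB0 : ∀ (w : S → ZMod 2) (s : S), ∑ m, a s m * ∑ t, w t * y m t = w s := by
    intro w s
    simp_rw [Finset.mul_sum]
    rw [Finset.sum_comm]
    have h1 : ∀ t, ∑ m, a s m * (w t * y m t) = w t * (if t = s then 1 else 0) := by
      intro t
      rw [← ha s t, Finset.mul_sum]
      exact sum_congr rfl fun m _ => by ring
    simp_rw [h1]
    simp
  let B : S → S → ZMod 2 := fun s t => ∑ m, a s m * c m t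
  have hBs : ∀ s t, B s t = ∑ m, ∑ n, a s m * (a t n * ∑ u, c m u * y n u) := by
    intro s t
    refine sum_congr rfl fun m _ => ?_
    rw [← Finset.mul_sum, hB0 (c m) t]
  have hsymm : ∀ s t, B s t = B t s := by
    intro s t
    rw [hBs, hBs, Finset.sum_comm]
    refine sum_congr rfl fun m _ => sum_congr rfl fun n _ => ?_
    rw [hs n m]
    ring
  have hdiag : ∀ s, B s s = 0 := by
    intro s
    rw [hBs]
    -- symmetric sum with zero diagonal
    have h1 : ∑ m, ∑ n, a s m * (a s n * ∑ u, c m u * y n u) =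
        ∑ x : J × J, a s x.1 * (a s x.2 * ∑ u, c x.1 u * y x.2 u) :=
      (Fintype.sum_prod_type' (f := fun m n => a s m * (a s n * ∑ u, c m u * y n u))).symm
    rw [h1]
    refine Finset.sum_involution (fun x _ => (x.2, x.1)) ?_ ?_ ?_ ?_
    · rintro ⟨m, n⟩ _
      simp only
      rw [hs n m]
      have h2 : ∀ p q r : ZMod 2, p * (q * r) + q * (p * r) = 0 := by decide
      exact h2 _ _ _
    · rintro ⟨m, n⟩ _ hne heq
      simp only [Prod.mk.injEq] at heq
      apply hne
      simp only
      rw [← heq.2, hd, mul_zero, mul_zero]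
    · intro x _
      exact mem_univ _
    · intro x _
      rfl
  refine ⟨fun p => B p.1.1 p.1.2, ?_⟩
  funext l s
  unfold ce
  simp_rw [Be_of B hsymm hdiag]
  -- `c_l(s) = ∑ m a s m <c_l, y_m>`
  rw [← hB0 (c l) s]
  simp_rw [hs l]
  have h3 : ∀ t, B s t * y l t = ∑ m, a s m * (c m t * y l t) := by
    intro t
    rw [Finset.sum_mul]
    exact sum_congr rfl fun m _ => by ring
  simp_rw [h3]
  rw [Finset.sum_comm]
  refine sum_congr rfl fun m _ => ?_
  rw [Finset.mul_sum]

/-- a dependency is a vector of the dual code -/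
theorem of_dep (i : J) {y : J → S → ZMod 2} (c : ↥(univ.erase i) × S → ZMod 2)
    (h : Dep (univ.erase i) y (cx (univ.erase i) c)) :
    (fun p : prs (univ : Finset J) => Bc (univ.erase i) y c p) = 0 := by
  funext p
  obtain ⟨-, hd, hs⟩ := h
  unfold Bc
  have h1 : ∑ s, (cx (univ.erase i) c p.1.2 s * (y p.1.1 s + y p.1.2 s) +
      cx (univ.erase i) c p.1.1 s * (y p.1.2 s + y p.1.1 s)) =
      (∑ s, cx (univ.erase i) c p.1.2 s * y p.1.1 s + ∑ s, cx (univ.erase i) c p.1.2 s * y p.1.2 s) +
      (∑ s, cx (univ.erase i) c p.1.1 s * y p.1.2 s +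
        ∑ s, cx (univ.erase i) c p.1.1 s * y p.1.1 s) := by
    rw [← Finset.sum_add_distrib, ← Finset.sum_add_distrib, ← Finset.sum_add_distrib]
    exact sum_congr rfl fun s _ => by ring
  rw [h1, hd, hd, hs p.1.2 p.1.1, add_zero]
  exact (by decide : ∀ a : ZMod 2, a + a = 0) _

/-- the restriction of the dependency of an alternating matrix -/
noncomputable def ge (i : J) (y : J → S → ZMod 2) (e : Pr S → ZMod 2) :
    ↥(univ.erase i) × S → ZMod 2 := fun x => ce y e x.1 x.2

theorem cx_ge (i : J) {y : J → S → ZMod 2} (hi : y i = 0) (e : Pr S → ZMod 2) :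
    cx (univ.erase i) (ge i y e) = ce y e := by
  funext k s
  unfold cx ge
  split_ifs with h
  · rfl
  · have h1 := (ce_dep i hi e).1 k h
    rw [h1]
    rfl

/-- the value of the constants at a dependency -/
theorem Ac_ge (i : J) (b : J → ZMod 2) {y : J → S → ZMod 2} (c0 : J → S → ZMod 2) (hi : y i = 0)
    (e : Pr S → ZMod 2) :
    Ac (univ.erase i) (fun k l => b k * b l) y c0 (ge i y e) =
      ∑ p : Pr S, e p * ((∑ k, (y k p.1.2 * c0 k p.1.1 + y k p.1.1 * c0 k p.1.2)) +
        (∑ k, b k * y k p.1.1) * (∑ k, b k * y k p.1.2) +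
        ∑ k, b k * (y k p.1.1 * y k p.1.2)) := by
  unfold Ac
  rw [cx_ge i hi]
  let Q : S → S → ZMod 2 := fun s t => ∑ k, y k t * (c0 k s + ∑ l, PJ.M1.tt (fun k l => b k * b l) k l *
    (y l s + y k s))
  have h1 : ∑ k, ∑ s, ce y e k s * (c0 k s + ∑ l, PJ.M1.tt (fun k l => b k * b l) k l *
      (y l s + y k s)) = ∑ s, ∑ t, Be e s t * Q s t := by
    rw [Finset.sum_comm]
    refine sum_congr rfl fun s _ => ?_
    simp only [Q, ce, Finset.mul_sum, Finset.sum_mul]
    rw [Finset.sum_comm]
    refine sum_congr rfl fun t _ => sum_congr rfl fun k _ => ?_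
    ring
  rw [h1, sum_Be]
  refine sum_congr rfl fun p _ => ?_
  congr 1
  obtain ⟨⟨s, t⟩, hp⟩ := p
  simp only [Q]
  have e1 : ∑ k, y k t * (c0 k s + ∑ l, PJ.M1.tt (fun k l => b k * b l) k l * (y l s + y k s)) +
      ∑ k, y k s * (c0 k t + ∑ l, PJ.M1.tt (fun k l => b k * b l) k l * (y l t + y k t)) =
      ∑ k, (y k t * c0 k s + y k s * c0 k t) +
      ∑ k, ∑ l, PJ.M1.tt (fun k l => b k * b l) k l * (y k t * y l s + y k s * y l t) := by
    rw [← Finset.sum_add_distrib, ← Finset.sum_add_distrib]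
    refine sum_congr rfl fun k _ => ?_
    have e2 : ∑ l, PJ.M1.tt (fun k l => b k * b l) k l * (y k t * y l s + y k s * y l t) =
        y k t * ∑ l, PJ.M1.tt (fun k l => b k * b l) k l * (y l s + y k s) +
        y k s * ∑ l, PJ.M1.tt (fun k l => b k * b l) k l * (y l t + y k t) := by
      rw [Finset.mul_sum, Finset.mul_sum, ← Finset.sum_add_distrib]
      refine sum_congr rfl fun l _ => ?_
      have e3 : ∀ q a b c d : ZMod 2, q * (a * c + b * d) =
          a * (q * (c + b)) + b * (q * (d + a)) := by decide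
      exact e3 _ _ _ _ _
    rw [e2]
    ring
  rw [e1, add_assoc]
  congr 1
  -- the quadratic part
  have e4 : (∑ k, b k * y k s) * (∑ k, b k * y k t) + ∑ k, b k * (y k s * y k t) =
      ∑ x : J × J, (b x.1 * y x.1 s * (b x.2 * y x.2 t) +
        if x.1 = x.2 then b x.1 * (y x.1 s * y x.1 t) else 0) := by
    rw [Finset.sum_add_distrib, Finset.sum_mul_sum, Fintype.sum_prod_type, Fintype.sum_prod_type]
    congr 1
    refine sum_congr rfl fun k _ => ?_
    simp
  have e5 : ∑ k, ∑ l, PJ.M1.tt (fun k l => b k * b l) k l * (y k t * y l s + y k s * y l t) =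
      ∑ x : J × J, (PJ.M1.tt (fun k l => b k * b l) x.1 x.2 * (y x.1 t * y x.2 s) +
        PJ.M1.tt (fun k l => b k * b l) x.1 x.2 * (y x.1 s * y x.2 t)) := by
    rw [Fintype.sum_prod_type]
    exact sum_congr rfl fun k _ => sum_congr rfl fun l _ => by ring
  rw [e4, e5, Finset.sum_add_distrib]
  have e6 : ∑ x : J × J, PJ.M1.tt (fun k l => b k * b l) x.1 x.2 * (y x.1 t * y x.2 s) =
      ∑ x : J × J, PJ.M1.tt (fun k l => b k * b l) x.2 x.1 * (y x.2 t * y x.1 s) := by
    refine Fintype.sum_equiv (Equiv.prodComm J J) _ _ fun x => ?_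
    rfl
  rw [e6, ← Finset.sum_add_distrib]
  refine sum_congr rfl fun x _ => ?_
  obtain ⟨k, l⟩ := x
  simp only [PJ.M1.tt]
  rcases lt_trichotomy k l with h | h | h
  · rw [if_neg h.not_gt, if_pos h, if_neg h.ne]
    ring
  · subst h
    rw [if_neg (lt_irrefl _), if_pos rfl]
    have e7 : ∀ q u v : ZMod 2, 0 * (v * u) + 0 * (u * v) = q * u * (q * v) + q * (u * v) := by
      decide
    exact e7 _ _ _
  · rw [if_pos h, if_neg h.not_gt, if_neg h.ne']
    ring

end main

end PRB

open PRB

theorem t_XPRB : S_XPRB := by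
  intro J S _ _ _ _ i b y c0 hi hy
  have hcount := count (univ.erase i) (fun k l => b k * b l) y c0
  have hl : ∃ l, l ∉ (univ.erase i : Finset J) ∧ y l = 0 := ⟨i, by simp, hi⟩
  have hcard : (univ.erase i : Finset J).card = Fintype.card J - 1 := by
    rw [card_erase_of_mem (mem_univ _), card_univ]
  rw [hcard] at hcount
  have hinj : Function.Injective (ge (S := S) i y) := by
    intro e e' h
    apply ce_inj hy
    rw [← cx_ge i hi, ← cx_ge i hi, h]
  have hcount' : ((univ.filter fun α : prs (univ : Finset J) → ZMod 2 => ∀ k ∈ univ.erase i, ∀ s,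
      c0 k s + ∑ l, ex2 (fun k l => b k * b l) α k l * (y l s + y k s) = 0).card : ℤ) *
      2 ^ ((Fintype.card J - 1) * Fintype.card S) =
      ∑ e : Pr S → ZMod 2, s2 (Ac (univ.erase i) (fun k l => b k * b l) y c0 (ge i y e)) *
        (2 : ℤ) ^ (prs (univ : Finset J)).card := by
    have hu : ∀ (T : Type) (i1 i2 : Fintype T), @univ T i1 = @univ T i2 := by
      intro T i1 i2
      rw [Subsingleton.elim i1 i2]
    refine hcount.trans ((Finset.sum_congr (s₂ := univ) (hu _ _ _) fun c _ => rfl).trans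
      (Eq.symm ?_))
    refine Fintype.sum_of_injective (M := ℤ) (ge (S := S) i y) hinj _ _ ?_ ?_
    · intro c hc
      rw [if_neg, mul_zero]
      intro hB
      apply hc
      obtain ⟨e, he⟩ := ce_surj i hy _ (dep_of (univ.erase i) y hl c hB)
      refine ⟨e, cx_inj _ ?_⟩
      rw [cx_ge i hi, he]
    · intro e
      rw [if_pos]
      apply of_dep
      rw [cx_ge i hi]
      exact ce_dep i hi e
  clear hcount
  rename' hcount' => hcount
  rw [← Finset.sum_mul] at hcount
  simp_rw [Ac_ge i b c0 hi] at hcount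
  rw [sum_s2 (fun p : Pr S => (∑ k, (y k p.1.2 * c0 k p.1.1 + y k p.1.1 * c0 k p.1.2)) +
        (∑ k, b k * y k p.1.1) * (∑ k, b k * y k p.1.2) +
        ∑ k, b k * (y k p.1.1 * y k p.1.2))] at hcount
  have hP : Fintype.card (Pr S) = (univ.filter fun p : S × S => p.1 < p.2).card :=
    Fintype.card_subtype _
  have hiff : ((fun p : Pr S => (∑ k, (y k p.1.2 * c0 k p.1.1 + y k p.1.1 * c0 k p.1.2)) +
        (∑ k, b k * y k p.1.1) * (∑ k, b k * y k p.1.2) +
        ∑ k, b k * (y k p.1.1 * y k p.1.2)) = 0) ↔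
      ∀ s s' : S, s < s' → (∑ k, (y k s' * c0 k s + y k s * c0 k s') +
        (∑ k, b k * y k s) * (∑ k, b k * y k s') + ∑ k, b k * (y k s * y k s')) = 0 := by
    constructor
    · intro h s s' hs
      exact congrFun h ⟨(s, s'), hs⟩
    · intro h
      funext p
      exact h _ _ p.2
  by_cases hc : ∀ s s' : S, s < s' → (∑ k, (y k s' * c0 k s + y k s * c0 k s') +
        (∑ k, b k * y k s) * (∑ k, b k * y k s') + ∑ k, b k * (y k s * y k s')) = 0
  · rw [if_pos (hiff.mpr hc)] at hcount
    rw [if_pos hc]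
    rw [hP] at hcount
    have h2 : ((univ.filter fun α : prs (univ : Finset J) → ZMod 2 => ∀ k ∈ univ.erase i, ∀ s,
      c0 k s + ∑ l, ex2 (fun k l => b k * b l) α k l * (y l s + y k s) = 0).card *
      2 ^ ((Fintype.card J - 1) * Fintype.card S) : ℤ) = 2 ^ (prs (univ : Finset J)).card *
        2 ^ (univ.filter fun p : S × S => p.1 < p.2).card := by
      rw [hcount, mul_comm]
    exact_mod_cast h2
  · rw [if_neg (fun h => hc (hiff.mp h)), zero_mul] at hcount
    rw [if_neg hc]
    exact_mod_cast hcount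

end Pool.Agent.NH4.XJ
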