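import Pool.Agent.NH4.XJ.Stm
import Pool.Agent.NH4.PJ.Asy
import Pool.Agent.NH3.XD.Asy

/-!
# Project XJ: the final asymptotics (helper39)
-/

set_option autoImplicit false

open scoped Classical
open Finset Filter

namespace Pool.Agent.NH4.XJ

open Pool.Agent.Y703.CX (sm la jj XX eL zz kk S_SIE eL_tendsto logX_eq rpow_eL HH NN ev_eL one_le_exp
  HH_ge HH_le HH_pos kk_ge kk_le X_pos one_add_log lin_le kap zz_ge zz_pos kap_nonneg kap_pow kap_le)
open Pool.Agent.Y703.CQ (nr sg prs HB S_EQ S_MER)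
open Pool.Agent.NH5.PR (eta S_BIL S_ETA ex2)
open Pool.Agent.NH5.PR.AsyP (sml_of sml_add sml_rpow cmp)
open Pool.Agent.NH4.PJ (law LawP Wm)
open Pool.Agent.NH4.PJ.AsyJ (eL_mono sml_mono tendsto_mul sml_comp sml_zero sml_sum sml_cut mem_Wm)
open Pool.Agent.NH3.XD (Cl SS AA Sol Nd CntP S_XHAL S_XBAD)
open Pool.Agent.NH3.XD.AsyX (sml_coll sml_main)

namespace AsyK

/-- negligible -/
abbrev Neg := Pool.Agent.NH5.PR.AsyP.Sml

theorem AA_mono {X Y : ℕ} (h : X ≤ Y) : AA X ⊆ AA Y := by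
  intro S hS
  unfold Pool.Agent.NH3.XD.AA at hS ⊢
  rw [mem_filter, mem_powerset] at hS ⊢
  exact ⟨hS.1.trans (range_subset_range.2 (by omega)), hS.2.1, hS.2.2.trans h⟩

/-- sets with many primes -/
theorem sml_many (h : CntP) (c : ℕ) :
    Neg fun X => (((AA X).filter fun S => kk X - c < S.card).card : ℝ) := by
  apply sml_of (C := 2 * 2 ^ c) (a := 1) (by norm_num)
  filter_upwards [ev_eL 1] with X hX
  have h0 : 0 < eL X := by linarith
  have h1 := h.many X (kk X - c) (X_pos h0)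
  have h2 : Real.exp (2 * eL X) ≤ 2 ^ kk X := by
    have e : (2 : ℝ) ^ kk X = Real.exp (kk X * Real.log 2) := by
      rw [mul_comm, Real.exp_mul, Real.exp_log (by norm_num), Real.rpow_natCast]
    rw [e]
    apply Real.exp_le_exp.2
    have h3 := kk_ge X
    have h4 := Real.log_two_gt_d9
    nlinarith
  have h2' : Real.exp (2 * eL X) ≤ 2 ^ (kk X - c) * 2 ^ c := by
    refine h2.trans ?_
    rw [← pow_add]
    exact pow_le_pow_right₀ (by norm_num) (by omega)
  have hX0 : (0 : ℝ) ≤ X := Nat.cast_nonneg _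
  have h5 : (((AA X).filter fun S => kk X - c < S.card).card : ℝ) * Real.exp (2 * eL X) ≤
      X * (2 * Real.exp (eL X)) * 2 ^ c := by
    calc _ ≤ (((AA X).filter fun S => kk X - c < S.card).card : ℝ) * (2 ^ (kk X - c) * 2 ^ c) := by
          gcongr
      _ = (((AA X).filter fun S => kk X - c < S.card).card : ℝ) * 2 ^ (kk X - c) * 2 ^ c := by ring
      _ ≤ X * (1 + Real.log X) * 2 ^ c := by gcongr
      _ ≤ _ := mul_le_mul_of_nonneg_right (mul_le_mul_of_nonneg_left (one_add_log h0) hX0)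
        (by positivity)
  have h6 : (2 : ℝ) * 2 ^ c * (X * Real.exp (-1 * eL X)) * Real.exp (2 * eL X) =
      X * (2 * Real.exp (eL X)) * 2 ^ c := by
    have e : Real.exp (-1 * eL X) * Real.exp (2 * eL X) = Real.exp (eL X) := by
      rw [← Real.exp_add]; congr 1; ring
    calc _ = 2 * 2 ^ c * X * (Real.exp (-1 * eL X) * Real.exp (2 * eL X)) := by ring
      _ = _ := by rw [e]; ring
  rw [← h6] at h5
  exact le_of_mul_le_mul_right h5 (Real.exp_pos _)

/-- the class is contained in the set of all sets of odd primes -/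
theorem SS_sub {m r : ℕ} (hO : OkJ m r) (X : ℕ) : SS m r X ⊆ AA X := by
  intro S hS
  unfold Pool.Agent.NH3.XD.SS at hS
  unfold Pool.Agent.NH3.XD.AA
  rw [mem_filter] at hS ⊢
  refine ⟨hS.1, fun p hp => ?_, hS.2.2⟩
  obtain ⟨h1, h2⟩ := hS.2.1.1 p hp
  refine ⟨h1, ?_⟩
  rintro rfl
  exact h2 ((show (2 : ℕ) ∣ 4 by norm_num).trans hO.2.1)

/-- the class is disjoint from the masks -/
theorem disj {M m r : ℕ} {mk : Fin M → Finset ℕ} (hM : OkM m r mk) {X : ℕ} {S : Finset ℕ}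
    (hS : S ∈ SS m r X) : Disjoint S (Wm mk) := by
  unfold Pool.Agent.NH3.XD.SS at hS
  rw [mem_filter] at hS
  rw [Finset.disjoint_left]
  intro p hp hpW
  obtain ⟨i, hi⟩ := mem_Wm.1 hpW
  exact (hS.2.1.1 p hp).2 (hM.2.1 i p hi).2.2

/-- degenerate labels -/
theorem bad_card {M m r : ℕ} {mk : Fin M → Finset ℕ} (hO : OkJ m r) (hM : OkM m r mk) {X z k : ℕ}
    (hz : ∀ u ∈ Wm mk, u ≤ z) (hk : (Wm mk).card ≤ k) :
    ((SS m r X).filter fun S => S.card ≤ k - (Wm mk).card ∧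
        ¬ Nd (sm z S ∪ Wm mk) (la z S)).card ≤
      ((AA ((∏ p ∈ Wm mk, p) * X)).filter fun S => S.card ≤ k ∧ ¬ Nd (sm z S) (la z S)).card := by
  refine card_le_card_of_injOn (fun S => S ∪ Wm mk) ?_ ?_
  · intro S hS
    rw [mem_coe, mem_filter] at hS
    obtain ⟨hS1, hS2, hS3⟩ := hS
    have hd := disj hM hS1
    have hA := SS_sub hO X hS1
    unfold Pool.Agent.NH3.XD.AA at hA
    rw [mem_filter, mem_powerset] at hA
    have hprod : ∏ p ∈ S ∪ Wm mk, p ≤ (∏ p ∈ Wm mk, p) * X := by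
      rw [prod_union hd, mul_comm]
      exact Nat.mul_le_mul_left _ hA.2.2
    have hpr : ∀ p ∈ S ∪ Wm mk, p.Prime ∧ p ≠ 2 := by
      intro p hp
      rcases mem_union.1 hp with h | h
      · exact hA.2.1 p h
      · obtain ⟨i, hi⟩ := mem_Wm.1 h
        have := hM.2.1 i p hi
        exact ⟨this.1, this.2.1⟩
    rw [mem_coe, mem_filter]
    refine ⟨?_, ?_, ?_⟩
    · unfold Pool.Agent.NH3.XD.AA
      rw [mem_filter, mem_powerset]
      refine ⟨?_, hpr, hprod⟩
      intro p hp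
      rw [mem_range]
      have h1 : p ∣ ∏ p ∈ S ∪ Wm mk, p := dvd_prod_of_mem _ hp
      have h2 : 0 < ∏ p ∈ S ∪ Wm mk, p := prod_pos fun q hq => (hpr q hq).1.pos
      have h3 := Nat.le_of_dvd h2 h1
      omega
    · have := card_union_le S (Wm mk)
      show (S ∪ Wm mk).card ≤ k
      omega
    · have e1 : sm z (S ∪ Wm mk) = sm z S ∪ Wm mk := by
        unfold Pool.Agent.Y703.CX.sm
        rw [filter_union, filter_true_of_mem hz]
      have e2 : la z (S ∪ Wm mk) = la z S := by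
        unfold Pool.Agent.Y703.CX.la
        rw [filter_union, filter_false_of_mem (s := Wm mk) (fun u hu => not_not.2 (hz u hu)),
          union_empty]
      rw [e1, e2]
      exact hS3
  · intro S hS S' hS' h
    rw [mem_coe, mem_filter] at hS hS'
    have hd := disj hM hS.1
    have hd' := disj hM hS'.1
    have h1 : (S ∪ Wm mk) \ Wm mk = (S' ∪ Wm mk) \ Wm mk := by
      have h' : S ∪ Wm mk = S' ∪ Wm mk := h
      rw [h']
    rwa [union_sdiff_cancel_right hd, union_sdiff_cancel_right hd'] at h1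

/-- the sets outside the regular part -/
theorem out_sub {M m r : ℕ} (hO : OkJ m r) (mk : Fin M → Finset ℕ) (X X' z H k L R : ℕ)
    (hXX : X ≤ X') :
    SS m r X \ ((RR m r mk X z H k L R).filter fun S => NdX L R mk (sm z S) (la z S)) ⊆
      ((((((AA X').filter fun S => k < S.card) ∪
      ((AA X).filter fun S => S.card ≤ k ∧
        X < (∏ p ∈ sm z S, p) * ∏ p ∈ la z S, XX H (jj H p))) ∪
      ((AA X').filter fun S => ¬ Set.InjOn (jj H) (la z S : Set ℕ))) ∪
      ((AA X').filter fun S => ((la z S).filter fun p => p % 4 = 3).card <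
        L * (sm z S).card + (R + 1 + L * (Wm mk).card))) ∪
      ((univ : Finset (Fin M × Fin M)).filter fun q => q.1 ≠ q.2).biUnion (fun q =>
        (AA X').filter fun S => ((la z S).filter fun p => p % 4 = 1 ∧
          ∑ u ∈ symmDiff (mk q.1) (mk q.2), nr p u ≠ 0).card <
            L * (sm z S).card + (R + L * (Wm mk).card))) ∪
      ((SS m r X).filter fun S => S.card ≤ k ∧ ¬ Nd (sm z S ∪ Wm mk) (la z S)) := by
  intro S hS
  rw [Finset.mem_sdiff, Finset.mem_filter] at hS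
  obtain ⟨h1, h2⟩ := hS
  have h1' := SS_sub hO X h1
  have h1'' := AA_mono hXX h1'
  simp only [mem_union, mem_filter, mem_biUnion, mem_univ, true_and]
  by_contra hc
  push Not at hc
  obtain ⟨⟨⟨⟨⟨c1, c2⟩, c3⟩, c4⟩, c5⟩, c6⟩ := hc
  have d1 : S.card ≤ k := c1 h1''
  have d2 := c2 h1' d1
  have d3 := c3 h1''
  have d4 := c4 h1''
  have d6 := c6 h1 d1
  have hcu : L * (sm z S ∪ Wm mk).card ≤ L * (sm z S).card + L * (Wm mk).card := by
    rw [← Nat.mul_add]
    exact Nat.mul_le_mul_left _ (card_union_le _ _)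
  apply h2
  refine ⟨?_, d6, ?_⟩
  · unfold RR
    rw [mem_filter]
    refine ⟨h1, d3, d1, d2, ?_⟩
    omega
  · intro i j hij
    have := c5 (i, j) hij h1''
    change L * (sm z S).card + (R + L * (Wm mk).card) ≤ ((la z S).filter fun p => p % 4 = 1 ∧
      ∑ u ∈ symmDiff (mk i) (mk j), nr p u ≠ 0).card at this
    omega

end AsyK

open AsyK in
theorem t_XJASY : S_XJASY := by
  intro hBIL hEQ hXLA hSYS hLaw hBOX hKEY hC hSIE hHAL hBAD hMER hFEW hXMER hSEP hLOW
  intro M m r mk rr hO hOM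
  -- the masks
  set c := (Wm mk).card with hc
  set w := ∏ p ∈ Wm mk, p with hw
  have hw1 : 1 ≤ w := by
    rw [hw]
    refine Nat.one_le_iff_ne_zero.2 (prod_ne_zero_iff.2 fun p hp => ?_)
    obtain ⟨i, hi⟩ := mem_Wm.1 hp
    exact (hOM.2.1 i p hi).1.ne_zero
  obtain ⟨u0, hu0⟩ : ∃ u0 : ℕ, ∀ u ∈ Wm mk, u ≤ u0 :=
    ⟨(Wm mk).sup id, fun u hu => le_sup (f := id) hu⟩
  set P := ∏ a, law 0 (rr a) with hP
  have hP0 : 0 ≤ P := prod_nonneg fun i _ => hLaw.nonneg _ _
  have hP1 : P ≤ 1 := prod_le_one (fun i _ => hLaw.nonneg _ _) fun i _ => hLaw.le_one _ _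
  obtain ⟨cl, X₀, hcl, hlow⟩ := hLOW m r hO
  obtain ⟨CB, XB, hbad⟩ := hBAD hSIE hHAL hMER
  rw [Metric.tendsto_nhds]
  intro ε hε
  obtain ⟨L, R, C, hC1, hkey⟩ := hKEY hBIL hEQ hXLA hSYS hLaw hBOX M rr (ε / 4) (by linarith)
  obtain ⟨CF, XF, hfew⟩ := hFEW hSIE hMER L (R + 1 + L * c)
  -- the negligible sets
  have s1 := sml_comp (sml_many hC c) hw1
  have s2 := sml_comp sml_cut hw1
  have s3 := sml_comp (sml_coll hC) hw1
  have s4 := sml_comp (sml_rpow (by norm_num) hfew) hw1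
  have s5 : Neg fun X => ∑ q ∈ (univ : Finset (Fin M × Fin M)).filter (fun q => q.1 ≠ q.2),
      (((AA (w * X)).filter fun S => ((la (zz (w * X)) S).filter fun p => p % 4 = 1 ∧
          ∑ u ∈ symmDiff (mk q.1) (mk q.2), nr p u ≠ 0).card <
            L * (sm (zz (w * X)) S).card + (R + L * c)).card : ℝ) := by
    refine sml_sum _ fun q hq => ?_
    rw [mem_filter] at hq
    obtain ⟨C', X', h'⟩ := hSEP hSIE hMER hXMER L (R + L * c) (symmDiff (mk q.1) (mk q.2))
      (by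
        rw [Finset.nonempty_iff_ne_empty]
        intro h
        exact hq.2 (hOM.1 (symmDiff_eq_bot.1 h)))
      (by
        intro u hu
        rw [Finset.mem_symmDiff] at hu
        rcases hu with ⟨hu, -⟩ | ⟨hu, -⟩
        · have := hOM.2.1 _ u hu
          exact ⟨this.1, this.2.1⟩
        · have := hOM.2.1 _ u hu
          exact ⟨this.1, this.2.1⟩)
    exact sml_comp (sml_rpow (by norm_num) h') hw1
  have s6 := sml_comp (sml_rpow (by norm_num) hbad) hw1
  have s7 := sml_comp (sml_main hC1 m) hw1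
  have s := sml_add (sml_add (sml_add (sml_add (sml_add (sml_add s1 s2) s3) s4) s5) s6) s7
  have hδ : (0 : ℝ) < cl * ε / 4 := by positivity
  filter_upwards [s (cl * ε / 4) hδ, ev_eL 1, eventually_ge_atTop X₀,
    (tendsto_mul hw1).eventually (ev_eL (max 1 (max (u0 : ℝ) (2 * c))))] with X hX hl hX0 hlw
  have hl0 : 0 < eL X := by linarith
  have hl1 : 1 ≤ eL (w * X) := (le_max_left _ _).trans hlw
  have hl2 : (u0 : ℝ) ≤ eL (w * X) := ((le_max_left _ _).trans (le_max_right _ _)).trans hlw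
  have hl3 : 2 * (c : ℝ) ≤ eL (w * X) := ((le_max_right _ _).trans (le_max_right _ _)).trans hlw
  have hl0' : 0 < eL (w * X) := by linarith
  have hlo := hlow X hX0
  have hXp := X_pos hl0
  have hXp' : (0 : ℝ) < X := by exact_mod_cast hXp
  have hXX : X ≤ w * X := Nat.le_mul_of_pos_left X hw1
  have hXXr : (X : ℝ) ≤ ((w * X : ℕ) : ℝ) := by exact_mod_cast hXX
  have hsq : 1 ≤ Real.sqrt (eL X) := Real.one_le_sqrt.2 hl
  have hSpos : (0 : ℝ) < ((SS m r X).card : ℝ) := by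
    refine lt_of_lt_of_le ?_ hlo
    positivity
  have hlogle : Real.log X ≤ Real.log ((w * X : ℕ) : ℝ) := Real.log_le_log hXp' hXXr
  have hlog0 : 0 ≤ Real.log X := Real.log_natCast_nonneg X
  set Y := w * X with hY
  have hN : (HH Y : ℝ) * Real.log X < NN Y := by
    unfold NN
    push_cast
    refine lt_of_le_of_lt ?_ (Nat.lt_floor_add_one _)
    exact mul_le_mul_of_nonneg_left hlogle (Nat.cast_nonneg _)
  have hzbig : Real.exp ((eL Y) ^ 3) ≥ (eL Y) + 1 := by
    have h3 : eL Y ≤ (eL Y) ^ 3 := le_self_pow₀ hl1 (by norm_num)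
    have h4 := Real.add_one_le_exp ((eL Y) ^ 3)
    linarith
  have hz2 : 2 ≤ zz Y := by
    unfold Pool.Agent.Y703.CX.zz
    apply Nat.le_floor
    push_cast
    linarith
  have hzu : ∀ u ∈ Wm mk, u ≤ zz Y := by
    intro u hu
    refine (hu0 u hu).trans ?_
    unfold Pool.Agent.Y703.CX.zz
    apply Nat.le_floor
    linarith
  have hkc : 2 * c ≤ kk Y := by
    have h3 := kk_ge Y
    have h4 : (2 * (c : ℝ)) ≤ kk Y := by linarith
    exact_mod_cast h4
  have hmain := hkey m r mk X (zz Y) (HH Y) (kk Y - c) (NN Y) (kap C Y) hO hOM hzu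
    (by omega) hXp (HH_pos hl0') hz2 (kap_nonneg hC1 Y) (kap_pow hC1 hl1) hN
  set T := (RR m r mk X (zz Y) (HH Y) (kk Y - c) L R).filter
    fun S => NdX L R mk (sm (zz Y) S) (la (zz Y) S) with hT
  have hTG : (RR m r mk X (zz Y) (HH Y) (kk Y - c) L R).filter
      (fun S => NdX L R mk (sm (zz Y) S) (la (zz Y) S) ∧ Ev mk rr S) = T.filter (Ev mk rr) := by
    rw [hT, filter_filter]
  rw [hTG] at hmain
  have hTS : T ⊆ SS m r X := (filter_subset _ _).trans (filter_subset _ _)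
  have hRS : ((RR m r mk X (zz Y) (HH Y) (kk Y - c) L R).card : ℝ) ≤ ((SS m r X).card : ℝ) := by
    exact_mod_cast card_le_card (filter_subset _ _)
  have hcmp := cmp (Ev mk rr) T (SS m r X) hTS P hP0 hP1
  -- the exceptional sets
  have hcut : (((AA X).filter fun S => S.card ≤ kk Y - c ∧
      X < (∏ p ∈ sm (zz Y) S, p) * ∏ p ∈ la (zz Y) S, XX (HH Y) (jj (HH Y) p)).card : ℝ) ≤
      (Y : ℝ) * kk Y / HH Y + 1 := by
    refine (hC.cut X (zz Y) (HH Y) (kk Y - c) hXp (HH_pos hl0')).trans ?_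
    have h3 : ((kk Y - c : ℕ) : ℝ) ≤ kk Y := by exact_mod_cast Nat.sub_le _ _
    have h4 : (0 : ℝ) < HH Y := by exact_mod_cast HH_pos hl0'
    gcongr
  have hbadc : (((SS m r X).filter fun S => S.card ≤ kk Y - c ∧
      ¬ Nd (sm (zz Y) S ∪ Wm mk) (la (zz Y) S)).card : ℝ) ≤
      (((AA Y).filter fun S => S.card ≤ kk Y ∧ ¬ Nd (sm (zz Y) S) (la (zz Y) S)).card : ℝ) := by
    exact_mod_cast bad_card hO hOM hzu (by omega)
  have hout : ((SS m r X \ T).card : ℝ) ≤
      (((((AA Y).filter fun S => kk Y - c < S.card).card : ℝ) +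
      ((Y : ℝ) * kk Y / HH Y + 1) +
      (((AA Y).filter fun S => ¬ Set.InjOn (jj (HH Y)) (la (zz Y) S : Set ℕ)).card : ℝ) +
      (((AA Y).filter fun S => ((la (zz Y) S).filter fun p => p % 4 = 3).card <
        L * (sm (zz Y) S).card + (R + 1 + L * c)).card : ℝ)) +
      ∑ q ∈ (univ : Finset (Fin M × Fin M)).filter (fun q => q.1 ≠ q.2),
      (((AA Y).filter fun S => ((la (zz Y) S).filter fun p => p % 4 = 1 ∧
          ∑ u ∈ symmDiff (mk q.1) (mk q.2), nr p u ≠ 0).card <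
            L * (sm (zz Y) S).card + (R + L * c)).card : ℝ)) +
      (((AA Y).filter fun S => S.card ≤ kk Y ∧ ¬ Nd (sm (zz Y) S) (la (zz Y) S)).card : ℝ) := by
    have g := card_le_card (out_sub hO mk X Y (zz Y) (HH Y) (kk Y - c) L R hXX)
    rw [← hT, ← hc] at g
    have g2 := (g.trans (card_union_le _ _)).trans (Nat.add_le_add_right ((card_union_le _ _).trans
      (Nat.add_le_add ((card_union_le _ _).trans
      (Nat.add_le_add_right ((card_union_le _ _).trans
      (Nat.add_le_add_right (card_union_le _ _) _)) _)) card_biUnion_le)) _)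
    have g3 : ((SS m r X \ T).card : ℝ) ≤ _ := Nat.cast_le.2 g2
    push_cast at g3
    linarith
  have hmt : ((m : ℝ) * (NN Y : ℝ) + m) ^ (kk Y - c) * (3 ^ (6 * (kk Y - c) ^ 2) * kap C Y) *
      (X * (1 + Real.log X)) ≤
      ((m : ℝ) * (NN Y : ℝ) + m) ^ kk Y * (3 ^ (6 * kk Y ^ 2) * kap C Y) *
      (Y * (1 + Real.log Y)) := by
    have h3 := kap_nonneg hC1 Y
    have hm1 : (1 : ℝ) ≤ m := by exact_mod_cast hO.1
    have h4 : (1 : ℝ) ≤ (m : ℝ) * (NN Y : ℝ) + m := by
      have : (0 : ℝ) ≤ (m : ℝ) * (NN Y : ℝ) := by positivity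
      linarith
    have h5 : ((m : ℝ) * (NN Y : ℝ) + m) ^ (kk Y - c) ≤ ((m : ℝ) * (NN Y : ℝ) + m) ^ kk Y :=
      pow_le_pow_right₀ h4 (Nat.sub_le _ _)
    have h6 : (3 : ℝ) ^ (6 * (kk Y - c) ^ 2) ≤ 3 ^ (6 * kk Y ^ 2) :=
      pow_le_pow_right₀ (by norm_num) (Nat.mul_le_mul_left _ (Nat.pow_le_pow_left (Nat.sub_le _ _) 2))
    have h7 : (X : ℝ) * (1 + Real.log X) ≤ Y * (1 + Real.log Y) :=
      mul_le_mul hXXr (by linarith) (by linarith) (Nat.cast_nonneg _)
    exact mul_le_mul (mul_le_mul h5 (mul_le_mul_of_nonneg_right h6 h3) (by positivity)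
      (by positivity)) h7 (by positivity) (by positivity)
  have htot : |(((SS m r X).filter (Ev mk rr)).card : ℝ) - P * ((SS m r X).card : ℝ)| ≤
      ε / 4 * ((SS m r X).card : ℝ) + cl * ε / 4 * (X / Real.sqrt (eL X)) := by
    have g1 : ε / 4 * ((RR m r mk X (zz Y) (HH Y) (kk Y - c) L R).card : ℝ) ≤
        ε / 4 * ((SS m r X).card : ℝ) := mul_le_mul_of_nonneg_left hRS (by linarith)
    linarith
  rw [Real.dist_eq]
  have e3 : (((SS m r X).filter (Ev mk rr)).card : ℝ) / ((SS m r X).card : ℝ) - P =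
      ((((SS m r X).filter (Ev mk rr)).card : ℝ) - P * ((SS m r X).card : ℝ)) /
        ((SS m r X).card : ℝ) := by
    field_simp
  rw [e3, abs_div, abs_of_pos hSpos, div_lt_iff₀ hSpos]
  refine lt_of_le_of_lt htot ?_
  have g2 : cl * ε / 4 * (X / Real.sqrt (eL X)) ≤ ε / 4 * ((SS m r X).card : ℝ) := by
    have g3 : (X : ℝ) / Real.sqrt (eL X) ≤ X := div_le_self hXp'.le hsq
    calc cl * ε / 4 * (X / Real.sqrt (eL X)) ≤ cl * ε / 4 * X :=
          mul_le_mul_of_nonneg_left g3 (by positivity)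
      _ = ε / 4 * (cl * X) := by ring
      _ ≤ _ := mul_le_mul_of_nonneg_left hlo (by linarith)
  have g4 : 0 < ε * ((SS m r X).card : ℝ) := by positivity
  linarith

end Pool.Agent.NH4.XJ
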