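import Pool.Agent.NH4.XJ.Stm

/-!
# Project XJ, job XV-J3: the radical of the pairing of two masks
-/

set_option autoImplicit false
set_option linter.unusedSectionVars false
set_option linter.unusedVariables false

open scoped Classical

namespace Pool.Agent.NH4.XJ

open Finset
open Pool.Agent.NH4.PJ (Sml)

namespace RAD

/-- linear functionals -/
noncomputable def lf {J : Type} [Fintype J] (h : J → ZMod 2) :
    (J → ZMod 2) →ₗ[ZMod 2] ZMod 2 := ∑ k, h k • LinearMap.proj k

theorem lf_apply {J : Type} [Fintype J] (h y : J → ZMod 2) : lf h y = ∑ k, h k * y k := by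
  unfold lf
  rw [LinearMap.sum_apply]
  exact Finset.sum_congr rfl fun k _ => by
    rw [LinearMap.smul_apply, LinearMap.proj_apply, smul_eq_mul]

theorem lf_inj {J : Type} [Fintype J] (h h' : J → ZMod 2) (e : lf h = lf h') : h = h' := by
  funext k
  have h1 := LinearMap.congr_fun e (Pi.single k 1)
  rw [lf_apply, lf_apply] at h1
  simpa [Pi.single_apply] using h1

end RAD

open RAD

theorem t_XRAD : S_XRAD := by
  intro U J _ _ _ d i m1 m2
  obtain ⟨e, he⟩ : ∃ e : J → ZMod 2, ∀ k, e k =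
      d.bJ k + (∑ u ∈ m1, d.C k u + ∑ u ∈ m2, d.C k u) := ⟨_, fun k => rfl⟩
  obtain ⟨be, hbe⟩ : ∃ be : (U → ZMod 2) × (J → ZMod 2) → ZMod 2, ∀ w, be w =
      ∑ l, d.bJ l * w.2 l := ⟨_, fun w => rfl⟩
  obtain ⟨hh, hhh⟩ : ∃ hh : (U → ZMod 2) × (J → ZMod 2) → J → ZMod 2, ∀ w k, hh w k =
      d.bJ k * be w + e k * w.2 k + ∑ u ∈ m2, w.1 u * d.C k u := ⟨_, fun w k => rfl⟩
  obtain ⟨L, hL⟩ : ∃ L : Option U → ((J → ZMod 2) →ₗ[ZMod 2] ZMod 2),
      L none = lf (Pi.single i 1) ∧ ∀ u, L (some u) = if u ∈ m1 then lf (d.B u) else 0 :=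
    ⟨fun o => match o with
      | none => lf (Pi.single i 1)
      | some u => if u ∈ m1 then lf (d.B u) else 0, rfl, fun u => rfl⟩
  obtain ⟨R, hR⟩ : ∃ R : Finset ((U → ZMod 2) × (J → ZMod 2)), R =
      (KK d i m2).filter fun w => ∀ v ∈ KK d i m1, om d m1 m2 v w = 0 := ⟨_, rfl⟩
  have hex : ∀ w ∈ R, ∃ c : Option U → ZMod 2, ∑ o, c o • L o = lf (hh w) := by
    intro w hw
    rw [hR, mem_filter] at hw
    have h1 : lf (hh w) ∈ Submodule.span (ZMod 2) (Set.range L) := by
      apply mem_span_of_iInf_ker_le_ker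
      intro y hy
      rw [Submodule.mem_iInf] at hy
      have hyi : y i = 0 := by
        have h2 := hy none
        rw [LinearMap.mem_ker, hL.1, lf_apply] at h2
        simpa [Pi.single_apply] using h2
      have hyB : ∀ u ∈ m1, ∑ l, d.B u l * y l = 0 := by
        intro u hu
        have h2 := hy (some u)
        rw [LinearMap.mem_ker, hL.2, if_pos hu, lf_apply] at h2
        exact h2
      have hv : ((0 : U → ZMod 2), y) ∈ KK d i m1 := by
        unfold KK
        rw [mem_filter]
        refine ⟨mem_univ _, fun u _ => rfl, fun u _ => rfl, fun k hk => ?_, fun u _ hu => ?_⟩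
        · have hki : k = i := by
            by_contra h
            exact hk (mem_erase.2 ⟨h, mem_univ _⟩)
          rw [hki]
          exact hyi
        · show ∑ v ∈ m1, d.A u v * (0 + 0) + ∑ l, d.B u l * (y l + 0) + 0 * 0 = 0
          simp only [add_zero, mul_zero, Finset.sum_const_zero, zero_add]
          exact hyB u hu
      have h3 := hw.2 _ hv
      rw [LinearMap.mem_ker, lf_apply, ← h3]
      unfold om
      have h4 : ∑ u ∈ m1, ((0 : U → ZMod 2), y).1 u * ∑ k, d.C k u * w.2 k = 0 :=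
        Finset.sum_eq_zero fun u _ => by
          show (0 : ZMod 2) * _ = 0
          rw [zero_mul]
      have h5 : ∑ u ∈ m2, w.1 u * ∑ k, d.C k u * y k =
          ∑ k, (∑ u ∈ m2, w.1 u * d.C k u) * y k := by
        simp_rw [Finset.mul_sum, Finset.sum_mul]
        rw [Finset.sum_comm]
        exact Finset.sum_congr rfl fun k _ => Finset.sum_congr rfl fun u _ => by ring
      rw [h4, add_zero]
      show _ = (∑ l, d.bJ l * y l) * (∑ l, d.bJ l * w.2 l) + ∑ l, d.bJ l * (y l * w.2 l) +
        ∑ u ∈ m2, w.1 u * ∑ k, d.C k u * y k +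
        ∑ k, y k * w.2 k * (∑ u ∈ m1, d.C k u + ∑ u ∈ m2, d.C k u)
      rw [h5, ← hbe, Finset.sum_mul, ← Finset.sum_add_distrib, ← Finset.sum_add_distrib,
        ← Finset.sum_add_distrib]
      refine Finset.sum_congr rfl fun k _ => ?_
      rw [hhh, he]
      ring
    exact (Submodule.mem_span_range_iff_exists_fun (ZMod 2)).1 h1
  choose! c hc using hex
  have hcard : R.card ≤ Fintype.card ((Option U → ZMod 2) × ZMod 2 × (U → ZMod 2) ×
      ({k // ¬ e k = 1} → ZMod 2)) := by
    rw [← Finset.card_univ]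
    refine Finset.card_le_card_of_injOn
      (fun w => (c w, be w, w.1, fun k : {k // ¬ e k = 1} => w.2 k)) (fun w _ => mem_coe.2 (mem_univ _)) ?_
    intro w hw w' hw' hww
    simp only [Prod.mk.injEq] at hww
    obtain ⟨h1, h2, h3, h4⟩ := hww
    have h5 : hh w = hh w' := by
      apply lf_inj
      rw [← hc w (mem_coe.1 hw), ← hc w' (mem_coe.1 hw'), h1]
    refine Prod.ext h3 (funext fun k => ?_)
    by_cases hk : e k = 1
    · have h6 := congrFun h5 k
      rw [hhh, hhh, h2, h3, hk, one_mul, one_mul] at h6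
      exact add_left_cancel (add_right_cancel h6)
    · exact congrFun h4 ⟨k, hk⟩
  have hE : (univ.filter fun k => d.bJ k + (∑ u ∈ m1, d.C k u + ∑ u ∈ m2, d.C k u) = 1).card +
      Fintype.card {k // ¬ e k = 1} = Fintype.card J := by
    rw [Fintype.card_subtype, ← Finset.card_univ,
      ← Finset.card_filter_add_card_filter_not (s := (univ : Finset J)) (fun k => e k = 1)]
    simp only [he]
  rw [← hR]
  have hF : Fintype.card ((Option U → ZMod 2) × ZMod 2 × (U → ZMod 2) ×
      ({k // ¬ e k = 1} → ZMod 2)) = 2 ^ (Fintype.card U + 1) * (2 * (2 ^ Fintype.card U *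
        2 ^ Fintype.card {k // ¬ e k = 1})) := by
    rw [Fintype.card_prod, Fintype.card_prod, Fintype.card_prod, Fintype.card_fun,
      Fintype.card_fun, Fintype.card_fun, ZMod.card, Fintype.card_option]
  rw [hF] at hcard
  calc R.card * 2 ^ (univ.filter fun k =>
        d.bJ k + (∑ u ∈ m1, d.C k u + ∑ u ∈ m2, d.C k u) = 1).card
      ≤ (2 ^ (Fintype.card U + 1) * (2 * (2 ^ Fintype.card U *
        2 ^ Fintype.card {k // ¬ e k = 1}))) * 2 ^ (univ.filter fun k =>
        d.bJ k + (∑ u ∈ m1, d.C k u + ∑ u ∈ m2, d.C k u) = 1).card :=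
        Nat.mul_le_mul_right _ hcard
    _ = 2 ^ (2 * Fintype.card U + 2 + Fintype.card J) := by
        rw [← hE]
        have hpow : ∀ a b c : ℕ, (2 ^ (a + 1) * (2 * (2 ^ a * 2 ^ b))) * 2 ^ c =
            2 ^ (2 * a + 2 + (c + b)) := by
          intro a b c
          have h : 2 * a + 2 + (c + b) = (a + 1) + (1 + (a + b)) + c := by ring
          rw [h, pow_add 2 (a + 1 + (1 + (a + b))) c, pow_add 2 (a + 1) (1 + (a + b)),
            pow_add 2 1 (a + b), pow_add 2 a b, pow_one]
        exact hpow _ _ _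

end Pool.Agent.NH4.XJ
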