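import Pool.Agent.NH4.XJ.Stm
import Pool.Agent.NH4.PJ.M1

/-!
# Project XJ, job XV-J4: `S_XISO`
-/

set_option autoImplicit false
set_option linter.unusedSectionVars false

open scoped Classical

namespace Pool.Agent.NH4.XJ

open Finset
open Pool.Agent.NH4.PJ.M1 (s2 s2_zero s2_add sum_s2)

namespace ISO

theorem s2_abs (a : ZMod 2) : |s2 a| = 1 := by
  revert a
  decide

section main

variable {S : Type} [Fintype S] [LinearOrder S] {V : S → Type}
  [∀ s, AddCommGroup (V s)] [∀ s, Module (ZMod 2) (V s)] [∀ s, Fintype (V s)]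
  (ω : ∀ s t, V s →ₗ[ZMod 2] V t →ₗ[ZMod 2] ZMod 2)

/-- the pairs -/
abbrev Pr (S : Type) [Fintype S] [LinearOrder S] : Type := {p : S × S // p.1 < p.2}

/-- the exponent -/
noncomputable def Ex (L : Pr S → ZMod 2) (z : ∀ s, V s) : ZMod 2 :=
  ∑ p : Pr S, L p * ω p.1.1 p.1.2 (z p.1.1) (z p.1.2)

/-- the cross terms -/
noncomputable def Cr (L : Pr S → ZMod 2) (z z' : ∀ s, V s) : ZMod 2 :=
  ∑ p : Pr S, L p * (ω p.1.1 p.1.2 (z' p.1.1) (z p.1.2) + ω p.1.1 p.1.2 (z p.1.1) (z' p.1.2))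

theorem Ex_add (L : Pr S → ZMod 2) (z z' : ∀ s, V s) :
    Ex ω L (z + z') = Ex ω L z + Cr ω L z z' + Ex ω L z' := by
  unfold Ex Cr
  rw [← Finset.sum_add_distrib, ← Finset.sum_add_distrib]
  refine sum_congr rfl fun p _ => ?_
  simp only [Pi.add_apply, map_add, LinearMap.add_apply]
  ring

theorem Ex_single (L : Pr S → ZMod 2) (s : S) (v : V s) : Ex ω L (Pi.single s v) = 0 := by
  unfold Ex
  refine sum_eq_zero fun p _ => ?_
  by_cases h : p.1.1 = s
  · have h2 : p.1.2 ≠ s := fun h3 => absurd p.2 (by rw [h, h3]; exact lt_irrefl _)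
    rw [Pi.single_eq_of_ne h2, map_zero, mul_zero]
  · rw [Pi.single_eq_of_ne h, map_zero, LinearMap.zero_apply, mul_zero]

theorem Cr_add_right (L : Pr S → ZMod 2) (z z' z'' : ∀ s, V s) :
    Cr ω L z (z' + z'') = Cr ω L z z' + Cr ω L z z'' := by
  unfold Cr
  rw [← Finset.sum_add_distrib]
  refine sum_congr rfl fun p _ => ?_
  simp only [Pi.add_apply, map_add, LinearMap.add_apply]
  ring

theorem Cr_add_left (L : Pr S → ZMod 2) (z z' z'' : ∀ s, V s) :
    Cr ω L (z + z') z'' = Cr ω L z z'' + Cr ω L z' z'' := by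
  unfold Cr
  rw [← Finset.sum_add_distrib]
  refine sum_congr rfl fun p _ => ?_
  simp only [Pi.add_apply, map_add, LinearMap.add_apply]
  ring

theorem Cr_single (L : Pr S → ZMod 2) (p : Pr S) (v : V p.1.1) (w : V p.1.2) :
    Cr ω L (Pi.single p.1.2 w) (Pi.single p.1.1 v) = L p * ω p.1.1 p.1.2 v w := by
  unfold Cr
  rw [Finset.sum_eq_single p]
  · rw [Pi.single_eq_same, Pi.single_eq_same, Pi.single_eq_of_ne p.2.ne, map_zero,
      LinearMap.zero_apply, add_zero]
  · intro q _ hq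
    have h1 : ω q.1.1 q.1.2 ((Pi.single p.1.1 v : ∀ s, V s) q.1.1)
        ((Pi.single p.1.2 w : ∀ s, V s) q.1.2) = 0 := by
      by_cases h : q.1.1 = p.1.1
      · have h2 : q.1.2 ≠ p.1.2 := fun h3 => hq (Subtype.ext (Prod.ext h h3))
        rw [Pi.single_eq_of_ne h2, map_zero]
      · rw [Pi.single_eq_of_ne h, map_zero, LinearMap.zero_apply]
    have h2 : ω q.1.1 q.1.2 ((Pi.single p.1.2 w : ∀ s, V s) q.1.1)
        ((Pi.single p.1.1 v : ∀ s, V s) q.1.2) = 0 := by
      by_cases h : q.1.1 = p.1.2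
      · have h2 : q.1.2 ≠ p.1.1 := by
          intro h3
          have h4 := q.2
          rw [h, h3] at h4
          exact absurd (h4.trans p.2) (lt_irrefl _)
        rw [Pi.single_eq_of_ne h2, map_zero]
      · rw [Pi.single_eq_of_ne h, map_zero, LinearMap.zero_apply]
    rw [h1, h2, add_zero, mul_zero]
  · intro h
    exact absurd (mem_univ _) h

/-- averaging over a coordinate -/
theorem avg (s : S) (G : (∀ s, V s) → ℝ) :
    ∑ z, ∑ v : V s, G (z + Pi.single s v) = Fintype.card (V s) * ∑ z, G z := by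
  rw [Finset.sum_comm]
  have h1 : ∀ v : V s, ∑ z, G (z + Pi.single s v) = ∑ z, G z := fun v =>
    Fintype.sum_equiv (Equiv.addRight (Pi.single s v)) _ _ fun z => rfl
  simp_rw [h1]
  rw [Finset.sum_const, card_univ, nsmul_eq_mul]

/-- the sum of a character -/
theorem char_sum (s : S) (z : ∀ s, V s) (L : Pr S → ZMod 2) :
    |∑ v : V s, (s2 (Ex ω L (z + Pi.single s v)) : ℝ)| ≤
      if ∀ v : V s, Cr ω L z (Pi.single s v) = 0 then (Fintype.card (V s) : ℝ) else 0 := by
  have h1 : ∀ v : V s, (s2 (Ex ω L (z + Pi.single s v)) : ℝ) =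
      s2 (Ex ω L z) * s2 (Cr ω L z (Pi.single s v)) := by
    intro v
    rw [Ex_add, Ex_single, add_zero, s2_add]
    push_cast
    rfl
  simp_rw [h1]
  rw [← Finset.mul_sum, abs_mul]
  have h2 : |(s2 (Ex ω L z) : ℝ)| = 1 := by
    rw [← Int.cast_abs, s2_abs]
    norm_num
  rw [h2, one_mul]
  split_ifs with h
  · refine (Finset.abs_sum_le_sum_abs _ _).trans ?_
    rw [← nsmul_one, ← card_univ, ← Finset.sum_const]
    refine Finset.sum_le_sum fun v _ => ?_
    rw [← Int.cast_abs, s2_abs]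
    norm_num
  · push Not at h
    obtain ⟨v0, hv0⟩ := h
    have hv1 : Cr ω L z (Pi.single s v0) = 1 := by
      revert hv0
      generalize Cr ω L z (Pi.single s v0) = a
      revert a
      decide
    have h3 : ∑ v : V s, (s2 (Cr ω L z (Pi.single s v)) : ℝ) =
        - ∑ v : V s, (s2 (Cr ω L z (Pi.single s v)) : ℝ) := by
      rw [← Finset.sum_neg_distrib]
      refine (Fintype.sum_equiv (Equiv.addRight v0) _ _ fun v => ?_).symm
      change -((s2 (Cr ω L z (Pi.single s v)) : ℤ) : ℝ) =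
        ((s2 (Cr ω L z (Pi.single s (v + v0))) : ℤ) : ℝ)
      rw [Pi.single_add, Cr_add_right, hv1]
      have h4 : ∀ a : ZMod 2, - s2 a = s2 (a + 1) := by decide
      rw [← h4]
      push_cast
      rfl
    have h5 : ∑ v : V s, (s2 (Cr ω L z (Pi.single s v)) : ℝ) = 0 := by linarith
    rw [h5, abs_zero]

/-- the bound of a term -/
theorem term_le (ρ : ℝ) (L : Pr S → ZMod 2) (p : Pr S) (hp : L p = 1)
    (h : ((univ.filter fun w : V p.1.2 => ∀ v : V p.1.1, ω p.1.1 p.1.2 v w = 0).card : ℝ) ≤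
      ρ * Fintype.card (V p.1.2)) :
    |∑ z : ∀ s, V s, (s2 (Ex ω L z) : ℝ)| ≤ ρ * ∏ s, (Fintype.card (V s) : ℝ) := by
  have hc : ∀ s, (0 : ℝ) < Fintype.card (V s) := fun s => by
    exact_mod_cast Fintype.card_pos
  -- first step
  have h1 : |∑ z : ∀ s, V s, (s2 (Ex ω L z) : ℝ)| ≤
      ∑ z : ∀ s, V s, if ∀ v : V p.1.1, Cr ω L z (Pi.single p.1.1 v) = 0 then (1 : ℝ) else 0 := by
    have h2 := avg p.1.1 (fun z : ∀ s, V s => (s2 (Ex ω L z) : ℝ))
    have h3 : (Fintype.card (V p.1.1) : ℝ) * |∑ z : ∀ s, V s, (s2 (Ex ω L z) : ℝ)| ≤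
        Fintype.card (V p.1.1) *
        ∑ z : ∀ s, V s, if ∀ v : V p.1.1, Cr ω L z (Pi.single p.1.1 v) = 0 then (1 : ℝ) else 0 := by
      rw [← abs_of_pos (hc p.1.1), ← abs_mul, abs_of_pos (hc p.1.1), ← h2]
      refine (Finset.abs_sum_le_sum_abs _ _).trans ?_
      rw [Finset.mul_sum]
      refine Finset.sum_le_sum fun z _ => ?_
      refine (char_sum ω p.1.1 z L).trans (le_of_eq ?_)
      split_ifs
      · rw [mul_one]
      · rw [mul_zero]
    exact le_of_mul_le_mul_left h3 (hc _)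
  refine h1.trans ?_
  -- second step
  have h2 := avg p.1.2 (fun z : ∀ s, V s =>
    if ∀ v : V p.1.1, Cr ω L z (Pi.single p.1.1 v) = 0 then (1 : ℝ) else 0)
  have h3 : (Fintype.card (V p.1.2) : ℝ) * (∑ z : ∀ s, V s,
      if ∀ v : V p.1.1, Cr ω L z (Pi.single p.1.1 v) = 0 then (1 : ℝ) else 0) ≤
      Fintype.card (V p.1.2) * (ρ * ∏ s, (Fintype.card (V s) : ℝ)) := by
    rw [← h2]
    have h4 : ∀ z : ∀ s, V s, ∑ w : V p.1.2,
        (if ∀ v : V p.1.1, Cr ω L (z + Pi.single p.1.2 w) (Pi.single p.1.1 v) = 0 then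
          (1 : ℝ) else 0) ≤ ρ * Fintype.card (V p.1.2) := by
      intro z
      refine le_trans ?_ h
      rw [← Finset.sum_filter, Finset.sum_const, nsmul_eq_mul, mul_one]
      have h5 : ∀ (w : V p.1.2) (v : V p.1.1),
          Cr ω L (z + Pi.single p.1.2 w) (Pi.single p.1.1 v) =
          Cr ω L z (Pi.single p.1.1 v) + ω p.1.1 p.1.2 v w := by
        intro w v
        rw [Cr_add_left, Cr_single, hp, one_mul]
      rcases Finset.eq_empty_or_nonempty (univ.filter fun w : V p.1.2 => ∀ v : V p.1.1,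
        Cr ω L (z + Pi.single p.1.2 w) (Pi.single p.1.1 v) = 0) with h6 | ⟨w0, hw0⟩
      · rw [h6, card_empty, Nat.cast_zero]
        exact Nat.cast_nonneg _
      · rw [mem_filter] at hw0
        have h7 : (univ.filter fun w : V p.1.2 => ∀ v : V p.1.1,
            Cr ω L (z + Pi.single p.1.2 w) (Pi.single p.1.1 v) = 0).card ≤
            (univ.filter fun w : V p.1.2 => ∀ v : V p.1.1, ω p.1.1 p.1.2 v w = 0).card := by
          refine Finset.card_le_card_of_injOn (fun w => w + w0) ?_ ?_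
          · intro w hw
            rw [mem_coe, mem_filter] at hw ⊢
            refine ⟨mem_univ _, fun v => ?_⟩
            have e1 := hw.2 v
            have e2 := hw0.2 v
            rw [h5] at e1 e2
            rw [map_add]
            have e3 : ∀ a b c : ZMod 2, a + b = 0 → a + c = 0 → b + c = 0 := by decide
            exact e3 _ _ _ e1 e2
          · intro w _ w' _ hww
            exact add_right_cancel hww
        exact_mod_cast h7
    calc ∑ z : ∀ s, V s, ∑ w : V p.1.2,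
        (if ∀ v : V p.1.1, Cr ω L (z + Pi.single p.1.2 w) (Pi.single p.1.1 v) = 0 then
          (1 : ℝ) else 0) ≤ ∑ _z : ∀ s, V s, ρ * Fintype.card (V p.1.2) :=
          Finset.sum_le_sum fun z _ => h4 z
      _ = Fintype.card (V p.1.2) * (ρ * ∏ s, (Fintype.card (V s) : ℝ)) := by
          rw [Finset.sum_const, card_univ, nsmul_eq_mul, Fintype.card_pi]
          push_cast
          ring
  exact le_of_mul_le_mul_left h3 (hc _)

end main

end ISO

open ISO

theorem t_XISO : S_XISO := by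
  intro S _ _ V _ _ _ ω ρ hρ h
  set P : ℝ := ∏ s, (Fintype.card (V s) : ℝ) with hP
  have hP0 : 0 ≤ P := Finset.prod_nonneg fun s _ => Nat.cast_nonneg _
  have hn : Fintype.card (Pr S) = (univ.filter fun p : S × S => p.1 < p.2).card :=
    Fintype.card_subtype _
  rw [← hn]
  set c : ℝ := ((univ.filter fun z : ∀ s, V s => ∀ s t, s < t → ω s t (z s) (z t) = 0).card : ℝ)
    with hcdef
  have h2pos : (0 : ℝ) < 2 ^ Fintype.card (Pr S) := by positivity
  -- the count by characters
  have h1 : c * 2 ^ Fintype.card (Pr S) =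
      ∑ L : Pr S → ZMod 2, ∑ z : ∀ s, V s, (s2 (Ex ω L z) : ℝ) := by
    rw [Finset.sum_comm]
    have h2 : ∀ z : ∀ s, V s, ∑ L : Pr S → ZMod 2, (s2 (Ex ω L z) : ℝ) =
        if ∀ s t, s < t → ω s t (z s) (z t) = 0 then 2 ^ Fintype.card (Pr S) else 0 := by
      intro z
      have h3 := sum_s2 (fun p : Pr S => ω p.1.1 p.1.2 (z p.1.1) (z p.1.2))
      have h4 : ∑ L : Pr S → ZMod 2, (s2 (Ex ω L z) : ℝ) =
          ((∑ L : Pr S → ZMod 2, s2 (∑ p, L p * ω p.1.1 p.1.2 (z p.1.1) (z p.1.2)) : ℤ) : ℝ) := by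
        push_cast
        rfl
      rw [h4, h3]
      by_cases h5 : ∀ s t, s < t → ω s t (z s) (z t) = 0
      · rw [if_pos h5, if_pos]
        · push_cast
          rfl
        · funext p
          exact h5 _ _ p.2
      · rw [if_neg h5, if_neg]
        · norm_num
        · intro h6
          exact h5 fun s t hst => congrFun h6 ⟨(s, t), hst⟩
    simp_rw [h2]
    rw [← Finset.sum_filter, Finset.sum_const, nsmul_eq_mul]
  -- the term `L = 0`
  have h0 : ∑ z : ∀ s, V s, (s2 (Ex ω (0 : Pr S → ZMod 2) z) : ℝ) = P := by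
    have h2 : ∀ z : ∀ s, V s, (s2 (Ex ω (0 : Pr S → ZMod 2) z) : ℝ) = 1 := by
      intro z
      have h3 : Ex ω (0 : Pr S → ZMod 2) z = 0 := by
        unfold Ex
        exact sum_eq_zero fun p _ => by rw [Pi.zero_apply, zero_mul]
      rw [h3, s2_zero]
      norm_num
    simp_rw [h2]
    rw [Finset.sum_const, card_univ, nsmul_eq_mul, mul_one, Fintype.card_pi, hP]
    push_cast
    rfl
  have h3 : |c * 2 ^ Fintype.card (Pr S) - P| ≤ 2 ^ Fintype.card (Pr S) * (ρ * P) := by
    rw [h1, ← Finset.add_sum_erase _ _ (mem_univ (0 : Pr S → ZMod 2)), h0, add_sub_cancel_left]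
    refine (Finset.abs_sum_le_sum_abs _ _).trans ?_
    calc ∑ L ∈ univ.erase (0 : Pr S → ZMod 2), |∑ z : ∀ s, V s, (s2 (Ex ω L z) : ℝ)| ≤
        ∑ _L ∈ univ.erase (0 : Pr S → ZMod 2), ρ * P := by
          refine Finset.sum_le_sum fun L hL => ?_
          obtain ⟨p, hp⟩ := Function.ne_iff.mp (ne_of_mem_erase hL)
          have hp1 : L p = 1 := by
            rw [Pi.zero_apply] at hp
            revert hp
            generalize L p = a
            revert a
            decide
          exact term_le ω ρ L p hp1 (h _ _ p.2)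
      _ ≤ ∑ _L : Pr S → ZMod 2, ρ * P :=
          Finset.sum_le_sum_of_subset_of_nonneg (erase_subset _ _)
            fun _ _ _ => mul_nonneg hρ hP0
      _ = 2 ^ Fintype.card (Pr S) * (ρ * P) := by
          rw [Finset.sum_const, card_univ, nsmul_eq_mul]
          congr 1
          rw [Fintype.card_fun, ZMod.card]
          push_cast
          rfl
  have h4 : c - P / 2 ^ Fintype.card (Pr S) =
      (c * 2 ^ Fintype.card (Pr S) - P) / 2 ^ Fintype.card (Pr S) := by
    field_simp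
  rw [h4, abs_div, abs_of_pos h2pos, div_le_iff₀ h2pos]
  linarith [h3]

end Pool.Agent.NH4.XJ
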