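import Pool.Agent.NH4.XJ.Fin0
import Pool.Agent.NH4.XJ.PRB
import Pool.Agent.NH4.XJ.ISO

/-!
# Project XJ: the joint law of the Redei matrices, unconditionally

Joint work: helper50 (the system, the radical), helper96 (the number of the completions, isotropic
families), helper10 (boxes), helper40 (sum over the boxes), helper64, helper81 (exceptional sets,
Mertens), helper87 (lower bound), helper39 (asymptotics), helper4 (statements, moments), and the authors
of the projects XD, PJ, PR, JQ, CQ.
-/

set_option autoImplicit false

namespace Pool.Agent.NH4.XJ

theorem f_XJQ : S_XJQ := jDQ_of t_XPRB t_XISO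

theorem f_XJDEN : S_XJDEN := jDEN_of t_XPRB t_XISO

end Pool.Agent.NH4.XJ
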