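import Pool.Agent.NH3.XD.FEW
import Pool.Agent.NH4.XJ.Stm

/-!
# XJ-FEW, XJ-SEP: few sets have few large primes `3` modulo `4` / few separating primes
-/

set_option autoImplicit false

open scoped Classical

namespace Pool.Agent.NH4.XJ.Few

open Finset Filter
open Pool.Agent.Y703.CX (sm la eL zz S_SIE)
open Pool.Agent.Y703.CQ (S_MER nr)
open Pool.Agent.Y495.CX.Few (PN eL_tendsto rpow_eq)
open Pool.Agent.NH3.XD (AA)
open Pool.Agent.NH3.XD.Few (AA_mem LL mem_LL_of part1 partB mer3 T3)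
open Pool.Agent.NH4.PJ.Few (thr)

/-- few sets have few large primes with the property `BT` -/
lemma few_of (hs : S_SIE) (BT : ℕ → Prop) (hm : ∃ C : ℝ, 0 ≤ C ∧ ∀ y : ℕ, 3 ≤ y →
      1 / 16 * Real.log (Real.log y) - C ≤ ∑ p ∈ (PN y).filter BT, (1 : ℝ) / p) (L R : ℕ) :
    ∃ (C : ℝ) (X₀ : ℕ), ∀ X : ℕ, X₀ ≤ X →
    (((AA X).filter fun S => ((la (zz X) S).filter BT).card <
      L * (sm (zz X) S).card + R).card : ℝ) ≤ C * X * (Real.log X) ^ (-1 / 64 : ℝ) := by
  set r : ℝ := -1 / 64 with hr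
  have hL : (0 : ℝ) ≤ L := Nat.cast_nonneg L
  obtain ⟨C₁, hC₁, h1⟩ := part1 (80 * ((L : ℝ) + 1)) (by linarith)
  obtain ⟨C₂, hC₂, h2⟩ := partB hs BT hm (r := r) (by rw [hr]; norm_num)
  have h4 := (h1.and h2).and
    (eL_tendsto.eventually (eventually_ge_atTop (max 2 (320 * (R : ℝ)))))
  rw [eventually_atTop] at h4
  obtain ⟨X₀, hX₀⟩ := h4
  refine ⟨C₁ + C₂, X₀, fun X hX => ?_⟩
  obtain ⟨⟨h5, h6⟩, h8⟩ := hX₀ X hX
  have h9 : 2 ≤ eL X := (le_max_left _ _).trans h8
  have h10 : 320 * (R : ℝ) ≤ eL X := (le_max_right _ _).trans h8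
  rw [rpow_eq h9]
  set F1 := (AA X).filter fun S => eL X / (80 * ((L : ℝ) + 1)) < ((sm (zz X) S).card : ℝ) with hF1
  set F2 := LL X fun S => ((la (zz X) S).filter BT).card ≤ ⌊eL X / 64⌋₊ with hF2
  have h11 : ((AA X).filter fun S => ((la (zz X) S).filter BT).card <
      L * (sm (zz X) S).card + R) ⊆ F1 ∪ F2 := by
    intro S hS
    rw [mem_filter] at hS
    rw [mem_union]
    by_cases hc : eL X / (80 * ((L : ℝ) + 1)) < ((sm (zz X) S).card : ℝ)
    · exact Or.inl (mem_filter.2 ⟨hS.1, hc⟩)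
    right
    rw [not_lt] at hc
    refine mem_LL_of hS.1 ?_
    apply Nat.le_floor
    exact (thr hc h10 (by linarith) hS.2).1
  have h12 : (((AA X).filter fun S => ((la (zz X) S).filter BT).card <
      L * (sm (zz X) S).card + R).card : ℝ) ≤ (F1.card : ℝ) + (F2.card : ℝ) := by
    exact_mod_cast (card_le_card h11).trans (card_union_le _ _)
  have h13 : C₁ * X * Real.exp (-(4 / 5) * eL X) ≤ C₁ * X * Real.exp (r * eL X) := by
    apply mul_le_mul_of_nonneg_left _ (by positivity)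
    apply Real.exp_le_exp.2
    apply mul_le_mul_of_nonneg_right _ (by linarith)
    rw [hr]; norm_num
  refine h12.trans ((add_le_add (h5.trans h13) h6).trans (le_of_eq ?_))
  ring

/-- the primes `1` modulo `4` on which the product of `e` is not a square -/
def BE (e : Finset ℕ) (p : ℕ) : Prop := p % 4 = 1 ∧ p ∉ e ∧ ∑ u ∈ e, nr p u ≠ 0

/-- the lower bound for the reciprocals -/
lemma mer_E (hm : S_XJMER) {e : Finset ℕ} (he : e.Nonempty) (hu : ∀ u ∈ e, u.Prime ∧ u ≠ 2) :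
    ∃ C : ℝ, 0 ≤ C ∧ ∀ y : ℕ, 3 ≤ y →
    1 / 16 * Real.log (Real.log y) - C ≤ ∑ p ∈ (PN y).filter (BE e), (1 : ℝ) / p := by
  obtain ⟨C, hC⟩ := hm e he hu
  refine ⟨|C|, abs_nonneg _, fun y hy => ?_⟩
  have h1 := (abs_le.1 (hC y hy)).1
  have h2 := le_abs_self C
  have h3 : (range (y + 1)).filter (fun p => p.Prime ∧ p % 4 = 1 ∧ p ∉ e ∧ ∑ u ∈ e, nr p u ≠ 0) =
      (PN y).filter (BE e) := by
    ext p
    rw [mem_filter, mem_filter, mem_filter, mem_Icc, mem_range]
    constructor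
    · rintro ⟨a, b, c⟩
      exact ⟨⟨⟨b.one_lt.le, by omega⟩, b⟩, c⟩
    · rintro ⟨a, b⟩
      exact ⟨by have := a.1.2; omega, a.2, b⟩
  rw [h3] at h1
  have h5 : 0 ≤ Real.log (Real.log y) := by
    apply Real.log_nonneg
    rw [Real.le_log_iff_exp_le (by positivity)]
    have e1 := Real.exp_one_lt_d9
    have e2 : (3 : ℝ) ≤ y := by exact_mod_cast hy
    linarith
  linarith

end Few

open Few Finset Filter
open Pool.Agent.Y703.CX (sm la eL zz S_SIE)
open Pool.Agent.Y703.CQ (S_MER nr)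
open Pool.Agent.NH3.XD (AA)
open Pool.Agent.NH3.XD.Few (mer3 T3)

/-- XJ-FEW: few sets have few large primes `3` modulo `4` -/
theorem t_XJFEW : S_XJFEW := by
  intro hs hm L R
  obtain ⟨C, X₀, h⟩ := few_of hs T3 (mer3 hm) L R
  refine ⟨C, X₀, fun X hX => ?_⟩
  have h1 := h X hX
  have e1 : ∀ S : Finset ℕ, (la (zz X) S).filter T3 = (la (zz X) S).filter fun p => p % 4 = 3 := by
    intro S
    ext p
    rw [mem_filter, mem_filter]
    rfl
  have e2 : ((AA X).filter fun S => ((la (zz X) S).filter T3).card <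
      L * (sm (zz X) S).card + R) = ((AA X).filter fun S => ((la (zz X) S).filter
        fun p => p % 4 = 3).card < L * (sm (zz X) S).card + R) := by
    ext S
    rw [mem_filter, mem_filter, e1 S]
  rw [e2] at h1
  exact h1

/-- XJ-SEP: few sets have few large primes `1` modulo `4` on which a product of primes is not a
square -/
theorem t_XJSEP : S_XJSEP := by
  intro hs hm hj L R e he hu
  obtain ⟨C, X₀, h⟩ := few_of hs (BE e) (mer_E hj he hu) L R
  refine ⟨C, X₀, fun X hX => le_trans ?_ (h X hX)⟩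
  have h1 : ((AA X).filter fun S => ((la (zz X) S).filter fun p => p % 4 = 1 ∧
      ∑ u ∈ e, nr p u ≠ 0).card < L * (sm (zz X) S).card + R) ⊆
      ((AA X).filter fun S => ((la (zz X) S).filter (BE e)).card <
        L * (sm (zz X) S).card + R) := by
    intro S hS
    rw [mem_filter] at hS ⊢
    refine ⟨hS.1, lt_of_le_of_lt (card_le_card fun p hp => ?_) hS.2⟩
    rw [mem_filter] at hp ⊢
    exact ⟨hp.1, hp.2.1, hp.2.2.2⟩
  exact_mod_cast card_le_card h1

end Pool.Agent.NH4.XJ
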