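import Pool.Agent.NH4.XJ.Stm
import Pool.Agent.NH4.PJ.MOM

/-!
# Project XJ: the mixed moments
-/

set_option autoImplicit false
set_option linter.unusedSectionVars false
set_option linter.unusedVariables false

open scoped Classical

namespace Pool.Agent.NH4.XJ.Mom

open Finset Module
open Pool.Agent.Y703.CQ (prs)
open Pool.Agent.NH5.PR (ex2)
open Pool.Agent.NH4.PJ (inj nkM Sml Lrg rs sepJ S_M1 S_M2 S_M3 S_POW)
open Pool.Agent.NH4.PJ.Mom (F Ix yf xf c0 Az LiF SmF Sm Tf dp)

section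

variable {U J : Type} [Fintype U] [Fintype J] [LinearOrder J] {M : ℕ}

/-- the data of project PJ are good -/
theorem good_toP {d : NH3.XD.Dat U J} {mm : Fin M → Finset U} (hg : GoodJ d mm) {i : J}
    (hi : d.bJ i = 1) : (toP d i).Good mm (fun _ => 0) where
  dim := fun a => by
    show (((univ : Finset U) ∩ mm a).card : ℤ) + ((univ : Finset J).erase i).card = _
    show _ = (((univ : Finset U) ∩ mm a).card : ℤ) + ((univ : Finset J).erase i).card + 0
    ring
  free := ⟨i, by show i ∉ (univ : Finset J).erase i; simp, by show i ∉ (univ : Finset J).erase i; simp⟩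
  nC := fun w hw => by
    obtain ⟨k, hk, h⟩ := hg.nd w hw
    have hki : k ≠ i := by
      rintro rfl
      rw [hi] at hk
      exact one_ne_zero hk
    exact ⟨k, mem_erase.2 ⟨hki, mem_univ _⟩, mem_erase.2 ⟨hki, mem_univ _⟩, h⟩
  nB := fun w hw => by
    obtain ⟨k, hk, h⟩ := hg.nd w hw
    have hki : k ≠ i := by
      rintro rfl
      rw [hi] at hk
      exact one_ne_zero hk
    refine ⟨k, mem_erase.2 ⟨hki, mem_univ _⟩, mem_erase.2 ⟨hki, mem_univ _⟩, ?_⟩
    show ∑ u, w u * d.B u k ≠ 0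
    have e : ∀ u, d.B u k = d.C k u := by
      intro u
      have h1 := hg.rB u k
      rw [hk, mul_zero] at h1
      have h2 : ∀ a b : ZMod 2, a + b = 0 → a = b := by decide
      exact h2 _ _ h1
    rw [Finset.sum_congr rfl fun u _ => by rw [e u]]
    exact h

theorem sep_le {d : NH3.XD.Dat U J} {mm : Fin M → Finset U} {i : J}
    (hi : d.bJ i = 1) (a b : Fin M) : (univ.filter fun k => d.bJ k = 0 ∧
    ∑ u ∈ mm a, d.C k u + ∑ u ∈ mm b, d.C k u ≠ 0).card ≤ (sepJ (toP d i) mm a b).card := by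
  refine Finset.card_le_card fun k hk => ?_
  rw [mem_filter] at hk
  unfold sepJ
  rw [mem_filter]
  have hki : k ≠ i := by
    rintro rfl
    rw [hi] at hk
    exact one_ne_zero hk.2.1
  exact ⟨mem_inter.2 ⟨mem_erase.2 ⟨hki, mem_univ _⟩, mem_erase.2 ⟨hki, mem_univ _⟩⟩, hk.2.2⟩

/-- the pairing -/
theorem om_add_left (d : NH3.XD.Dat U J) (m1 m2 : Finset U) (v v' w : (U → F) × (J → F)) :
    om d m1 m2 (v + v') w = om d m1 m2 v w + om d m1 m2 v' w := by
  unfold om
  simp only [Prod.fst_add, Prod.snd_add, Pi.add_apply, mul_add, add_mul, Finset.sum_add_distrib]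
  ring

theorem om_add_right (d : NH3.XD.Dat U J) (m1 m2 : Finset U) (v w w' : (U → F) × (J → F)) :
    om d m1 m2 v (w + w') = om d m1 m2 v w + om d m1 m2 v w' := by
  unfold om
  simp only [Prod.fst_add, Prod.snd_add, Pi.add_apply, mul_add, add_mul, Finset.sum_add_distrib]
  ring

/-- the pairing, linear in the second argument -/
noncomputable def omR (d : NH3.XD.Dat U J) (m1 m2 : Finset U) (v : (U → F) × (J → F)) :
    ((U → F) × (J → F)) →ₗ[F] F :=
  (AddMonoidHom.mk' (fun w => om d m1 m2 v w) (om_add_right d m1 m2 v)).toZModLinearMap 2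

/-- the bilinear pairing -/
noncomputable def omL (d : NH3.XD.Dat U J) (m1 m2 : Finset U) :
    ((U → F) × (J → F)) →ₗ[F] ((U → F) × (J → F)) →ₗ[F] F :=
  (AddMonoidHom.mk' (fun v => omR d m1 m2 v) (by
    intro v v'
    ext w
    all_goals exact om_add_left d m1 m2 v v' _)).toZModLinearMap 2

theorem omL_apply (d : NH3.XD.Dat U J) (m1 m2 : Finset U) (v w : (U → F) × (J → F)) :
    omL d m1 m2 v w = om d m1 m2 v w := rfl

/-- the data without large rows -/
noncomputable def d0 (d : NH3.XD.Dat U J) (i : J) : Pool.Agent.NH4.PJ.Dat U J :=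
  { toP d i with JR := ∅ }

/-- the space of the solutions of the small rows -/
noncomputable def KS (d : NH3.XD.Dat U J) (i : J) (m : Finset U) : Submodule F ((U → F) × (J → F)) :=
  Pool.Agent.NH4.PJ.Mom.Sol (d0 d i) m (fun _ => 0)

theorem mem_KS (d : NH3.XD.Dat U J) (i : J) (m : Finset U) (z : (U → F) × (J → F)) :
    z ∈ KS d i m ↔ Sml (toP d i) m z.1 z.2 := by
  unfold KS
  rw [Pool.Agent.NH4.PJ.Mom.mem_Sol]
  constructor
  · rintro ⟨h, -⟩
    exact h
  · intro h
    refine ⟨h, fun k hk => ?_⟩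
    exact absurd hk (Finset.notMem_empty _)

theorem card_KK (h3 : S_M3) {d : NH3.XD.Dat U J} {mm : Fin M → Finset U} (hg : GoodJ d mm) {i : J}
    (hi : d.bJ i = 1) (a : Fin M) : (KK d i (mm a)).card = 2 ^ (Fintype.card J - 1) := by
  have h := h3 U J (toP d i) (mm a) (good_toP hg hi).nB
  have e1 : (univ.filter fun z : (U → ZMod 2) × (J → ZMod 2) => Sml (toP d i) (mm a) z.1 z.2) =
      KK d i (mm a) := rfl
  rw [e1] at h
  have e2 : (toP d i).JC.card = Fintype.card J - 1 := by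
    show ((univ : Finset J).erase i).card = _
    rw [Finset.card_erase_of_mem (mem_univ _), card_univ]
  have e3 : ((toP d i).UC ∩ mm a).card = ((toP d i).UR ∩ mm a).card := rfl
  rw [e2, e3, Nat.add_comm, pow_add] at h
  exact Nat.eq_of_mul_eq_mul_right (by positivity) h

theorem card_KS (h3 : S_M3) {d : NH3.XD.Dat U J} {mm : Fin M → Finset U} (hg : GoodJ d mm) {i : J}
    (hi : d.bJ i = 1) (a : Fin M) : Nat.card (KS d i (mm a)) = 2 ^ (Fintype.card J - 1) := by
  rw [← card_KK h3 hg hi a, Nat.card_eq_fintype_card, Fintype.card_subtype]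
  unfold KK
  congr 1
  ext z
  simp only [mem_filter, mem_univ, true_and]
  exact mem_KS d i (mm a) z

/-- the isotropy condition is the pairing -/
theorem iso_eq (d : NH3.XD.Dat U J) (i : J) {S : Type} (m : S → Finset U)
    (z : S → (U → F) × (J → F)) (s t : S) :
    (∑ k, (yf z k t * c0 (toP d i) m z k s + yf z k s * c0 (toP d i) m z k t) +
        (∑ k, d.bJ k * yf z k s) * (∑ k, d.bJ k * yf z k t) +
        ∑ k, d.bJ k * (yf z k s * yf z k t)) = om d (m s) (m t) (z s) (z t) := by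
  have e1 : ∀ (s t : S), ∑ k, yf z k t * c0 (toP d i) m z k s =
      ∑ u ∈ m s, (z s).1 u * ∑ k, d.C k u * (z t).2 k +
        ∑ k, (z s).2 k * (z t).2 k * ∑ u ∈ m s, d.C k u := by
    intro s t
    have e2 : ∀ k, yf z k t * c0 (toP d i) m z k s =
        ∑ u ∈ m s, (z s).1 u * (d.C k u * (z t).2 k) +
          (z s).2 k * (z t).2 k * ∑ u ∈ m s, d.C k u := by
      intro k
      show (z t).2 k * (∑ u ∈ m s, d.C k u * ((z s).1 u + (z s).2 k) + 0 * (z s).2 k) = _
      rw [zero_mul, add_zero, Finset.mul_sum, Finset.mul_sum, ← Finset.sum_add_distrib]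
      refine Finset.sum_congr rfl fun u _ => by ring
    rw [Finset.sum_congr rfl fun k _ => e2 k, Finset.sum_add_distrib, Finset.sum_comm]
    congr 1
    refine Finset.sum_congr rfl fun u _ => ?_
    rw [Finset.mul_sum]
  rw [Finset.sum_add_distrib, e1 s t, e1 t s]
  unfold om yf
  have e3 : ∑ k, (z s).2 k * (z t).2 k * (∑ u ∈ m s, d.C k u + ∑ u ∈ m t, d.C k u) =
      ∑ k, (z s).2 k * (z t).2 k * ∑ u ∈ m s, d.C k u +
        ∑ k, (z t).2 k * (z s).2 k * ∑ u ∈ m t, d.C k u := by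
    rw [← Finset.sum_add_distrib]
    refine Finset.sum_congr rfl fun k _ => by ring
  rw [e3]
  ring

end

section

variable {U J : Type} [Fintype U] [Fintype J] [LinearOrder J] {S : Type} [Fintype S] [LinearOrder S]

/-- the number of the pairs -/
noncomputable def pr (S : Type) [Fintype S] [LinearOrder S] : ℕ :=
  (univ.filter fun p : S × S => p.1 < p.2).card

/-- isotropic families -/
def Is (d : NH3.XD.Dat U J) (m : S → Finset U) (z : S → (U → F) × (J → F)) : Prop :=
  ∀ s t, s < t → om d (m s) (m t) (z s) (z t) = 0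

theorem gen_A (hp : S_XPRB) (d : NH3.XD.Dat U J) (m : S → Finset U) {i : J}
    {z : S → (U → F) × (J → F)} (h : SmF (toP d i) m z) (hG : rs (yf z) Set.univ = ⊤) :
    (Az (toP d i) m z : ℝ) * 2 ^ ((Fintype.card J - 1) * Fintype.card S) =
      if Is d m z then 2 ^ (prs (univ : Finset J)).card * 2 ^ pr S else 0 := by
  have hy : yf z i = 0 := Pool.Agent.NH4.PJ.Mom.yf_zero h (by
    show i ∉ (univ : Finset J).erase i
    simp)
  have h1 := hp J S i d.bJ (yf z) (c0 (toP d i) m z) hy hG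
  have h2 := Pool.Agent.NH4.PJ.Mom.Az_eq' (toP d i) m z
  have h3 : (univ.filter fun α : prs (univ : Finset J) → ZMod 2 => ∀ k' ∈ univ.erase i, ∀ s,
      c0 (toP d i) m z k' s + ∑ l, ex2 (fun k l => d.bJ k * d.bJ l) α k' l *
        (yf z l s + yf z k' s) = 0).card = Az (toP d i) m z := by
    rw [← h2]
    congr
  rw [h3] at h1
  have h4 : (∀ s s' : S, s < s' → (∑ k', (yf z k' s' * c0 (toP d i) m z k' s +
      yf z k' s * c0 (toP d i) m z k' s') +
        (∑ k', d.bJ k' * yf z k' s) * (∑ k', d.bJ k' * yf z k' s') +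
        ∑ k', d.bJ k' * (yf z k' s * yf z k' s')) = 0) ↔ Is d m z := by
    unfold Is
    refine forall_congr' fun s => forall_congr' fun t => forall_congr' fun _ => ?_
    rw [iso_eq d i m z s t]
  have h5 : Az (toP d i) m z * 2 ^ ((Fintype.card J - 1) * Fintype.card S) =
      if Is d m z then 2 ^ (prs (univ : Finset J)).card * 2 ^ pr S else 0 := by
    rw [h1]
    by_cases h6 : Is d m z
    · rw [if_pos h6, if_pos (h4.2 h6)]
      rfl
    · rw [if_neg h6, if_neg fun h7 => h6 (h4.1 h7)]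
  by_cases h6 : Is d m z
  · rw [if_pos h6] at h5 ⊢
    exact_mod_cast h5
  · rw [if_neg h6] at h5 ⊢
    exact_mod_cast h5

/-- the radicals are small -/
theorem rad_le (hr : S_XRAD) {M : ℕ} {d : NH3.XD.Dat U J} {mm : Fin M → Finset U} {i : J} {V : ℕ}
    (hV : V ≤ (univ.filter fun l => d.bJ l = 1).card)
    (hs : ∀ a b, a ≠ b → V ≤ (univ.filter fun k => d.bJ k = 0 ∧
      ∑ u ∈ mm a, d.C k u + ∑ u ∈ mm b, d.C k u ≠ 0).card) (hJ : 1 ≤ Fintype.card J) (a b : Fin M) :
    (((KK d i (mm b)).filter fun w => ∀ v ∈ KK d i (mm a), om d (mm a) (mm b) v w = 0).card : ℝ) ≤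
      2 ^ (2 * Fintype.card U + 3) / 2 ^ V * 2 ^ (Fintype.card J - 1) := by
  have h := hr U J d i (mm a) (mm b)
  have h1 : V ≤ (univ.filter fun k => d.bJ k + (∑ u ∈ mm a, d.C k u + ∑ u ∈ mm b, d.C k u) =
      1).card := by
    by_cases hab : a = b
    · refine hV.trans (le_of_eq ?_)
      congr 1
      ext k
      rw [mem_filter, mem_filter, hab]
      have : ∀ x : ZMod 2, x + x = 0 := by decide
      rw [this, add_zero]
    · refine (hs a b hab).trans (Finset.card_le_card fun k hk => ?_)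
      rw [mem_filter] at hk ⊢
      refine ⟨mem_univ _, ?_⟩
      rw [hk.2.1, zero_add]
      exact Pool.Agent.NH4.PJ.Mom.f2 hk.2.2
  set R := ((KK d i (mm b)).filter fun w => ∀ v ∈ KK d i (mm a), om d (mm a) (mm b) v w = 0).card
    with hR
  have h2 : (R : ℝ) * 2 ^ V ≤ 2 ^ (2 * Fintype.card U + 2 + Fintype.card J) := by
    have h3 : R * 2 ^ V ≤ 2 ^ (2 * Fintype.card U + 2 + Fintype.card J) :=
      (Nat.mul_le_mul_left _ (Nat.pow_le_pow_right (by norm_num) h1)).trans h
    exact_mod_cast h3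
  have e : 2 * Fintype.card U + 2 + Fintype.card J =
      (2 * Fintype.card U + 3) + (Fintype.card J - 1) := by omega
  rw [e, pow_add] at h2
  rw [div_mul_eq_mul_div, le_div_iff₀ (by positivity)]
  exact h2

/-- the number of the isotropic families -/
theorem count_iso (hI : S_XISO) (hr : S_XRAD) (h3 : S_M3) {M : ℕ} {d : NH3.XD.Dat U J}
    {mm : Fin M → Finset U} (hg : GoodJ d mm) {i : J} (hi : d.bJ i = 1) {V : ℕ}
    (hV : V ≤ (univ.filter fun l => d.bJ l = 1).card)
    (hs : ∀ a b, a ≠ b → V ≤ (univ.filter fun k => d.bJ k = 0 ∧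
      ∑ u ∈ mm a, d.C k u + ∑ u ∈ mm b, d.C k u ≠ 0).card) (b : S → Fin M) :
    |((univ.filter fun z : S → (U → F) × (J → F) => SmF (toP d i) (fun s => mm (b s)) z ∧
        Is d (fun s => mm (b s)) z).card : ℝ) -
        2 ^ ((Fintype.card J - 1) * Fintype.card S) / 2 ^ pr S| ≤
      2 ^ (2 * Fintype.card U + 3) / 2 ^ V * 2 ^ ((Fintype.card J - 1) * Fintype.card S) := by
  have hJ : 1 ≤ Fintype.card J := Fintype.card_pos_iff.2 ⟨i⟩
  have hcard : ∀ s : S, (Fintype.card (KS d i (mm (b s))) : ℝ) = 2 ^ (Fintype.card J - 1) := by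
    intro s
    rw [← Nat.card_eq_fintype_card, card_KS h3 hg hi]
    push_cast
    rfl
  have h := hI S (fun s => KS d i (mm (b s)))
    (fun s t => (omL d (mm (b s)) (mm (b t))).domRestrict₁₂ (KS d i (mm (b s))) (KS d i (mm (b t))))
    (2 ^ (2 * Fintype.card U + 3) / 2 ^ V) (by positivity) (by
      intro s t _
      rw [hcard t]
      refine le_trans (le_of_eq ?_) (rad_le (i := i) hr hV hs hJ (b s) (b t))
      congr 1
      refine Finset.card_nbij' (fun w => (w : (U → F) × (J → F)))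
        (fun w => if hw : w ∈ KS d i (mm (b t)) then ⟨w, hw⟩ else 0) ?_ ?_ ?_ ?_
      · intro w hw
        rw [Finset.mem_coe, mem_filter] at hw
        rw [Finset.mem_coe, mem_filter]
        refine ⟨mem_filter.2 ⟨mem_univ _, (mem_KS d i _ _).1 w.2⟩, fun v hv => ?_⟩
        exact hw.2 ⟨v, (mem_KS d i _ _).2 (mem_filter.1 hv).2⟩
      · intro w hw
        rw [Finset.mem_coe, mem_filter] at hw
        have hw1 : w ∈ KS d i (mm (b t)) := (mem_KS d i _ _).2 (mem_filter.1 hw.1).2
        rw [Finset.mem_coe, mem_filter]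
        refine ⟨mem_univ _, fun v => ?_⟩
        beta_reduce
        rw [dif_pos hw1]
        exact hw.2 v (mem_filter.2 ⟨mem_univ _, (mem_KS d i _ _).1 v.2⟩)
      · intro w hw
        show (if hw : (w : (U → F) × (J → F)) ∈ KS d i (mm (b t)) then _ else _) = w
        rw [dif_pos w.2]
      · intro w hw
        rw [Finset.mem_coe, mem_filter] at hw
        have hw1 : w ∈ KS d i (mm (b t)) := (mem_KS d i _ _).2 (mem_filter.1 hw.1).2
        show ((if hw : w ∈ KS d i (mm (b t)) then (⟨w, hw⟩ : KS d i (mm (b t))) else 0 :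
          KS d i (mm (b t))) : (U → F) × (J → F)) = w
        rw [dif_pos hw1])
  have e1 : ∏ s : S, (Fintype.card (KS d i (mm (b s))) : ℝ) =
      2 ^ ((Fintype.card J - 1) * Fintype.card S) := by
    rw [Finset.prod_congr rfl fun s _ => hcard s, Finset.prod_const, card_univ, ← pow_mul]
  have e2 : (univ.filter fun z : ∀ s, KS d i (mm (b s)) => ∀ s t, s < t →
      (omL d (mm (b s)) (mm (b t))).domRestrict₁₂ (KS d i (mm (b s))) (KS d i (mm (b t))) (z s)
        (z t) = 0).card =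
      (univ.filter fun z : S → (U → F) × (J → F) => SmF (toP d i) (fun s => mm (b s)) z ∧
        Is d (fun s => mm (b s)) z).card := by
    refine Finset.card_bij (fun z _ => fun s => (z s : (U → F) × (J → F))) ?_ ?_ ?_
    · intro z hz
      rw [mem_filter] at hz
      rw [mem_filter]
      exact ⟨mem_univ _, fun s => (mem_KS d i _ _).1 (z s).2, fun s t hst => hz.2 s t hst⟩
    · intro z _ z' _ h
      funext s
      exact Subtype.ext (congrFun h s)
    · intro z hz
      rw [mem_filter] at hz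
      refine ⟨fun s => ⟨z s, (mem_KS d i _ _).2 (hz.2.1 s)⟩, ?_, rfl⟩
      rw [mem_filter]
      exact ⟨mem_univ _, fun s t hst => hz.2.2 s t hst⟩
  rw [e1, e2] at h
  exact h

end

section

variable {U J : Type} [Fintype U] [Fintype J] [LinearOrder J] {M : ℕ}

/-- an order on the indices -/
noncomputable abbrev ordIx (k : Fin M → ℕ) : LinearOrder (Ix k) :=
  LinearOrder.lift' (Fintype.equivFin (Ix k)) (Fintype.equivFin (Ix k)).injective

/-- the number of the pairs -/
noncomputable def qq (k : Fin M → ℕ) : ℕ := @pr (Ix k) _ (ordIx k)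

/-- isotropic families -/
def IsI (d : NH3.XD.Dat U J) (mm : Fin M → Finset U) (k : Fin M → ℕ)
    (z : Ix k → (U → F) × (J → F)) : Prop :=
  ∀ s t : Ix k, (ordIx k).lt s t → om d (mm s.1) (mm t.1) (z s) (z t) = 0

/-- generic families -/
def Gn {k : Fin M → ℕ} (z : Ix k → (U → F) × (J → F)) : Prop := rs (yf z) Set.univ = ⊤

theorem gen_I (hp : S_XPRB) (d : NH3.XD.Dat U J) (mm : Fin M → Finset U) (k : Fin M → ℕ) {i : J}
    {z : Ix k → (U → F) × (J → F)} (h : SmF (toP d i) (fun s => mm s.1) z) (hG : Gn z) :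
    (Az (toP d i) (fun s => mm s.1) z : ℝ) * 2 ^ ((Fintype.card J - 1) * Fintype.card (Ix k)) =
      if IsI d mm k z then 2 ^ (prs (univ : Finset J)).card * 2 ^ qq k else 0 :=
  @gen_A U J _ _ _ (Ix k) _ (ordIx k) hp d (fun s => mm s.1) i z h hG

theorem count_I (hI : S_XISO) (hr : S_XRAD) (h3 : S_M3) {d : NH3.XD.Dat U J}
    {mm : Fin M → Finset U} (hg : GoodJ d mm) {i : J} (hi : d.bJ i = 1) {V : ℕ}
    (hV : V ≤ (univ.filter fun l => d.bJ l = 1).card)
    (hs : ∀ a b, a ≠ b → V ≤ (univ.filter fun k => d.bJ k = 0 ∧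
      ∑ u ∈ mm a, d.C k u + ∑ u ∈ mm b, d.C k u ≠ 0).card) (k : Fin M → ℕ) :
    |((univ.filter fun z : Ix k → (U → F) × (J → F) => SmF (toP d i) (fun s => mm s.1) z ∧
        IsI d mm k z).card : ℝ) -
        2 ^ ((Fintype.card J - 1) * Fintype.card (Ix k)) / 2 ^ qq k| ≤
      2 ^ (2 * Fintype.card U + 3) / 2 ^ V * 2 ^ ((Fintype.card J - 1) * Fintype.card (Ix k)) := by
  have h := @count_iso U J _ _ _ (Ix k) _ (ordIx k) hI hr h3 M d mm hg i hi V hV hs (fun s => s.1)
  refine (le_of_eq ?_).trans h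
  congr 4
  unfold IsI Is
  congr
  all_goals (funext a b; exact Subsingleton.elim _ _)

theorem gn_li (d : NH3.XD.Dat U J) (i : J) (mm : Fin M → Finset U) (k : Fin M → ℕ)
    {z : Ix k → (U → F) × (J → F)} (h : Gn z) : LiF k z := by
  refine Pool.Agent.NH4.PJ.Mom.gen_li (d0 d i) mm k ?_
  have e : {l : J | l ∉ (d0 d i).JR} = Set.univ := by
    ext l
    simp only [Set.mem_ofPred_eq, Set.mem_univ, iff_true]
    exact Finset.notMem_empty l
  rw [e]
  exact h

/-- few families are not generic -/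
theorem count_non (d : NH3.XD.Dat U J) (i : J) (mm : Fin M → Finset U) (k : Fin M → ℕ)
    (T : Finset (Ix k → (U → F) × (J → F)))
    (hT : ∀ z ∈ T, SmF (toP d i) (fun s => mm s.1) z ∧ ¬ Gn z) :
    (T.card : ℝ) * 2 ^ (Fintype.card J - 1) ≤ 2 ^ Fintype.card (Ix k) *
      (2 ^ (Fintype.card (Ix k) * Fintype.card U) *
        2 ^ ((Fintype.card J - 1) * Fintype.card (Ix k))) := by
  have e : {l : J | l ∉ (d0 d i).JR} = Set.univ := by
    ext l
    simp only [Set.mem_ofPred_eq, Set.mem_univ, iff_true]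
    exact Finset.notMem_empty l
  have h := Pool.Agent.NH4.PJ.Mom.count0' (d0 d i) mm k T (by
    intro z hz
    refine ⟨(hT z hz).1, ?_⟩
    rw [e]
    exact (hT z hz).2)
  have e1 : ((d0 d i).JC \ (d0 d i).JR).card = Fintype.card J - 1 := by
    show (((univ : Finset J).erase i) \ ∅).card = _
    rw [Finset.sdiff_empty, Finset.card_erase_of_mem (mem_univ _), card_univ]
  have e2 : (d0 d i).JC.card = Fintype.card J - 1 := by
    show ((univ : Finset J).erase i).card = _
    rw [Finset.card_erase_of_mem (mem_univ _), card_univ]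
  rw [e1, e2, ← pow_mul (2 : ℝ), Nat.mul_comm (Fintype.card (Ix k)) (Fintype.card J - 1)] at h
  exact h

end

theorem t_XMOMJ (h1 : S_M1) (h2 : S_M2) (h3 : S_M3) (hp : S_XPRB) (hr : S_XRAD) (hI : S_XISO) :
    S_XMOMJ := by
  intro M k
  set K := Fintype.card (Ix k) with hK
  let _ : Fintype (Submodule F (Ix k → F)) := Fintype.ofFinite _
  set NS : ℝ := (Fintype.card (Submodule F (Ix k → F)) : ℝ) with hNS
  have hNS0 : 0 ≤ NS := Nat.cast_nonneg _
  refine ⟨2 ^ (K ^ 2) * NS + 2 ^ qq k * (2 ^ 3 + 2 ^ (K + 1)), K + 2, by positivity, ?_⟩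
  intro U J _ _ _ d mm i V hg hi hV hs
  set P : ℝ := 2 ^ (prs (univ : Finset J)).card with hP
  have hP0 : 0 < P := by positivity
  set N : ℝ := 2 ^ ((Fintype.card J - 1) * K) with hN
  have hN0 : 0 < N := by positivity
  have hgP := good_toP hg hi
  have hJ : 1 ≤ Fintype.card J := Fintype.card_pos_iff.2 ⟨i⟩
  have hVJ : (2 : ℝ) ^ V ≤ 2 * 2 ^ (Fintype.card J - 1) := by
    rw [← pow_succ']
    apply pow_le_pow_right₀ (by norm_num)
    have : (univ.filter fun l => d.bJ l = 1).card ≤ Fintype.card J := Finset.card_le_univ _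
    omega
  set m' : Ix k → Finset U := fun s => mm s.1 with hm'
  set D := toP d i with hD
  have hJR : D.JR.card = Fintype.card J - 1 := by
    show ((univ : Finset J).erase i).card = _
    rw [Finset.card_erase_of_mem (mem_univ _), card_univ]
  have hJC : D.JC.card = D.JR.card := rfl
  -- the sum over the families
  have hsum : ∑ α : prs (univ : Finset J) → ZMod 2, ∏ a, inj (k a) (nkM D (mm a) α) =
      ∑ z ∈ Tf D mm k, (Az D m' z : ℝ) := by
    rw [Pool.Agent.NH4.PJ.Mom.sum_prod]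
    have e : (univ.filter (fun z : Ix k → (U → F) × (J → F) =>
        (∀ s, Sml D (mm s.1) (z s).1 (z s).2) ∧ LiF k z)) = Tf D mm k := by
      unfold Tf SmF
      congr
    rw [e]
  -- the generic part
  set I1 : Finset (Ix k → (U → F) × (J → F)) :=
    (univ.filter fun z => SmF D m' z ∧ IsI d mm k z).filter Gn with hI1
  set I2 : Finset (Ix k → (U → F) × (J → F)) :=
    (univ.filter fun z => SmF D m' z ∧ IsI d mm k z).filter (fun z => ¬ Gn z) with hI2
  have hgen : ∑ z ∈ (Tf D mm k).filter Gn, (Az D m' z : ℝ) = P * 2 ^ qq k / N * (I1.card : ℝ) := by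
    have e : ∀ z ∈ (Tf D mm k).filter Gn, (Az D m' z : ℝ) =
        if IsI d mm k z then P * 2 ^ qq k / N else 0 := by
      intro z hz
      rw [mem_filter] at hz
      have h4 := gen_I hp d mm k (mem_filter.1 hz.1).2.1 hz.2
      by_cases h5 : IsI d mm k z
      · rw [if_pos h5] at h4 ⊢
        rw [eq_div_iff (by positivity)]
        exact h4
      · rw [if_neg h5] at h4 ⊢
        rcases mul_eq_zero.1 h4 with h6 | h6
        · exact h6
        · exact absurd h6 (by positivity)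
    rw [Finset.sum_congr rfl e, ← Finset.sum_filter, Finset.sum_const, nsmul_eq_mul, mul_comm]
    congr 2
    congr 1
    ext z
    rw [hI1]
    unfold Tf
    simp only [mem_filter, mem_univ, true_and]
    constructor
    · rintro ⟨⟨⟨a1, -⟩, a3⟩, a4⟩
      exact ⟨⟨a1, a4⟩, a3⟩
    · rintro ⟨⟨a1, a4⟩, a3⟩
      exact ⟨⟨⟨a1, gn_li d i mm k a3⟩, a3⟩, a4⟩
  have hcI := count_I hI hr h3 hg hi hV hs k
  have hsplit : ((univ.filter fun z : Ix k → (U → F) × (J → F) => SmF D m' z ∧
      IsI d mm k z).card : ℝ) = (I1.card : ℝ) + (I2.card : ℝ) := by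
    rw [hI1, hI2, ← Nat.cast_add, Finset.card_filter_add_card_filter_not]
  rw [hsplit] at hcI
  have hI2c : (I2.card : ℝ) * 2 ^ V ≤ 2 ^ (K + 1) * 2 ^ (K * Fintype.card U) * N := by
    have h4 := count_non d i mm k I2 (by
      intro z hz
      rw [hI2, mem_filter, mem_filter] at hz
      exact ⟨hz.1.2.1, hz.2⟩)
    calc (I2.card : ℝ) * 2 ^ V ≤ (I2.card : ℝ) * (2 * 2 ^ (Fintype.card J - 1)) := by gcongr
      _ = 2 * ((I2.card : ℝ) * 2 ^ (Fintype.card J - 1)) := by ring
      _ ≤ 2 * (2 ^ K * (2 ^ (K * Fintype.card U) * N)) := by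
        apply mul_le_mul_of_nonneg_left h4 (by norm_num)
      _ = _ := by rw [pow_succ]; ring
  have hU2 : (2 : ℝ) ^ (2 * Fintype.card U) ≤ 2 ^ ((K + 2) * Fintype.card U) := by
    apply pow_le_pow_right₀ (by norm_num)
    exact Nat.mul_le_mul_right _ (by omega)
  have hUK : (2 : ℝ) ^ (K * Fintype.card U) ≤ 2 ^ ((K + 2) * Fintype.card U) := by
    apply pow_le_pow_right₀ (by norm_num)
    exact Nat.mul_le_mul_right _ (by omega)
  have hgen2 : |(∑ z ∈ (Tf D mm k).filter Gn, (Az D m' z : ℝ)) / P - 1| ≤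
      2 ^ qq k * (2 ^ 3 + 2 ^ (K + 1)) * 2 ^ ((K + 2) * Fintype.card U) / 2 ^ V := by
    have hq0 : (0 : ℝ) < 2 ^ qq k := by positivity
    have e2 : (∑ z ∈ (Tf D mm k).filter Gn, (Az D m' z : ℝ)) / P - 1 =
        2 ^ qq k / N * (((I1.card : ℝ) + I2.card) - N / 2 ^ qq k) - 2 ^ qq k / N * I2.card := by
      rw [hgen]
      field_simp
      ring
    rw [e2]
    have e3 : |2 ^ qq k / N * (((I1.card : ℝ) + I2.card) - N / 2 ^ qq k)| ≤
        2 ^ qq k * (2 ^ (2 * Fintype.card U + 3) / 2 ^ V) := by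
      rw [abs_mul, abs_of_pos (by positivity : (0 : ℝ) < 2 ^ qq k / N)]
      calc _ ≤ 2 ^ qq k / N * (2 ^ (2 * Fintype.card U + 3) / 2 ^ V * N) := by gcongr
        _ = _ := by field_simp
    have e4 : |2 ^ qq k / N * (I2.card : ℝ)| ≤
        2 ^ qq k * (2 ^ (K + 1) * 2 ^ (K * Fintype.card U) / 2 ^ V) := by
      rw [abs_of_nonneg (by positivity)]
      have e5 : (I2.card : ℝ) ≤ 2 ^ (K + 1) * 2 ^ (K * Fintype.card U) * N / 2 ^ V := by
        rw [le_div_iff₀ (by positivity)]
        exact hI2c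
      calc _ ≤ 2 ^ qq k / N * (2 ^ (K + 1) * 2 ^ (K * Fintype.card U) * N / 2 ^ V) := by gcongr
        _ = _ := by field_simp
    refine (abs_sub _ _).trans ((add_le_add e3 e4).trans ?_)
    rw [pow_add 2 (2 * Fintype.card U) 3]
    have e6 : (2 : ℝ) ^ qq k * (2 ^ (2 * Fintype.card U) * 2 ^ 3 / 2 ^ V) +
        2 ^ qq k * (2 ^ (K + 1) * 2 ^ (K * Fintype.card U) / 2 ^ V) =
        2 ^ qq k * (2 ^ 3 * 2 ^ (2 * Fintype.card U) +
          2 ^ (K + 1) * 2 ^ (K * Fintype.card U)) / 2 ^ V := by ring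
    rw [e6]
    have e7 : (2 : ℝ) ^ 3 * 2 ^ (2 * Fintype.card U) + 2 ^ (K + 1) * 2 ^ (K * Fintype.card U) ≤
        (2 ^ 3 + 2 ^ (K + 1)) * 2 ^ ((K + 2) * Fintype.card U) := by
      rw [add_mul]
      gcongr
    calc (2 : ℝ) ^ qq k * (2 ^ 3 * 2 ^ (2 * Fintype.card U) +
          2 ^ (K + 1) * 2 ^ (K * Fintype.card U)) / 2 ^ V ≤
          (2 : ℝ) ^ qq k * ((2 ^ 3 + 2 ^ (K + 1)) * 2 ^ ((K + 2) * Fintype.card U)) / 2 ^ V := by
          apply div_le_div_of_nonneg_right _ (by positivity)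
          exact mul_le_mul_of_nonneg_left e7 (by positivity)
      _ = _ := by ring
  -- the rest
  have hsep : ∀ a b, a ≠ b → V ≤ (sepJ D mm a b).card := fun a b hab =>
    (hs a b hab).trans (sep_le hi a b)
  have hrest : (∑ z ∈ (Tf D mm k).filter (fun z => ¬ Gn z), (Az D m' z : ℝ)) * 2 ^ V ≤
      NS * (P * 2 ^ (K ^ 2) * 2 ^ (K * Fintype.card U)) := by
    rw [← Finset.sum_fiberwise ((Tf D mm k).filter (fun z => ¬ Gn z))
      (fun z => rs (yf z) Set.univ) (fun z => (Az D m' z : ℝ)), Finset.sum_mul]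
    refine (Finset.sum_le_card_nsmul _ _ (P * 2 ^ (K ^ 2) * 2 ^ (K * Fintype.card U)) ?_).trans
      (le_of_eq ?_)
    · rintro W -
      set Tp := ((Tf D mm k).filter (fun z => ¬ Gn z)).filter
        (fun z => rs (yf z) Set.univ = W) with hTp
      have hmem : ∀ z ∈ Tp, (SmF D m' z ∧ LiF k z) ∧ ¬ Gn z ∧ rs (yf z) Set.univ = W := by
        intro z hz
        rw [hTp, mem_filter, mem_filter] at hz
        unfold Tf at hz
        rw [mem_filter] at hz
        exact ⟨hz.1.1.2, hz.1.2, hz.2⟩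
      have hWp := Pool.Agent.NH4.PJ.Mom.cardW_pos W
      have hAle : ∀ z ∈ Tp, (Az D m' z : ℝ) ≤ P * 2 ^ (K ^ 2) / (Nat.card W : ℝ) ^ D.JR.card := by
        intro z hz
        obtain ⟨h4, -, h5⟩ := hmem z hz
        have h6 := Pool.Agent.NH4.PJ.Mom.non_A h1 h2 hgP.free h4.1
        rw [h5] at h6
        rw [le_div_iff₀ (by positivity)]
        exact h6
      have hcnt : ((Tp.filter fun z => Az D m' z ≠ 0).card : ℝ) * 2 ^ V ≤
          2 ^ (K * Fintype.card U) * (Nat.card W : ℝ) ^ D.JC.card := by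
        rcases Tp.eq_empty_or_nonempty with hemp | ⟨z₀, hz₀⟩
        · rw [hemp, Finset.filter_empty, Finset.card_empty, Nat.cast_zero, zero_mul]
          positivity
        obtain ⟨-, h4, h5⟩ := hmem z₀ hz₀
        have hne : W ≠ ⊤ := by
          rw [← h5]
          exact h4
        exact Pool.Agent.NH4.PJ.Mom.count2' D mm k (fun _ => 0) hgP V hsep (W := W) hne
            (Tp.filter fun z => Az D m' z ≠ 0) (by
            intro z hz
            rw [mem_filter] at hz
            obtain ⟨g1, -, g3⟩ := hmem z hz.1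
            exact ⟨g1, g3, hz.2⟩)
      have hsumle : ∑ z ∈ Tp, (Az D m' z : ℝ) ≤
          ((Tp.filter fun z => Az D m' z ≠ 0).card : ℝ) *
            (P * 2 ^ (K ^ 2) / (Nat.card W : ℝ) ^ D.JR.card) := by
        have e : ∑ z ∈ Tp, (Az D m' z : ℝ) = ∑ z ∈ Tp.filter (fun z => Az D m' z ≠ 0),
            (Az D m' z : ℝ) := by
          symm
          apply Finset.sum_filter_of_ne
          intro z _ hz
          exact_mod_cast hz
        rw [e, ← nsmul_eq_mul]
        exact Finset.sum_le_card_nsmul _ _ _ fun z hz => hAle z (mem_filter.1 hz).1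
      show (∑ z ∈ Tp, (Az D m' z : ℝ)) * 2 ^ V ≤ _
      calc (∑ z ∈ Tp, (Az D m' z : ℝ)) * 2 ^ V ≤
            (((Tp.filter fun z => Az D m' z ≠ 0).card : ℝ) *
            (P * 2 ^ (K ^ 2) / (Nat.card W : ℝ) ^ D.JR.card)) * 2 ^ V := by gcongr
        _ = (((Tp.filter fun z => Az D m' z ≠ 0).card : ℝ) * 2 ^ V) *
            (P * 2 ^ (K ^ 2) / (Nat.card W : ℝ) ^ D.JR.card) := by ring
        _ ≤ (2 ^ (K * Fintype.card U) * (Nat.card W : ℝ) ^ D.JC.card) *
            (P * 2 ^ (K ^ 2) / (Nat.card W : ℝ) ^ D.JR.card) := by gcongr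
        _ = _ := by
            rw [hJC]
            field_simp
    · rw [nsmul_eq_mul, card_univ]
  have hrest2 : (∑ z ∈ (Tf D mm k).filter (fun z => ¬ Gn z), (Az D m' z : ℝ)) / P ≤
      2 ^ (K ^ 2) * NS * 2 ^ ((K + 2) * Fintype.card U) / 2 ^ V := by
    rw [div_le_div_iff₀ hP0 (by positivity)]
    refine hrest.trans ?_
    calc NS * (P * 2 ^ (K ^ 2) * 2 ^ (K * Fintype.card U)) ≤
          NS * (P * 2 ^ (K ^ 2) * 2 ^ ((K + 2) * Fintype.card U)) := by gcongr
      _ = _ := by ring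
  have hrest0 : 0 ≤ (∑ z ∈ (Tf D mm k).filter (fun z => ¬ Gn z), (Az D m' z : ℝ)) / P :=
    div_nonneg (Finset.sum_nonneg fun z _ => Nat.cast_nonneg _) hP0.le
  rw [hsum, ← Finset.sum_filter_add_sum_filter_not (Tf D mm k) Gn, add_div]
  have e : ∀ a b c : ℝ, |a + b - c| ≤ |a - c| + |b| := by
    intro a b c
    have : a + b - c = (a - c) + b := by ring
    rw [this]
    exact abs_add_le _ _
  refine (e _ _ _).trans ?_
  rw [abs_of_nonneg hrest0]
  refine (add_le_add hgen2 hrest2).trans (le_of_eq ?_)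
  ring

end Pool.Agent.NH4.XJ.Mom
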