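import Pool.Agent.NH4.XJ.SYS
import Pool.Agent.NH4.XJ.RAD
import Pool.Agent.NH4.XJ.MOM
import Pool.Agent.NH4.XJ.LA
import Pool.Agent.NH4.XJ.BOX
import Pool.Agent.NH4.XJ.Key
import Pool.Agent.NH4.XJ.FEW
import Pool.Agent.NH4.XJ.MER
import Pool.Agent.NH4.XJ.LOW
import Pool.Agent.NH4.XJ.Asy
import Pool.Agent.NH4.PJ.Fin
import Pool.Agent.NH3.XD.Fin

/-!
# Project XJ: the joint law of the Redei matrices, assembly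
-/

set_option autoImplicit false

namespace Pool.Agent.NH4.XJ

open Pool.Agent.NH4.PJ (t_M1 t_M2 t_M3 t_ABS t_POW t_LAW)

theorem lAJ_of (hp : S_XPRB) (hI : S_XISO) : S_XLAJ :=
  t_XLAJ t_ABS (Mom.t_XMOMJ t_M1 t_M2 t_M3 hp t_XRAD hI) t_POW

theorem jDQ_of (hp : S_XPRB) (hI : S_XISO) : S_XJQ :=
  t_XJASY Pool.Agent.NH5.PR.t_BIL Pool.Agent.Y356.CQ.t_EQ (lAJ_of hp hI) t_XSYS t_LAW t_XJBOX
    K40.t_XJKEY Pool.Agent.NH3.XD.t_XCNT Pool.Agent.Y488.CX.t_SIE Pool.Agent.NH3.XD.t_XHAL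
    Pool.Agent.NH3.XD.t_XBAD Pool.Agent.Y405.CQ.t_MER t_XJFEW t_XJMER t_XJSEP t_XJLOW

theorem jDEN_of (hp : S_XPRB) (hI : S_XISO) : S_XJDEN := t_XJNS (jDQ_of hp hI)

end Pool.Agent.NH4.XJ
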