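import Pool.Agent.NH4.XJ.Stm
import Pool.Agent.NH3.XD.PRB

/-!
# Project XJ, job XV-J1: the Redei system with a mask
-/

set_option autoImplicit false
set_option linter.unusedSectionVars false
set_option linter.unusedVariables false

open scoped Classical

namespace Pool.Agent.NH4.XJ

open Finset
open Pool.Agent.Y703.CQ (prs)
open Pool.Agent.NH5.PR (ex2)
open Pool.Agent.NH4.PJ (nkM Lrg Sml)
open Pool.Agent.NH4.PJ.M1 (mem_prs)

namespace SYS

variable {U J : Type} [Fintype U] [Fintype J] [LinearOrder J]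

/-- the reciprocity law for the symbols of the large primes -/
theorem ex2_rec (d : NH3.XD.Dat U J) (α : prs (univ : Finset J) → ZMod 2) (k l : J) (hkl : k ≠ l) :
    ex2 (tt d) α k l + ex2 (tt d) α l k = d.bJ k * d.bJ l := by
  have h2 : ∀ a b : ZMod 2, a + (a + b) = b := by decide
  have key : ∀ k l : J, k < l → ex2 (tt d) α l k + ex2 (tt d) α k l = d.bJ k * d.bJ l := by
    intro k l h
    have h1 : (l, k) ∉ prs (univ : Finset J) := fun h' => absurd ((mem_prs l k).1 h') h.not_gt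
    have h3 : (k, l) ∈ prs (univ : Finset J) := (mem_prs k l).2 h
    unfold ex2
    rw [dif_pos h3, dif_neg h1, dif_pos h3]
    exact h2 _ _
  rcases lt_or_gt_of_ne hkl with h | h
  · rw [add_comm]
    exact key k l h
  · rw [key l k h, mul_comm]

/-- the matrix of the system -/
noncomputable def MM (d : NH3.XD.Dat U J) (m : Finset U) (α : prs (univ : Finset J) → ZMod 2) :
    m ⊕ J → m ⊕ J → ZMod 2
  | Sum.inl u, Sum.inl v => d.A u v
  | Sum.inl u, Sum.inr l => d.B u l
  | Sum.inr k, Sum.inl u => d.C k u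
  | Sum.inr k, Sum.inr l => ex2 (tt d) α k l

theorem MM_rec {M : ℕ} (d : NH3.XD.Dat U J) (mm : Fin M → Finset U) (hd : GoodJ d mm) (m : Finset U)
    (α : prs (univ : Finset J) → ZMod 2) (p q : m ⊕ J) (hpq : p ≠ q) :
    MM d m α p q + MM d m α q p =
      Sum.elim (fun u : m => d.bU u) d.bJ p * Sum.elim (fun u : m => d.bU u) d.bJ q := by
  rcases p with u | k <;> rcases q with v | l
  · exact hd.rA u v (fun h => hpq (by rw [Subtype.ext h]))
  · exact hd.rB u l
  · show d.C k v + d.B v k = d.bJ k * d.bU v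
    rw [add_comm, hd.rB v k, mul_comm]
  · exact ex2_rec d α k l (fun h => hpq (by rw [h]))

/-- the sum of all rows -/
theorem sum_rows {M : ℕ} (d : NH3.XD.Dat U J) (mm : Fin M → Finset U) (hd : GoodJ d mm) (a : Fin M)
    (α : prs (univ : Finset J) → ZMod 2) (x : U → ZMod 2) (y : J → ZMod 2) :
    ∑ u ∈ mm a, (∑ v ∈ mm a, d.A u v * (x v + x u) + ∑ l, d.B u l * (y l + x u)) +
      ∑ k, (∑ u ∈ mm a, d.C k u * (x u + y k) + ∑ l, ex2 (tt d) α k l * (y l + y k)) = 0 := by
  have h1 := NH3.XD.PRB.bil (MM d (mm a) α) (Sum.elim (fun u : mm a => d.bU u) d.bJ)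
    (MM_rec d mm hd (mm a) α) (Sum.elim (fun u : mm a => x u) y) (fun _ => 1)
  have h2 : ∑ p, Sum.elim (fun u : mm a => x u) y p *
      ∑ q, MM d (mm a) α p q * ((fun _ : mm a ⊕ J => (1 : ZMod 2)) q +
        (fun _ : mm a ⊕ J => (1 : ZMod 2)) p) = 0 := by
    refine Finset.sum_eq_zero fun p _ => ?_
    have h3 : (1 : ZMod 2) + 1 = 0 := by decide
    simp only [h3, mul_zero, Finset.sum_const_zero]
  have h4 : ∑ p, Sum.elim (fun u : mm a => d.bU u) d.bJ p * (fun _ : mm a ⊕ J => (1 : ZMod 2)) p =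
      1 := by
    rw [Fintype.sum_sum_type]
    simp only [Sum.elim_inl, Sum.elim_inr, mul_one]
    rw [Finset.sum_coe_sort (mm a) d.bU]
    exact hd.par a
  rw [h2, add_zero, h4, mul_one] at h1
  have h5 : ∑ p, Sum.elim (fun u : mm a => d.bU u) d.bJ p * Sum.elim (fun u : mm a => x u) y p +
      ∑ p, Sum.elim (fun u : mm a => d.bU u) d.bJ p * (Sum.elim (fun u : mm a => x u) y p *
        (fun _ : mm a ⊕ J => (1 : ZMod 2)) p) = 0 := by
    simp only [mul_one]
    have h6 : ∀ c : ZMod 2, c + c = 0 := by decide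
    exact h6 _
  rw [h5, Fintype.sum_sum_type] at h1
  rw [← h1]
  congr 1
  · rw [← Finset.sum_coe_sort (mm a)]
    refine Finset.sum_congr rfl fun u _ => ?_
    rw [one_mul, Fintype.sum_sum_type, ← Finset.sum_coe_sort (mm a)]
    rfl
  · refine Finset.sum_congr rfl fun k _ => ?_
    rw [one_mul, Fintype.sum_sum_type, ← Finset.sum_coe_sort (mm a)]
    rfl

/-- the reduced system -/
theorem red_iff {M : ℕ} (d : NH3.XD.Dat U J) (mm : Fin M → Finset U) (hd : GoodJ d mm) (i : J)
    (a : Fin M) (α : prs (univ : Finset J) → ZMod 2) (x : U → ZMod 2) (y : J → ZMod 2) :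
    (All d (mm a) α x y ∧ y i = 0) ↔
      Sml (toP d i) (mm a) x y ∧ Lrg (toP d i) (mm a) α x y := by
  constructor
  · rintro ⟨⟨h1, h2, h3⟩, h4⟩
    refine ⟨⟨fun u hu => absurd (mem_univ u) hu, h1, fun k hk => ?_, fun u _ hu => ?_⟩,
      fun k _ => ?_⟩
    · have hki : k = i := by
        by_contra h
        exact hk (mem_erase.2 ⟨h, mem_univ _⟩)
      rw [hki]
      exact h4
    · show ∑ v ∈ mm a, d.A u v * (x v + x u) + ∑ l, d.B u l * (y l + x u) + 0 * x u = 0
      rw [zero_mul, add_zero]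
      exact h2 u hu
    · show ∑ u ∈ mm a, d.C k u * (x u + y k) + ∑ l, ex2 (tt d) α k l * (y l + y k) + 0 * y k = 0
      rw [zero_mul, add_zero]
      exact h3 k
  · rintro ⟨⟨_, h1, h2, h3⟩, h4⟩
    have h5 : ∀ u ∈ mm a, ∑ v ∈ mm a, d.A u v * (x v + x u) + ∑ l, d.B u l * (y l + x u) = 0 := by
      intro u hu
      have h := h3 u (mem_univ _) hu
      change ∑ v ∈ mm a, d.A u v * (x v + x u) + ∑ l, d.B u l * (y l + x u) + 0 * x u = 0 at h
      rwa [zero_mul, add_zero] at h
    have h6 : ∀ k, k ≠ i → ∑ u ∈ mm a, d.C k u * (x u + y k) +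
        ∑ l, ex2 (tt d) α k l * (y l + y k) = 0 := by
      intro k hk
      have h := h4 k (mem_erase.2 ⟨hk, mem_univ _⟩)
      change ∑ u ∈ mm a, d.C k u * (x u + y k) + ∑ l, ex2 (tt d) α k l * (y l + y k) + 0 * y k = 0
        at h
      rwa [zero_mul, add_zero] at h
    have h7 : ∑ u ∈ mm a, d.C i u * (x u + y i) + ∑ l, ex2 (tt d) α i l * (y l + y i) = 0 := by
      have h := sum_rows d mm hd a α x y
      rw [Finset.sum_eq_zero h5, zero_add, Finset.sum_eq_single i] at h
      · exact h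
      · intro k _ hk
        exact h6 k hk
      · intro h'
        exact absurd (mem_univ _) h'
    refine ⟨⟨h1, h5, fun k => ?_⟩, h2 i (notMem_erase _ _)⟩
    by_cases hk : k = i
    · rw [hk]
      exact h7
    · exact h6 k hk

/-- the complement -/
noncomputable def cpl (m : Finset U) (z : (U → ZMod 2) × (J → ZMod 2)) :
    (U → ZMod 2) × (J → ZMod 2) :=
  (fun u => z.1 u + if u ∈ m then 1 else 0, fun k => z.2 k + 1)

theorem cpl_cpl (m : Finset U) (z : (U → ZMod 2) × (J → ZMod 2)) : cpl m (cpl m z) = z := by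
  have h2 : ∀ a b : ZMod 2, a + b + b = a := by decide
  unfold cpl
  exact Prod.ext (funext fun u => h2 _ _) (funext fun k => h2 _ _)

theorem cpl_all (d : NH3.XD.Dat U J) (m : Finset U) (α : prs (univ : Finset J) → ZMod 2)
    (z : (U → ZMod 2) × (J → ZMod 2)) (hz : All d m α z.1 z.2) :
    All d m α (cpl m z).1 (cpl m z).2 := by
  obtain ⟨h1, h2, h3⟩ := hz
  have e : ∀ a b : ZMod 2, (a + 1) + (b + 1) = a + b := by decide
  refine ⟨fun u hu => ?_, fun u hu => ?_, fun k => ?_⟩
  · show z.1 u + (if u ∈ m then 1 else 0) = 0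
    rw [h1 u hu, if_neg hu, add_zero]
  · rw [← h2 u hu]
    congr 1
    · refine Finset.sum_congr rfl fun v hv => ?_
      show d.A u v * ((z.1 v + if v ∈ m then 1 else 0) + (z.1 u + if u ∈ m then 1 else 0)) = _
      rw [if_pos hv, if_pos hu, e]
    · refine Finset.sum_congr rfl fun l _ => ?_
      show d.B u l * ((z.2 l + 1) + (z.1 u + if u ∈ m then 1 else 0)) = _
      rw [if_pos hu, e]
  · rw [← h3 k]
    congr 1
    · refine Finset.sum_congr rfl fun u hu => ?_
      show d.C k u * ((z.1 u + if u ∈ m then 1 else 0) + (z.2 k + 1)) = _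
      rw [if_pos hu, e]
    · refine Finset.sum_congr rfl fun l _ => ?_
      show ex2 (tt d) α k l * ((z.2 l + 1) + (z.2 k + 1)) = _
      rw [e]

end SYS

open SYS

theorem t_XSYS : S_XSYS := by
  intro U J _ _ _ M d mm hd i a α
  have e1 : nkM (toP d i) (mm a) α =
      ((univ.filter fun z : (U → ZMod 2) × (J → ZMod 2) => All d (mm a) α z.1 z.2).filter
        fun z => z.2 i = 0).card := by
    unfold nkM
    refine congrArg Finset.card (Finset.ext fun z => ?_)
    rw [mem_filter, mem_filter, mem_filter]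
    have h := red_iff d mm hd i a α z.1 z.2
    constructor
    · rintro ⟨_, h1⟩
      have h2 := h.2 h1
      exact ⟨⟨mem_univ _, h2.1⟩, h2.2⟩
    · rintro ⟨⟨_, h1⟩, h2⟩
      exact ⟨mem_univ _, h.1 ⟨h1, h2⟩⟩
  have e2 : ((univ.filter fun z : (U → ZMod 2) × (J → ZMod 2) => All d (mm a) α z.1 z.2).filter
        fun z => ¬ z.2 i = 0).card =
      ((univ.filter fun z : (U → ZMod 2) × (J → ZMod 2) => All d (mm a) α z.1 z.2).filter
        fun z => z.2 i = 0).card := by
    have h3 : ∀ b : ZMod 2, b ≠ 0 → b + 1 = 0 := by decide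
    have h4 : ∀ b : ZMod 2, b = 0 → ¬ b + 1 = 0 := by decide
    refine Finset.card_bij (fun z _ => cpl (mm a) z) ?_ ?_ ?_
    · intro z hz
      rw [mem_filter, mem_filter] at hz ⊢
      exact ⟨⟨mem_univ _, cpl_all d (mm a) α z hz.1.2⟩, h3 _ hz.2⟩
    · intro z _ w _ h
      rw [← cpl_cpl (mm a) z, h, cpl_cpl]
    · intro w hw
      rw [mem_filter, mem_filter] at hw
      refine ⟨cpl (mm a) w, ?_, cpl_cpl _ _⟩
      rw [mem_filter, mem_filter]
      exact ⟨⟨mem_univ _, cpl_all d (mm a) α w hw.1.2⟩, h4 _ hw.2⟩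
  have e3 := Finset.card_filter_add_card_filter_not
    (s := univ.filter fun z : (U → ZMod 2) × (J → ZMod 2) => All d (mm a) α z.1 z.2)
    (fun z => z.2 i = 0)
  rw [e1, ← e3, e2, two_mul]

end Pool.Agent.NH4.XJ
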